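import Pool.Agent.MP_3ad207_lc.H43.LinDefs
import Pool.Agent.MP_3ad207_lc.H41.T1
import Pool.Agent.MP_3ad207_lc.H46.K3c

/-! CLEANUP: a class of ears without large good families has few members after a bounded number of
new members. -/

set_option autoImplicit false

namespace Pool.Agent.Ehf

variable {V : Type} {G : SimpleGraph V} {S I : Set V}

namespace Cleanup

theorem side_index {h : Setup G S I} {u : V} {L R : Set V} (hs : h.Sides u L R) {p : ℕ → V}
    {n : ℕ} (hp : IsIP G p n) (pH : ∀ i, i ≤ n → p i ∈ HH S I) (h0 : p 0 ∈ L) (hn : p n ∈ R) :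
    ∃ j, j ≤ n ∧ p j = u ∧ (∀ i, i ≤ n → p i ∈ L → i < j) ∧ ∀ i, i ≤ n → p i ∈ R → j < i := by
  have key : ∀ i k, i ≤ k → k ≤ n → (∀ l, i ≤ l → l ≤ k → p l ≠ u) →
      seg p i k ⊆ L ∨ seg p i k ⊆ R := fun i k h1 h2 h3 =>
    (hp.conn_seg h1 h2).subset_or hs.anti (by
      rw [hs.cover]
      exact seg_subset fun l l1 l2 => ⟨pH l (by omega), h3 l l1 l2⟩)
  have nu : ∀ x ∈ L ∪ R, x ≠ u := fun x hx => by
    rw [hs.cover] at hx
    exact hx.2
  obtain ⟨j, hj, e⟩ : ∃ j, j ≤ n ∧ p j = u := by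
    by_contra hne
    push Not at hne
    rcases key 0 n (Nat.zero_le _) le_rfl fun l _ l2 => hne l l2 with e | e
    · exact hs.anti.notMem (e (apply_mem_seg (Nat.zero_le _) le_rfl)) hn
    · exact hs.anti.notMem h0 (e (apply_mem_seg le_rfl (Nat.zero_le _)))
  refine ⟨j, hj, e, fun i hi hL => ?_, fun i hi hR => ?_⟩
  · by_contra hlt
    have hne : i ≠ j := fun e' => nu _ (Or.inl hL) (e' ▸ e)
    rcases key i n hi le_rfl fun l l1 l2 e' => hp.ne l2 hj (by omega) (e'.trans e.symm) with k | k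
    · exact hs.anti.notMem (k (apply_mem_seg hi le_rfl)) hn
    · exact hs.anti.notMem hL (k (apply_mem_seg le_rfl hi))
  · by_contra hlt
    have hne : i ≠ j := fun e' => nu _ (Or.inr hR) (e' ▸ e)
    rcases key 0 i (Nat.zero_le _) hi fun l l1 l2 e' =>
      hp.ne (by omega) hj (by omega) (e'.trans e.symm) with k | k
    · exact hs.anti.notMem (k (apply_mem_seg (Nat.zero_le _) le_rfl)) hR
    · exact hs.anti.notMem h0 (k (apply_mem_seg le_rfl (Nat.zero_le _)))

theorem len_lt {h : Setup G S I} {a b a' b' : V} (ha' : a' ∈ HH S I) (hb' : b' ∈ HH S I)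
    (ha : a ∈ h.hseg a' b') (hb : b ∈ h.hseg a' b') (n1 : a ≠ a') (n2 : a ≠ b') :
    h.hlen a b < h.hlen a' b' := by
  obtain ⟨i, hi, rfl⟩ := h.mem_hseg.1 ha
  obtain ⟨k, hk, rfl⟩ := h.mem_hseg.1 hb
  have i0 : i ≠ 0 := fun e => n1 (by rw [e, h.hpath_zero ha' hb'])
  have i1 : i ≠ h.hlen a' b' := fun e => n2 (by rw [e, h.hpath_hlen ha' hb'])
  rcases le_total i k with e | e
  · rw [(h.hpath_of_seg (h.hpath_isIP ha' hb') (fun _ => h.hpath_mem ha' hb') e hk).1]
    omega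
  · rw [(h.hpath_of_seg' (h.hpath_isIP ha' hb') (fun _ => h.hpath_mem ha' hb') e hi).1]
    omega

theorem compat {h : Setup G S I} {Wo : Finset V → Set V} (hW : WoOK G S I Wo) {u : V}
    {L R : Set V} (hs : h.Sides u L R) {D : Finset V} (hD : (D : Set V) ⊆ HH S I) (uD : u ∈ D)
    {y z : Ear V} (hy : h.IsEar y) (hz : h.IsEar z) (ya : y.a ∈ L) (yb : y.b ∈ R) (za : z.a ∈ L)
    (zb : z.b ∈ R) (aD : y.a ∈ D) (bD : y.b ∈ D) (hd : Disjoint z.set (Wo D))
    (hA : Anti G y.set z.set) (hl : h.hlen z.a z.b ≤ h.hlen y.a y.b) :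
    y.a ≠ z.a ∧ y.b ≠ z.b ∧ ¬ h.Covers y z ∧ ¬ h.Covers z y := by
  have key : ∀ i, i ≤ z.n → ∀ x ∈ D, ¬ G.Adj (z.f i) x := fun i hi x hx e =>
    Set.disjoint_left.1 hd (apply_mem_seg (Nat.zero_le _) hi) (hW.nb D _ (hz.out i hi) ⟨x, hx, e⟩)
  have n1 : y.a ≠ z.a := fun e => key 0 (Nat.zero_le _) _ aD (e ▸ hz.ea)
  refine ⟨n1, fun e => key z.n le_rfl _ bD (e ▸ hz.eb), ?_, ?_⟩
  · rintro ⟨t0, z0, c1, c2, x₁, m1, x₂, m2, x₃, m3, a12, a13, a23, e1, e2, e3⟩
    have hp := h.hpath_isIP hy.aH hy.bH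
    have pH : ∀ i, i ≤ h.hlen y.a y.b → h.hpath y.a y.b i ∈ HH S I := fun _ =>
      h.hpath_mem hy.aH hy.bH
    have p0 := h.hpath_zero hy.aH hy.bH
    have pn := h.hpath_hlen hy.aH hy.bH
    obtain ⟨j, hj, ej, jL, jR⟩ := side_index hs hp pH (by rw [p0]; exact ya) (by rw [pn]; exact yb)
    have j0 := jL 0 (Nat.zero_le _) (by rw [p0]; exact ya)
    have jn := jR _ le_rfl (by rw [pn]; exact yb)
    have tm : y.f 0 ∈ y.set := apply_mem_seg le_rfl (Nat.zero_le _)
    have zm : z.f 0 ∈ z.set := apply_mem_seg le_rfl (Nat.zero_le _)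
    have tH := hy.out 0 (Nat.zero_le _)
    refine Set.disjoint_left.1 hd zm (hW.hub D (h.hpath y.a y.b) (h.hlen y.a y.b) 0
      (h.hlen y.a y.b) j {y.f 0} (z.f 0) hD hp pH (by rw [p0]; exact aD) (by rw [pn]; exact bD) (by omega) le_rfl
      (conn_singleton _) ?_ (fun e => tH (e ▸ pH 0 (Nat.zero_le _))) (fun e => tH (e ▸ pH _ le_rfl))
      ⟨_, rfl, by rw [p0]; exact hy.ea.symm⟩ ⟨_, rfl, by rw [pn, ← t0]; exact hy.eb.symm⟩
      (hz.out 0 (Nat.zero_le _)) (hA.symm.mono (Set.singleton_subset_iff.2 zm)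
        (Set.singleton_subset_iff.2 tm)) ?_ ?_ hj (ej ▸ uD) (ej ▸ hs.white)
      (by rw [ej]; exact key 0 (Nat.zero_le _) u uD) ?_ ?_)
    · rintro _ rfl _ ⟨k, k1, k2, rfl⟩
      refine ⟨fun e => tH (e ▸ pH k (by omega)), fun e => ?_⟩
      rcases hy.nbr 0 (Nat.zero_le _) _ (pH k (by omega)) e with ⟨-, -, e'⟩ | ⟨-, -, e'⟩
      · have := (h.hpath_of_seg' hp pH (show k ≤ h.hlen y.a y.b by omega) le_rfl).2.2
        rw [pn] at this
        rw [this] at e'
        have := (hp.mem_seg_iff (k := 0) le_rfl (Nat.zero_le _)).1 (by rw [p0]; exact e')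
        omega
      · have := (h.hpath_of_seg hp pH (Nat.zero_le k) (show k ≤ h.hlen y.a y.b by omega)).2.2
        rw [p0] at this
        rw [this] at e'
        have := (hp.mem_seg_iff (i := 0) (j := k) (k := h.hlen y.a y.b) (by omega) le_rfl).1
          (by rw [pn]; exact e')
        omega
    · intro i hi e
      constructor
      · by_contra h0
        obtain rfl : i = 0 := by omega
        exact key 0 (Nat.zero_le _) _ aD (p0 ▸ e)
      · by_contra h0
        obtain rfl : i = h.hlen y.a y.b := by omega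
        exact key 0 (Nat.zero_le _) _ bD (by rw [pn] at e; exact e)
    · obtain ⟨i₁, l1, rfl⟩ := h.mem_hseg.1 m1
      obtain ⟨i₂, l2, rfl⟩ := h.mem_hseg.1 m2
      obtain ⟨i₃, l3, rfl⟩ := h.mem_hseg.1 m3
      have gap : ∀ i k, i ≤ h.hlen y.a y.b → k ≤ h.hlen y.a y.b →
          Anti G {h.hpath y.a y.b i} {h.hpath y.a y.b k} → i + 2 ≤ k ∨ k + 2 ≤ i := by
        intro i k hi hk ha
        obtain ⟨b1, b2⟩ := anti_singleton_singleton.1 ha
        have b3 : i ≠ k := fun e => b1 (by rw [e])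
        rw [hp.adj_iff hi hk] at b2
        omega
      rcases gap _ _ l1 l2 a12 with g1 | g1 <;> rcases gap _ _ l1 l3 a13 with g2 | g2 <;>
        rcases gap _ _ l2 l3 a23 with g3 | g3
      · exact ⟨_, _, _, g1, g3, l3, e1, e2, e3⟩
      · exact ⟨_, _, _, g2, g3, l2, e1, e3, e2⟩
      · omega
      · exact ⟨_, _, _, g2, g1, l2, e3, e1, e2⟩
      · exact ⟨_, _, _, g1, g2, l3, e2, e1, e3⟩
      · omega
      · exact ⟨_, _, _, g3, g2, l1, e2, e3, e1⟩
      · exact ⟨_, _, _, g3, g1, l1, e3, e2, e1⟩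
    · obtain ⟨i, l1, e⟩ := h.mem_hseg.1 c1
      exact ⟨i, jL i l1 (e ▸ za), e ▸ hz.ea⟩
    · obtain ⟨i, l1, e⟩ := h.mem_hseg.1 c2
      exact ⟨i, jR i l1 (e ▸ zb), l1, by rw [e, ← z0]; exact hz.eb⟩
  · rintro ⟨-, -, c1, c2, -⟩
    have := len_lt hz.aH hz.bH c1 c2 n1 fun e => hs.anti.notMem ya (e ▸ zb)
    omega

theorem apart_image {h : Setup G S I} {ι : Type} {s : Finset ι} {F : ι → Ear V}
    [DecidableEq (Ear V)] (hF : h.Apart s F) :
    h.Apart (s.image F) id ∧ (s.image F).card = s.card := by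
  refine ⟨⟨fun y hy => ?_, fun y hy z hz hne => ?_⟩, Finset.card_image_of_injOn ?_⟩
  · obtain ⟨i, hi, rfl⟩ := Finset.mem_image.1 hy
    exact hF.1 i hi
  · obtain ⟨i, hi, rfl⟩ := Finset.mem_image.1 hy
    obtain ⟨j, hj, rfl⟩ := Finset.mem_image.1 hz
    exact hF.2 i hi j hj fun e => hne (by rw [e])
  · intro i hi j hj e
    by_contra hne
    exact (hF.2 i hi j hj hne).notMem (apply_mem_seg le_rfl (Nat.zero_le _))
      (e ▸ apply_mem_seg le_rfl (Nat.zero_le _))

theorem apart_mono {h : Setup G S I} {ι : Type*} {s t : Finset ι} {F : ι → Ear V}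
    (hF : h.Apart s F) (ht : t ⊆ s) : h.Apart t F :=
  ⟨fun i hi => hF.1 i (ht hi), fun i hi j hj => hF.2 i (ht hi) j (ht hj)⟩

theorem hlen_le_card [Finite V] {h : Setup G S I} {a b : V} (ha : a ∈ HH S I) (hb : b ∈ HH S I) :
    h.hlen a b ≤ Nat.card V := by
  have := Nat.card_le_card_of_injective (fun i : Fin (h.hlen a b) => h.hpath a b i)
    fun i j e => Fin.ext ((h.hpath_isIP ha hb).inj i.2.le j.2.le e)
  simpa using this

end Cleanup

open Cleanup in
theorem cleanup [Finite V] {h : Setup G S I} {Wo : Finset V → Set V} (hW : WoOK G S I Wo) {u : V}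
    {L R : Set V} (hs : h.Sides u L R) {E : Ear V → Prop} (hE : ∀ F, E F → F.a ∈ L ∧ F.b ∈ R)
    {K : ℕ} (hK : h.NoGood E K) {D₀ : Finset V} (hD₀ : (D₀ : Set V) ⊆ HH S I) (hu : u ∈ D₀) :
    ∃ D : Finset V, D₀ ⊆ D ∧ (D : Set V) ⊆ HH S I ∧ D.card ≤ D₀.card + K * (2 * trL K) ∧
      h.Few (fun F => E F ∧ Disjoint F.set (Wo D)) (K * trL K) := by
  classical
  by_contra hno
  have key : ∀ j, j ≤ K → ∃ (D : Finset V) (T : ℕ → Finset (Ear V)) (l : ℕ), D₀ ⊆ D ∧
      (D : Set V) ⊆ HH S I ∧ D.card ≤ D₀.card + j * (2 * trL K) ∧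
      (∀ i, i < j → h.Apart (T i) id ∧ trL K ≤ (T i).card ∧
        ∀ y ∈ T i, E y ∧ y.a ∈ D ∧ y.b ∈ D ∧ l ≤ h.hlen y.a y.b) ∧
      (∀ i i', i < i' → i' < j → ∀ y ∈ T i, ∀ z ∈ T i', Anti G y.set z.set →
        y.a ≠ z.a ∧ y.b ≠ z.b ∧ ¬ h.Covers y z ∧ ¬ h.Covers z y) ∧
      ∀ s : Finset (Ear V), h.Apart s id →
        (∀ y ∈ s, E y ∧ Disjoint y.set (Wo D) ∧ l < h.hlen y.a y.b) → s.card ≤ j * trL K := by
    intro j
    induction j with
    | zero =>
      intro _
      refine ⟨D₀, fun _ => ∅, Nat.card V, le_rfl, hD₀, by omega, by omega, by omega, ?_⟩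
      intro s hs' hy
      rw [Nat.zero_mul, Nat.le_zero, Finset.card_eq_zero, Finset.eq_empty_iff_forall_notMem]
      intro y hy'
      have := hlen_le_card (h := h) (hs'.1 y hy').aH (hs'.1 y hy').bH
      have := (hy y hy').2.2
      simp only [id] at *
      omega
    | succ j ih =>
      intro hj
      obtain ⟨D, T, l, d1, d2, d3, d4, d5, d6⟩ := ih (by omega)
      have hjK : (j + 1) * trL K ≤ K * trL K := Nat.mul_le_mul_right _ hj
      have hjK' : j * (2 * trL K) ≤ K * (2 * trL K) := Nat.mul_le_mul_right _ (by omega)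
      have ex : ∃ s : Finset (Ear V), h.Apart s id ∧ (j + 1) * trL K < s.card ∧
          ∀ y ∈ s, E y ∧ Disjoint y.set (Wo D) ∧ 0 ≤ h.hlen y.a y.b := by
        by_contra hn
        refine hno ⟨D, d1, d2, by omega, fun ι s F hF hF' => ?_⟩
        by_contra hlt
        obtain ⟨a1, a2⟩ := apart_image hF
        refine hn ⟨s.image F, a1, by omega, fun y hy => ?_⟩
        obtain ⟨i, hi, rfl⟩ := Finset.mem_image.1 hy
        exact ⟨(hF' i hi).1, (hF' i hi).2, Nat.zero_le _⟩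
      obtain ⟨-, l', -, b1, -, ⟨Y, y1, y2, y3⟩, -, b2⟩ := exists_first_last
        (p := fun m => ∃ s : Finset (Ear V), h.Apart s id ∧ (j + 1) * trL K < s.card ∧
          ∀ y ∈ s, E y ∧ Disjoint y.set (Wo D) ∧ m ≤ h.hlen y.a y.b) (n := l)
        ⟨0, Nat.zero_le _, ex⟩
      have c1 := d6 (Y.filter fun y => ¬ h.hlen y.a y.b ≤ l)
        (apart_mono y1 (Finset.filter_subset _ _)) fun y hy => by
          obtain ⟨k1, k2⟩ := Finset.mem_filter.1 hy
          exact ⟨(y3 y k1).1, (y3 y k1).2.1, not_le.1 k2⟩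
      have c2 := Finset.card_filter_add_card_filter_not (s := Y) fun y => h.hlen y.a y.b ≤ l
      rw [Nat.succ_mul] at y2
      obtain ⟨T', t1, t2⟩ := Finset.exists_subset_card_eq
        (show trL K ≤ (Y.filter fun y => h.hlen y.a y.b ≤ l).card by omega)
      have tY : T' ⊆ Y := t1.trans (Finset.filter_subset _ _)
      have sD : D ⊆ D ∪ (T'.image Ear.a ∪ T'.image Ear.b) := Finset.subset_union_left
      refine ⟨D ∪ (T'.image Ear.a ∪ T'.image Ear.b), Function.update T j T', l', d1.trans sD, ?_, ?_,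
        fun i hi => ?_, fun i i' h1 h2 y hy z hz => ?_, fun s hs' hy => ?_⟩
      · intro x hx
        rcases Finset.mem_union.1 hx with e | e
        · exact d2 e
        rcases Finset.mem_union.1 e with e | e
        · obtain ⟨y, hy, rfl⟩ := Finset.mem_image.1 e
          exact (y1.1 y (tY hy)).aH
        · obtain ⟨y, hy, rfl⟩ := Finset.mem_image.1 e
          exact (y1.1 y (tY hy)).bH
      · have e1 := Finset.card_union_le D (T'.image Ear.a ∪ T'.image Ear.b)
        have e2 := Finset.card_union_le (T'.image Ear.a) (T'.image Ear.b)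
        have e3 := Finset.card_image_le (s := T') (f := Ear.a)
        have e4 := Finset.card_image_le (s := T') (f := Ear.b)
        rw [Nat.succ_mul]
        omega
      · by_cases e : i = j
        · subst e
          rw [Function.update_self]
          exact ⟨apart_mono y1 tY, t2.ge, fun y hy => ⟨(y3 y (tY hy)).1,
            Finset.mem_union_right _ (Finset.mem_union_left _ (Finset.mem_image_of_mem _ hy)),
            Finset.mem_union_right _ (Finset.mem_union_right _ (Finset.mem_image_of_mem _ hy)),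
            (y3 y (tY hy)).2.2⟩⟩
        · rw [Function.update_of_ne e]
          obtain ⟨k1, k2, k3⟩ := d4 i (by omega)
          exact ⟨k1, k2, fun y hy => ⟨(k3 y hy).1, sD (k3 y hy).2.1, sD (k3 y hy).2.2.1,
            b1.trans (k3 y hy).2.2.2⟩⟩
      · rw [Function.update_of_ne (by omega)] at hy
        by_cases e : i' = j
        · subst e
          rw [Function.update_self] at hz
          obtain ⟨k1, -, k3⟩ := d4 i h1
          obtain ⟨m1, m2, m3, m4⟩ := k3 y hy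
          obtain ⟨n1, n2, -⟩ := y3 z (tY hz)
          exact fun hA => compat hW hs d2 (d1 hu) (k1.1 y hy) (y1.1 z (tY hz)) (hE y m1).1
            (hE y m1).2 (hE z n1).1 (hE z n1).2 m2 m3 n2 hA
            ((Finset.mem_filter.1 (t1 hz)).2.trans m4)
        · rw [Function.update_of_ne e] at hz
          exact d5 i i' h1 (by omega) y hy z hz
      · by_contra hlt
        have k1 : ∀ y ∈ s, E y ∧ Disjoint y.set (Wo D) ∧ l' + 1 ≤ h.hlen y.a y.b := fun y hy' =>
          ⟨(hy y hy').1, (hy y hy').2.1.mono_right (hW.mono sD), (hy y hy').2.2⟩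
        by_cases e : l' + 1 ≤ l
        · exact b2 (l' + 1) (by omega) e ⟨s, hs', not_le.1 hlt, k1⟩
        · have := d6 s hs' fun y hy' => ⟨(k1 y hy').1, (k1 y hy').2.1, by
            have := (k1 y hy').2.2
            omega⟩
          rw [Nat.succ_mul] at hlt
          omega
  obtain ⟨D, T, l, -, -, -, d4, d5, -⟩ := key K le_rfl
  have : Nonempty (Ear V) := ⟨⟨fun _ => u, 0, u, u⟩⟩
  obtain ⟨c, c1, c2⟩ := tr_main k3Stmt h.ehf (Finset.range K) T (fun _ y => y.set) fun k hk => by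
    obtain ⟨k1, k2, -⟩ := d4 k (Finset.mem_range.1 hk)
    exact ⟨⟨fun y hy => (k1.1 y hy).ip.conn_seg (Nat.zero_le _) le_rfl, k1.2⟩,
      by rw [Finset.card_range]; exact k2⟩
  have := hK ℕ (Finset.range K) c ⟨⟨fun i hi => (d4 i (Finset.mem_range.1 hi)).1.1 _ (c1 i hi),
    c2.2⟩, fun i hi i' hi' hne => ?_⟩ fun i hi =>
    ((d4 i (Finset.mem_range.1 hi)).2.2 _ (c1 i hi)).1
  · simp at this
  rcases lt_or_gt_of_ne hne with e | e
  · obtain ⟨k1, k2, k3, -⟩ := d5 i i' e (Finset.mem_range.1 hi') _ (c1 i hi) _ (c1 i' hi')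
      (c2.2 i hi i' hi' hne)
    exact ⟨k1, k2, k3⟩
  · obtain ⟨k1, k2, -, k4⟩ := d5 i' i e (Finset.mem_range.1 hi) _ (c1 i' hi') _ (c1 i hi)
      (c2.2 i' hi' i hi hne.symm)
    exact ⟨k1.symm, k2.symm, k4⟩

end Pool.Agent.Ehf
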