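import Pool.Agent.MP_3ad207_lc.H43.LinSpec
import Pool.Agent.MP_3ad207_lc.H6.Cleanup

/-! CLEANUP in the form of the interface. -/

set_option autoImplicit false

namespace Pool.Agent.Ehf

theorem cleanupStmt : CleanupStmt := by
  intro K
  refine ⟨K * (2 * trL K), K * trL K, fun V _ G S I h Wo hW u L R E D₀ hs hE hK hD hu => ?_⟩
  obtain ⟨D, d1, d2, d3, d4⟩ := cleanup hW hs hE hK hD hu
  exact ⟨D, d1, d2, d3, fun ι s F hF hF' => d4 ι s F hF fun i hi =>
    ⟨(hF' i hi).1, Set.subset_compl_iff_disjoint_right.1 (hF' i hi).2⟩⟩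

end Pool.Agent.Ehf
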