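import Pool.Agent.MP_3ad207_lc.H43.LinSpec
import Pool.Agent.MP_3ad207_lc.H82.Sub

/-! Ears exist (TOP), and the tops of two anticomplete ears are comparable on one side (CMP). -/

set_option autoImplicit false

namespace Pool.Agent.Ehf

variable {V : Type} {G : SimpleGraph V} {S I : Set V}

theorem ear_top [Finite V] {h : Setup G S I} {u : V} {L R : Set V} (s : h.Sides u L R) {f : ℕ → V}
    {n : ℕ} (hf : IsIP G f n) (fH : ∀ i, i ≤ n → f i ∉ HH S I) (f0 : Sees G (f 0) L)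
    (fn : Sees G (f n) R) (fL : ∀ i, 0 < i → i ≤ n → f i ∉ cN G L) :
    ∃ a ∈ L, G.Adj (f 0) a ∧ ∀ x ∈ L, G.Adj (f 0) x → x ∈ h.Sub u a := by
  obtain ⟨a, ⟨a1, a2⟩, a3⟩ := Set.exists_min_image {x | x ∈ L ∧ G.Adj (f 0) x} (h.hlen u)
    (Set.toFinite _) f0
  refine ⟨a, a1, a2, fun x x1 x2 => ?_⟩
  by_contra hx
  obtain ⟨m, ca, cb, c1, c2, c3, c4, c5, c6, -⟩ := h.exists_fork s.uH (s.subset_H a1)
    (s.subset_H x1) (h.not_mem_sub_of_depth_le s.uH (a3 x ⟨x1, x2⟩) hx) hx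
  have mL : m ∈ L := s.hseg_subset a1 x1 c6
  have sub : ∀ c, h.Child u m c → h.Sub u c ⊆ L := fun c hc =>
    (hc.sub_subset s.uH).trans (s.subO_subset mL)
  have an : ∀ c, h.Child u m c → Anti G (h.Sub u c) ((HH S I \ h.Sub u m) ∪ seg f 1 n) :=
    fun c hc => (hc.anti_compl s.uH).union_right (Anti.symm (anti_iff.2 (by
      rintro _ ⟨k, k1, k2, rfl⟩ e
      exact fL k k1 k2 (cN_mono (sub c hc) e))))
  have RZ : R ⊆ HH S I \ h.Sub u m := fun y hy => ⟨s.symm.subset_H hy, s.not_mem_sub mL hy⟩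
  have cZ := h.conn_compl_sub s.uH (s.ne mL)
  have key : Conn G ((HH S I \ h.Sub u m) ∪ seg f 1 n) ∧
      f 0 ∈ cN G ((HH S I \ h.Sub u m) ∪ seg f 1 n) := by
    rcases Nat.eq_zero_or_pos n with rfl | hn
    · rw [seg_eq_empty (by omega), Set.union_empty]
      exact ⟨cZ, Or.inr (fn.mono RZ)⟩
    · exact ⟨cZ.un (hf.conn_seg hn le_rfl)
        (Touch.of_sees (apply_mem_seg hn le_rfl) (fn.mono RZ)).symm,
        Or.inr ⟨f 1, Or.inr (apply_mem_seg le_rfl hn), hf.adj_succ hn⟩⟩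
  refine h.ehf.theta (u := f 0) (v := m) (fun e => fH 0 (Nat.zero_le _) (e ▸ s.subset_H mL))
    (fun e => ?_) (h.conn_sub s.uH c1.mem_H) (h.conn_sub s.uH c2.mem_H) key.1
    (c1.anti s.uH c2 c3) (an ca c1) (an cb c2) (Or.inr ⟨a, c4, a2⟩) (Or.inr (c1.sees s.uH))
    (Or.inr ⟨x, c5, x2⟩) (Or.inr (c2.sees s.uH)) key.2
    (Or.inr ((h.sees_compl_sub s.uH (s.subset_H mL) (s.ne mL)).mono Set.subset_union_left))
  exact absurd (h.depth_lt s.uH (c1.sub_subset s.uH c4)) (not_lt.2 (a3 m ⟨mL, e⟩))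

theorem earOfStmt : EarOfStmt := by
  intro V _ G S I h u L R Y s hY hF tL tR
  obtain ⟨n, f, hf, fY, f0, fn, fL, fR⟩ := hY.extract tL tR s.anti
  have fH : ∀ i, i ≤ n → f i ∉ HH S I := fun i hi => (hF (fY i hi).1).1
  obtain ⟨a, a1, a2, a3⟩ := ear_top s hf fH f0 fn fL
  obtain ⟨b, b1, b2, b3⟩ := ear_top (f := fun i => f (n - i)) s.symm hf.rev
    (fun i _ => fH _ (Nat.sub_le _ _)) fn (by simpa using f0) fun i h0 hi => fR _ (by omega)
  refine ⟨⟨f, n, a, b⟩, ⟨hf, fH, s.subset_H a1, s.symm.subset_H b1, a2, b2, fun i hi x hx e => ?_⟩,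
    seg_subset fun k _ hk => (fY k hk).1, a1, b1⟩
  rcases s.mem_cases hx with rfl | k | k
  · exact ((hF (fY i hi).1).2 ⟨_, rfl, e⟩).elim
  · left
    obtain rfl : i = 0 := by
      by_contra hne
      exact fL i (by omega) hi (Or.inr ⟨x, k, e⟩)
    exact ⟨rfl, (s.sub_root_eq a1 b1).symm ▸ a3 x k e⟩
  · right
    obtain rfl : i = n := by
      by_contra hne
      exact fR i (lt_of_le_of_ne hi hne) (Or.inr ⟨x, k, e⟩)
    exact ⟨rfl, (s.symm.sub_root_eq b1 a1).symm ▸ b3 x k e⟩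

theorem cmpStmt : CmpStmt := by
  intro V _ G S I h u L R F F' s e1 e2 a1 b1 a2 b2 hA
  by_contra hn
  push Not at hn
  obtain ⟨⟨n1, n2⟩, n3, n4⟩ := hn
  obtain ⟨m, ca, ca', c1, c2, c3, c4, c5, c6, -⟩ := h.exists_fork s.uH e1.aH e2.aH n1 n2
  obtain ⟨m', cb, cb', d1, d2, d3, d4, d5, d6, -⟩ := h.exists_fork s.uH e1.bH e2.bH n3 n4
  have mL : m ∈ L := s.hseg_subset a1 a2 c6
  have mR : m' ∈ R := s.symm.hseg_subset b1 b2 d6
  have sL : ∀ c, h.Child u m c → h.Sub u c ⊆ L := fun c hc =>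
    (hc.sub_subset s.uH).trans (s.subO_subset mL)
  have sR : ∀ c, h.Child u m' c → h.Sub u c ⊆ R := fun c hc =>
    (hc.sub_subset s.uH).trans (s.symm.subO_subset mR)
  have key : ∀ (F : Ear V) (c d : V), h.IsEar F → F.a ∈ L → F.b ∈ R → h.Child u m c →
      h.Child u m' d → F.a ∈ h.Sub u c → F.b ∈ h.Sub u d →
      Conn G (h.Sub u c ∪ h.Sub u d ∪ F.set) ∧
      (∀ W, W ⊆ HH S I → Anti G (h.Sub u c ∪ h.Sub u d) W → Anti G F.set W) ∧
      Anti G (h.Sub u c ∪ h.Sub u d) (HH S I \ (h.Sub u m ∪ h.Sub u m')) := by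
    intro F c d e a b k1 k2 k3 k4
    refine ⟨?_, fun W w1 w2 => ?_, ?_⟩
    · rw [Set.union_right_comm]
      exact ((h.conn_sub s.uH k1.mem_H).un (e.ip.conn_seg (Nat.zero_le _) le_rfl)
        (Touch.of_adj k3 (apply_mem_seg le_rfl (Nat.zero_le _)) e.ea.symm)).un
        (h.conn_sub s.uH k2.mem_H)
        (Touch.of_adj (Or.inr (apply_mem_seg (Nat.zero_le _) le_rfl)) k4 e.eb)
    · rintro _ ⟨i, -, hi, rfl⟩ x hx
      refine ⟨fun e' => e.out i hi (e' ▸ w1 hx), fun e' => ?_⟩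
      rcases e.nbr i hi x (w1 hx) e' with ⟨-, k⟩ | ⟨-, k⟩
      · rw [s.sub_root_eq a b] at k
        exact w2.notMem (Or.inl (h.sub_trans s.uH k3 k)) hx
      · rw [s.symm.sub_root_eq b a] at k
        exact w2.notMem (Or.inr (h.sub_trans s.uH k4 k)) hx
    · exact ((k1.anti_compl s.uH).mono le_rfl fun x hx => ⟨hx.1, fun e => hx.2 (Or.inl e)⟩).union_left
        ((k2.anti_compl s.uH).mono le_rfl fun x hx => ⟨hx.1, fun e => hx.2 (Or.inr e)⟩)
  obtain ⟨p1, p2, p3⟩ := key F ca cb e1 a1 b1 c1 d1 c4 d4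
  obtain ⟨q1, q2, q3⟩ := key F' ca' cb' e2 a2 b2 c2 d2 c5 d5
  have TT : Anti G (h.Sub u ca ∪ h.Sub u cb) (h.Sub u ca' ∪ h.Sub u cb') :=
    ((c1.anti s.uH c2 c3).union_right (s.anti.mono (sL _ c1) (sR _ d2))).union_left
      ((s.anti.mono (sL _ c2) (sR _ d1)).symm.union_right (d1.anti s.uH d2 d3))
  have TH : ∀ c d, h.Sub u c ∪ h.Sub u d ⊆ HH S I := fun c d =>
    Set.union_subset h.sub_subset_H h.sub_subset_H
  refine h.ehf.theta (u := m) (v := m') (s.anti.ne mL mR) (s.anti.not_adj mL mR) p1 q1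
    (h.conn_compl_sub_two s.uH (s.ne mL) (s.symm.ne mR))
    ((TT.union_right (q2 _ (TH _ _) TT.symm).symm).union_left ((p2 _ (TH _ _) TT).union_right hA))
    (p3.union_left (p2 _ Set.sdiff_subset p3)) (q3.union_left (q2 _ Set.sdiff_subset q3))
    (Or.inr ((c1.sees s.uH).mono fun x hx => Or.inl (Or.inl hx)))
    (Or.inr ((d1.sees s.uH).mono fun x hx => Or.inl (Or.inr hx)))
    (Or.inr ((c2.sees s.uH).mono fun x hx => Or.inl (Or.inl hx)))
    (Or.inr ((d2.sees s.uH).mono fun x hx => Or.inl (Or.inr hx))) (Or.inr ?_) (Or.inr ?_)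
  · obtain ⟨y, hy, e⟩ := h.sees_compl_sub s.uH (s.subset_H mL) (s.ne mL)
    exact ⟨y, ⟨hy.1, fun k => k.elim hy.2 fun k' =>
      s.anti.not_adj mL (s.symm.sub_subset mR k') e⟩, e⟩
  · obtain ⟨y, hy, e⟩ := h.sees_compl_sub s.uH (s.symm.subset_H mR) (s.symm.ne mR)
    exact ⟨y, ⟨hy.1, fun k => k.elim (fun k' =>
      s.anti.not_adj (s.sub_subset mL k') mR e.symm) hy.2⟩, e⟩

end Pool.Agent.Ehf
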