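import Pool.Agent.MP_3ad207_lc.H6.Bal
import Pool.Agent.MP_3ad207_lc.H82.Wall

/-! FLIP: from the gate theorem to a thin cut with many marks on both sides. -/

set_option autoImplicit false

namespace Pool.Agent.Ehf

variable {V : Type} {G : SimpleGraph V} {S I : Set V}

namespace Flip

theorem hc_anti {D D' : Finset V} (h : D ⊆ D') : HC G S I D' ⊆ HC G S I D :=
  fun _ hx => ⟨hx.1, fun e => hx.2.1 (h e), fun y hy => hx.2.2 y (h hy)⟩

open Classical in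
theorem lost (h : Setup G S I) {M D : Finset V} {a c : ℕ} (hM : (M : Set V) ⊆ HH S I)
    (hno : h.NoStar M a) (hc : D.card ≤ c) :
    (M.filter fun y => y ∉ HC G S I D).card ≤ c * (a + 1) := by
  have h1 : (M.filter fun y => y ∉ HC G S I D) ⊆
      D.biUnion fun x => insert x (M.filter fun y => x ∈ I \ S ∧ G.Adj y x) := by
    intro y hy
    obtain ⟨y1, y2⟩ := Finset.mem_filter.1 hy
    by_cases e : y ∈ D
    · exact Finset.mem_biUnion.2 ⟨y, e, Finset.mem_insert_self _ _⟩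
    · by_contra hn
      exact y2 ⟨hM y1, e, fun x hx hb e' => hn (Finset.mem_biUnion.2 ⟨x, hx,
        Finset.mem_insert_of_mem (Finset.mem_filter.2 ⟨y1, hb, e'⟩)⟩)⟩
  refine (Finset.card_le_card h1).trans ((Finset.card_biUnion_le_card_mul _ _ (a + 1) ?_).trans
    (Nat.mul_le_mul_right _ hc))
  intro x _
  refine (Finset.card_insert_le _ _).trans (Nat.succ_le_succ ?_)
  by_cases hx : x ∈ I \ S
  · refine (hno x hx _ (Finset.filter_subset _ _) id (fun y hy => ?_) (Set.injOn_id _)).le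
    obtain ⟨y1, -, y2⟩ := Finset.mem_filter.1 hy
    exact ⟨h.white_of_adj_black hx (hM y1) y2.symm, y2.symm,
      mem_comp_self (Setup.nbr_mem_diff (hM y1) y2.symm)⟩
  · rw [Finset.filter_false_of_mem fun y _ e => hx e.1]
    exact Nat.zero_le _

theorem mkCut (h : Setup G S I) {Wo : Finset V → Set V} {M D MA MB : Finset V} {X : Set V}
    {a c k m : ℕ} (hM : (M : Set V) ⊆ HH S I) (hno : h.NoStar M a) (hD : (D : Set V) ⊆ HH S I)
    (hc : D.card ≤ c) (hA : Anti G (HC G S I D ∩ X) (HC G S I D \ X))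
    (hN : NuLe G (HH S I ∪ Wo D)ᶜ (HC G S I D ∩ X) (HC G S I D \ X) k) (a1 : MA ⊆ M)
    (a2 : MB ⊆ M) (b1 : ∀ y ∈ MA, y ∈ X) (b2 : ∀ y ∈ MB, y ∉ X) (c1 : m + c * (a + 1) ≤ MA.card)
    (c2 : m + c * (a + 1) ≤ MB.card) : CutOf G S I Wo M m c k := by
  classical
  have hl := lost h hM hno hc
  have key : ∀ M' ⊆ M, m + c * (a + 1) ≤ M'.card →
      m ≤ (M'.filter fun y => y ∈ HC G S I D).card := by
    intro M' h1 h2
    have h3 := Finset.card_filter_add_card_filter_not (s := M') fun y => y ∈ HC G S I D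
    have h4 := Finset.card_le_card (Finset.filter_subset_filter (fun y => y ∉ HC G S I D) h1)
    omega
  have sA : ((MA.filter fun y => y ∈ HC G S I D : Finset V) : Set V) ⊆ HC G S I D ∩ X :=
    fun y hy => ⟨(Finset.mem_filter.1 hy).2, b1 y (Finset.mem_filter.1 hy).1⟩
  have sB : ((MB.filter fun y => y ∈ HC G S I D : Finset V) : Set V) ⊆ HC G S I D \ X :=
    fun y hy => ⟨(Finset.mem_filter.1 hy).2, b2 y (Finset.mem_filter.1 hy).1⟩
  exact ⟨D, _, _, _, _, hc, (Finset.filter_subset _ _).trans a1, (Finset.filter_subset _ _).trans a2,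
    key MA a1 c1, key MB a2 c2, hD, Set.inter_union_sdiff _ _, hA, fun y hy => Or.inl (sA hy),
    fun y hy => Or.inl (sB hy), hN.mono le_rfl le_rfl (Set.union_subset le_rfl sB) le_rfl,
    hN.symm.mono le_rfl le_rfl (Set.union_subset le_rfl sA) le_rfl⟩

theorem hseg_side {h : Setup G S I} {p : V} {A B : Set V} (hs : h.Sides p A B) {x : V}
    (hx : x ∈ A) : h.hseg p x \ {p} ⊆ A := by
  have pH := white_mem_HH hs.white
  have xH : x ∈ HH S I \ {p} := hs.cover ▸ Or.inl hx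
  rcases (h.conn_hseg_diff_left pH xH.1 fun e => xH.2 e.symm).subset_or hs.anti (by
    rw [hs.cover]
    exact fun y hy => ⟨h.hseg_subset_H pH xH.1 hy.1, hy.2⟩) with e | e
  · exact e
  · exact (hs.anti.notMem hx (e ⟨h.right_mem_hseg pH xH.1, xH.2⟩)).elim

theorem sides_symm {h : Setup G S I} {p : V} {A B : Set V} (hs : h.Sides p A B) :
    h.Sides p B A := ⟨hs.white, hs.cR, hs.cL, hs.anti.symm, (Set.union_comm _ _).trans hs.cover⟩

theorem not_sub {h : Setup G S I} {p : V} {A B : Set V} (hs : h.Sides p A B) {x y : V}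
    (hx : x ∈ A) (hy : y ∈ B) : x ∉ h.Sub p y := fun e =>
  hs.anti.notMem (hseg_side hs hx ⟨e.2, (show y ∈ HH S I \ {p} from hs.cover ▸ Or.inr hy).2⟩) hy

theorem exists_top {h : Setup G S I} {p : V} {A B : Set V} (hs : h.Sides p A B) :
    ∃ y ∈ A, A ⊆ h.Sub p y := by
  have pH := white_mem_HH hs.white
  have AH : ∀ x ∈ A, x ∈ HH S I \ {p} := fun x hx => hs.cover ▸ Or.inl hx
  have one : ∀ x ∈ A, h.hpath p x 1 ∈ h.hseg p x \ {p} ∧ G.Adj p (h.hpath p x 1) := fun x hx =>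
    ⟨h.hpath_one_mem pH (AH x hx).1 fun e => (AH x hx).2 e.symm,
      h.adj_hpath_one pH (AH x hx).1 fun e => (AH x hx).2 e.symm⟩
  obtain ⟨x₀, h0⟩ := hs.cL.nonempty
  refine ⟨h.hpath p x₀ 1, hseg_side hs h0 (one x₀ h0).1, fun x hx => ⟨(AH x hx).1, ?_⟩⟩
  rw [h.one_nbr hs.cL (fun y hy => (AH y hy).1) pH (fun e => (AH p e).2 rfl)
    (hseg_side hs h0 (one x₀ h0).1) (hseg_side hs hx (one x hx).1) (one x₀ h0).2 (one x hx).2]
  exact (one x hx).1.1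

theorem nuLe_three {U A B : Set V} {P Q : Set V → Prop} {k₁ k₂ k₃ : ℕ}
    (h1 : ∀ s : Finset (Set V), AFam G s id →
      (∀ Y ∈ s, (Y ⊆ U ∧ Touch G Y A ∧ Touch G Y B) ∧ P Y) → s.card ≤ k₁)
    (h2 : ∀ s : Finset (Set V), AFam G s id →
      (∀ Y ∈ s, (Y ⊆ U ∧ Touch G Y A ∧ Touch G Y B) ∧ Q Y) → s.card ≤ k₂)
    (h3 : ∀ s : Finset (Set V), AFam G s id →
      (∀ Y ∈ s, (Y ⊆ U ∧ Touch G Y A ∧ Touch G Y B) ∧ ¬ P Y ∧ ¬ Q Y) → s.card ≤ k₃) :
    NuLe G U A B (k₁ + k₂ + k₃) := by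
  classical
  intro s hs hT
  have f : ∀ (p : Set V → Prop) [DecidablePred p], AFam G (s.filter p) id := fun p _ => ⟨fun Y hY =>
    hs.1 Y (Finset.mem_filter.1 hY).1, fun Y hY Z hZ =>
    hs.2 Y (Finset.mem_filter.1 hY).1 Z (Finset.mem_filter.1 hZ).1⟩
  have a1 := h1 _ (f P) fun Y hY => ⟨hT Y (Finset.mem_filter.1 hY).1, (Finset.mem_filter.1 hY).2⟩
  have a2 := h2 _ (f Q) fun Y hY => ⟨hT Y (Finset.mem_filter.1 hY).1, (Finset.mem_filter.1 hY).2⟩
  have a3 := h3 _ (f fun Y => ¬ P Y ∧ ¬ Q Y) fun Y hY =>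
    ⟨hT Y (Finset.mem_filter.1 hY).1, (Finset.mem_filter.1 hY).2⟩
  have e1 : s ⊆ s.filter P ∪ s.filter Q ∪ s.filter fun Y => ¬ P Y ∧ ¬ Q Y := fun Y hY => by
    simp only [Finset.mem_union, Finset.mem_filter]
    tauto
  have e2 := (Finset.card_le_card e1).trans ((Finset.card_union_le _ _).trans
    (Nat.add_le_add_right (Finset.card_union_le _ _) _))
  omega

open Classical in
/-- the cut between two gates -/
theorem cut2 [Finite V] (hE : EarOfStmt) (h : Setup G S I) {Wo : Finset V → Set V}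
    (hW : WoOK G S I Wo) {p y y' : V} {A B In Out In' Out' : Set V} {C D C' D' M MA MB : Finset V}
    {cg kg c₀ k₀ a m : ℕ} (hs : h.Sides p A B) (g : h.Gate Wo p A B cg kg C D In Out y y')
    (c1 : C' ⊆ D') (c2 : (D' : Set V) ⊆ HH S I) (c3 : D'.card ≤ cg)
    (c4 : In' ∪ Out' = HC G S I C') (c5 : Anti G In' Out')
    (c6 : NuLe G (HH S I ∪ Wo D')ᶜ In' Out' kg)
    (hcl : ∀ D₀ : Finset V, (D₀ : Set V) ⊆ HH S I → p ∈ D₀ → ∃ D : Finset V, D₀ ⊆ D ∧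
      (D : Set V) ⊆ HH S I ∧ D.card ≤ D₀.card + c₀ ∧
      h.Few (fun F => ((F.a ∈ h.Sub p y ∧ F.b ∈ h.Sub p y' ∧ Anti G F.set ((C' : Set V) ∪ In')) ∧
        F.a ∈ A ∧ F.b ∈ B) ∧ F.set ⊆ (Wo D)ᶜ) k₀)
    (hM : (M : Set V) ⊆ HH S I) (hno : h.NoStar M a) (a1 : MA ⊆ M) (a2 : MB ⊆ M)
    (a3 : (MA : Set V) ⊆ A) (a4 : (MB : Set V) ⊆ B)
    (a5 : 3 * (m + (2 * cg + c₀) * (a + 1)) + 2 * (cg * (a + 1)) ≤ MA.card)
    (a6 : 3 * (m + (2 * cg + c₀) * (a + 1)) + 2 * (cg * (a + 1)) ≤ MB.card)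
    (o1 : (M.filter fun x => x ∈ Out).card < m + (2 * cg + c₀) * (a + 1))
    (o2 : (M.filter fun x => x ∈ In').card < m + (2 * cg + c₀) * (a + 1)) :
    CutOf G S I Wo M m (2 * cg + c₀) (kg + kg + k₀) := by
  obtain ⟨D₂, d1, d2, d3, d4⟩ := hcl (D ∪ D') (by
    rw [Finset.coe_union]; exact Set.union_subset g.DH c2) (Finset.mem_union_left _ (g.CD g.pC))
  have s1 : D ⊆ D₂ := Finset.subset_union_left.trans d1
  have s2 : D' ⊆ D₂ := Finset.subset_union_right.trans d1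
  have e1 := Finset.card_union_le D D'
  have e2 := g.card
  have i1 : ∀ x ∈ HC G S I D₂, x ∈ In ∪ Out := fun x hx => g.cover ▸ hc_anti (g.CD.trans s1) hx
  have i2 : ∀ x ∈ HC G S I D₂, x ∈ In' ∪ Out' := fun x hx => c4 ▸ hc_anti (c1.trans s2) hx
  have i3 : ∀ x ∈ HC G S I D₂, x ∈ A ∪ B := fun x hx => by
    rw [hs.cover]
    exact ⟨hx.1, fun e => hx.2.1 (e ▸ s1 (g.CD g.pC))⟩
  have l1 := lost h hM hno ((Finset.card_le_card g.CD).trans g.card)
  have l2 := lost h hM hno ((Finset.card_le_card c1).trans c3)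
  have cnt : ∀ M' ⊆ M, 3 * (m + (2 * cg + c₀) * (a + 1)) + 2 * (cg * (a + 1)) ≤ M'.card →
      m + (2 * cg + c₀) * (a + 1) ≤ (M'.filter fun x => x ∈ In ∧ x ∈ Out').card := by
    intro M' h1 h2
    have k1 : M' ⊆ (M'.filter fun x => x ∈ In ∧ x ∈ Out') ∪ ((M.filter fun x => x ∈ Out) ∪
        ((M.filter fun x => x ∈ In') ∪ ((M.filter fun x => x ∉ HC G S I C) ∪
          M.filter fun x => x ∉ HC G S I C'))) := fun x hx => by
      simp only [Finset.mem_union, Finset.mem_filter, ← g.cover, ← c4, Set.mem_union]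
      have := h1 hx
      tauto
    have k2 := (Finset.card_le_card k1).trans ((Finset.card_union_le _ _).trans
      (Nat.add_le_add_left ((Finset.card_union_le _ _).trans (Nat.add_le_add_left
        ((Finset.card_union_le _ _).trans (Nat.add_le_add_left (Finset.card_union_le _ _) _)) _)) _))
    omega
  have u1 : (HH S I ∪ Wo D₂)ᶜ ⊆ (HH S I ∪ Wo D)ᶜ :=
    Set.compl_subset_compl.2 (Set.union_subset_union_right _ (hW.mono s1))
  have u2 : (HH S I ∪ Wo D₂)ᶜ ⊆ (HH S I ∪ Wo D')ᶜ :=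
    Set.compl_subset_compl.2 (Set.union_subset_union_right _ (hW.mono s2))
  refine mkCut h (X := In ∩ Out' ∩ A) (MA := MA.filter fun x => x ∈ In ∧ x ∈ Out')
    (MB := MB.filter fun x => x ∈ In ∧ x ∈ Out') hM hno d2 (by omega) ?_ ?_
    ((Finset.filter_subset _ _).trans a1) ((Finset.filter_subset _ _).trans a2)
    (fun x hx => ⟨(Finset.mem_filter.1 hx).2, a3 (Finset.mem_filter.1 hx).1⟩)
    (fun x hx e => hs.anti.notMem e.2 (a4 (Finset.mem_filter.1 hx).1)) (cnt MA a1 a5) (cnt MB a2 a6)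
  · rintro x ⟨x1, ⟨x2, x3⟩, x4⟩ z ⟨z1, z2⟩
    rcases i1 z z1 with k1 | k1
    · rcases i2 z z1 with k2 | k2
      · exact c5.symm x x3 z k2
      · rcases i3 z z1 with k3 | k3
        · exact (z2 ⟨⟨k1, k2⟩, k3⟩).elim
        · exact hs.anti x x4 z k3
    · exact g.anti x x2 z k1
  refine nuLe_three (P := fun Y => Touch G Y Out) (Q := fun Y => Touch G Y In')
    (fun s hs' hT => g.nu s hs' fun Y hY => ⟨(hT Y hY).1.1.trans u1,
      (hT Y hY).1.2.1.mono le_rfl fun x hx => hx.2.1.1, (hT Y hY).2⟩)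
    (fun s hs' hT => c6 s hs' fun Y hY => ⟨(hT Y hY).1.1.trans u2, (hT Y hY).2,
      (hT Y hY).1.2.1.mono le_rfl fun x hx => hx.2.1.2⟩) fun s hs' hT => ?_
  have nD : ∀ Y ∈ s, ∀ v ∈ Y, v ∉ HH S I ∧ ¬ Sees G v (D₂ : Set V) := fun Y hY v hv =>
    ⟨fun e => (hT Y hY).1.1 hv (Or.inl e), fun e => (hT Y hY).1.1 hv
      (Or.inr (hW.nb D₂ v (fun e => (hT Y hY).1.1 hv (Or.inl e)) e))⟩
  have ex : ∀ Y ∈ s, ∃ F : Ear V, h.IsEar F ∧ F.set ⊆ Y ∧ F.a ∈ A ∧ F.b ∈ B := by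
    intro Y hY
    refine hE V G S I h p A B Y hs (hs'.1 Y hY) (fun v hv => ⟨(nD Y hY v hv).1, fun e =>
      (nD Y hY v hv).2 (e.mono (Set.singleton_subset_iff.2 (s1 (g.CD g.pC))))⟩)
      ((hT Y hY).1.2.1.mono le_rfl fun x hx => hx.2.2) ?_
    obtain ⟨v, hv, z, ⟨z1, z2⟩, e⟩ := (hT Y hY).1.2.2
    refine ⟨v, hv, z, (i3 z z1).resolve_left fun k3 => z2 ⟨⟨?_, ?_⟩, k3⟩, e⟩
    · exact (i1 z z1).resolve_right fun k => (hT Y hY).2.1 ⟨v, hv, z, k, e⟩
    · exact (i2 z z1).resolve_left fun k => (hT Y hY).2.2 ⟨v, hv, z, k, e⟩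
  have : Nonempty (Ear V) := ⟨⟨fun _ => p, 0, p, p⟩⟩
  choose! F f1 f2 f3 f4 using ex
  refine d4 _ s F ⟨f1, fun Y hY Z hZ hne => (hs'.2 Y hY Z hZ hne).mono (f2 Y hY) (f2 Z hZ)⟩
    fun Y hY => ?_
  have ins : ∀ v ∈ Y, ∀ x ∈ HH S I, G.Adj v x → x ∈ h.Sub p y ∪ h.Sub p y' := fun v hv x hx e =>
    g.inside x hx (fun k => (nD Y hY v hv).2 ⟨x, s1 (g.CD k), e⟩)
      fun k => (hT Y hY).2.1 (Touch.of_adj hv k e)
  refine ⟨⟨⟨?_, ?_, Anti.union_right ?_ ((not_touch.1 (hT Y hY).2.2).mono (f2 Y hY) le_rfl)⟩,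
    f3 Y hY, f4 Y hY⟩, fun v hv e => (hT Y hY).1.1 (f2 Y hY hv) (Or.inr e)⟩
  · exact (ins _ (f2 Y hY (apply_mem_seg le_rfl (Nat.zero_le _))) _ (f1 Y hY).aH
      (f1 Y hY).ea).resolve_right (not_sub hs (f3 Y hY) g.yB)
  · exact (ins _ (f2 Y hY (apply_mem_seg (Nat.zero_le _) le_rfl)) _ (f1 Y hY).bH
      (f1 Y hY).eb).resolve_left (not_sub (sides_symm hs) (f4 Y hY) g.yA)
  · intro v hv x hx
    exact ⟨fun e => (nD Y hY v (f2 Y hY hv)).1 (e ▸ c2 (c1 hx)),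
      fun e => (nD Y hY v (f2 Y hY hv)).2 ⟨x, s2 (c1 hx), e⟩⟩

end Flip

open Flip in
theorem linStmt_of (hE : EarOfStmt) (hC : CleanStmt) (hG : GateStmt) : LinStmt := by
  classical
  obtain ⟨cg₀, kg, K₀, hG⟩ := hG
  obtain ⟨N₀, hC⟩ := hC 200
  obtain ⟨c₀, k₀, hU⟩ := cleanupStmt (max K₀ N₀)
  set cg := max cg₀ 1 with hcg
  refine ⟨fun m a => (a + 2) * (3 * (m + (2 * cg + c₀) * (a + 1) + 1) + 2 * (cg * (a + 1)) + 2),
    2 * cg + c₀, kg + kg + k₀, fun V _ G S I h Wo hW m a M hM hno hc => ?_⟩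
  refine CutOf.mono (Wo := Wo) (M := M) (c := 2 * cg + c₀) (k := kg + kg + k₀) ?_
    (fun _ => le_rfl) le_rfl le_rfl le_rfl
  suffices key : CutOf G S I Wo M (m + 1) (2 * cg + c₀) (kg + kg + k₀) by
    obtain ⟨D, MA, MB, A, B, h1, h2, h3, h4, h5, h6⟩ := key
    exact ⟨D, MA, MB, A, B, h1, h2, h3, by omega, by omega, h6⟩
  obtain ⟨p, A, B, MA, MB, hs, a1, a2, a3, a4, a5, a6⟩ := balStmt V G S I h M _ a hM hno hc
  have pH := white_mem_HH hs.white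
  have gm : ∀ {C D : Finset V} {In Out : Set V} {y y' : V},
      h.Gate Wo p A B cg₀ kg C D In Out y y' → h.Gate Wo p A B cg kg C D In Out y y' := fun g =>
    ⟨g.pC, g.CD, g.DH, g.card.trans (le_max_left _ _), g.yA, g.yB, g.cover, g.anti, g.inside, g.nu⟩
  have AH : ∀ x ∈ A ∪ B, x ∈ HH S I := fun x hx => by
    rw [hs.cover] at hx
    exact hx.1
  obtain ⟨y₀, y1, y2⟩ := exists_top hs
  obtain ⟨y₀', y3, y4⟩ := exists_top (sides_symm hs)
  have g0 : h.Gate Wo p A B cg kg {p} {p} (HC G S I {p}) ∅ y₀ y₀' := by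
    refine ⟨Finset.mem_singleton_self _, le_rfl, by simpa using pH, by simp [hcg], y1, y3,
      Set.union_empty _, anti_empty_right, fun x hx h1 _ => ?_,
      (nuLe_zero.2 fun Y _ _ _ e => ?_).mono le_rfl le_rfl le_rfl (Nat.zero_le _)⟩
    · have : x ∈ A ∪ B := by
        rw [hs.cover]
        exact ⟨hx, by simpa using h1⟩
      exact this.imp (fun e => y2 e) fun e => y4 e
    · obtain ⟨_, _, _, e', _⟩ := e
      exact e'
  have bd : ∀ y ∈ A, ∀ y' ∈ B, h.hlen p y + h.hlen p y' ≤ 2 * Nat.card V := fun y hy y' hy' => by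
    have := Cleanup.hlen_le_card (h := h) pH (AH y (Or.inl hy))
    have := Cleanup.hlen_le_card (h := h) pH (AH y' (Or.inr hy'))
    omega
  obtain ⟨-, φ, -, -, -, ⟨C, D, In, Out, y, y', g, o1, rfl⟩, -, hmax⟩ := exists_first_last
    (p := fun n => ∃ (C D : Finset V) (In Out : Set V) (y y' : V),
      h.Gate Wo p A B cg kg C D In Out y y' ∧
      (M.filter fun x => x ∈ Out).card < m + 1 + (2 * cg + c₀) * (a + 1) ∧
      h.hlen p y + h.hlen p y' = n) (n := 2 * Nat.card V)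
    ⟨_, bd y₀ y1 y₀' y3, _, _, _, _, y₀, y₀', g0, by simp, rfl⟩
  have cl : ∀ (E : Ear V → Prop) (K : ℕ), K ≤ max K₀ N₀ →
      h.NoGood (fun F => E F ∧ F.a ∈ A ∧ F.b ∈ B) K →
      ∀ D₀ : Finset V, (D₀ : Set V) ⊆ HH S I → p ∈ D₀ → ∃ D : Finset V, D₀ ⊆ D ∧
      (D : Set V) ⊆ HH S I ∧ D.card ≤ D₀.card + c₀ ∧
      h.Few (fun F => (E F ∧ F.a ∈ A ∧ F.b ∈ B) ∧ F.set ⊆ (Wo D)ᶜ) k₀ :=
    fun E K hK hN D₀ d1 d2 => hU V G S I h Wo hW p A B _ D₀ hs (fun F hF => hF.2)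
      (fun ι s F f1 f2 => (hN ι s F f1 f2).trans_le hK) d1 d2
  by_cases hcl : ∃ (n : ℕ) (F : ℕ → Ear V) (al be : ℕ → V), h.Clean p A B 200 F al be ∧
      (∀ i, i < 200 → (F i).a ∈ h.Sub p y ∧ (F i).b ∈ h.Sub p y') ∧
      h.hlen p (al 199) + h.hlen p (be 199) = n
  · obtain ⟨F, al, be, f1, f2, f3⟩ := Nat.find_spec hcl
    obtain ⟨C', D', In', Out', x, x', g', lt, ng⟩ := hG V G S I h Wo hW p y y' A B F al be hs g.yA
      g.yB ⟨f1, f2, fun F' al' be' k1 k2 => f3 ▸ Nat.find_min' hcl ⟨F', al', be', k1, k2, rfl⟩⟩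
    replace g' := gm g'
    have o2 : m + 1 + (2 * cg + c₀) * (a + 1) ≤ (M.filter fun x => x ∈ Out').card := by
      by_contra hlt
      exact hmax _ lt (bd x g'.yA x' g'.yB) ⟨C', D', In', Out', x, x', g', not_le.1 hlt, rfl⟩
    by_cases o3 : (M.filter fun x => x ∈ In').card < m + 1 + (2 * cg + c₀) * (a + 1)
    · exact cut2 hE h hW hs g g'.CD g'.DH g'.card g'.cover g'.anti g'.nu
        (cl _ K₀ (le_max_left _ _) fun ι s F k1 k2 => ng ι s F k1 fun i hi => (k2 i hi).1)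
        hM hno a1 a2 a3 a4 (by omega) (by omega) o1 o3
    · have sub : HC G S I D' \ In' ⊆ Out' := fun z hz =>
        (show z ∈ In' ∪ Out' from g'.cover ▸ hc_anti g'.CD hz.1).resolve_left hz.2
      exact mkCut h (X := In') hM hno g'.DH (by have := g'.card; omega)
        (g'.anti.mono Set.inter_subset_right sub)
        (g'.nu.mono le_rfl Set.inter_subset_right sub (by omega)) (Finset.filter_subset _ _)
        (Finset.filter_subset _ _) (fun z hz => (Finset.mem_filter.1 hz).2)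
        (fun z hz e => g'.anti.notMem e (Finset.mem_filter.1 hz).2) (not_lt.1 o3) o2
  · refine cut2 (C' := ∅) (D' := ∅) (In' := ∅) (Out' := HC G S I ∅) hE h hW hs g le_rfl (by simp)
      (by simp) (Set.empty_union _) anti_empty_left
      ((nuLe_zero.2 fun Y _ _ e _ => ?_).mono le_rfl le_rfl le_rfl (Nat.zero_le _))
      (cl _ N₀ (le_max_right _ _) fun ι s F k1 k2 => ?_) hM hno a1 a2 a3 a4 (by omega) (by omega)
      o1 (by simp)
    · obtain ⟨_, _, _, e', _⟩ := e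
      exact e'
    · by_contra hge
      obtain ⟨φ, al, be, m1, m2⟩ := hC V G S I h p A B ι s F hs k1 (fun i hi => (k2 i hi).2)
        (not_lt.1 hge)
      exact hcl ⟨_, _, al, be, m2, fun i hi => ⟨(k2 _ (m1 i hi)).1.1, (k2 _ (m1 i hi)).1.2.1⟩, rfl⟩

end Pool.Agent.Ehf
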