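import Pool.Agent.MP_3ad207_lc.H6.Retry

/-! The assembly: thin cuts give the table invariant for the whole tree. -/

set_option autoImplicit false

namespace Pool.Agent.Ehf

variable {V : Type} {G : SimpleGraph V} {S I : Set V} {C : CanSys G S}
variable {h q f d N : ℕ → ℕ} {c c' J k K : ℕ} (g : GSys G S I C h q c c' J) (T : RSys G S I C K)

/-- a state of large weight is reduced in one round to states of small weight -/
theorem GSys.big (hs : Setup G S I) (hEP : EPfor C f) (hK3 : K3for G) (hD : Diagfor G d)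
    (hW : Width G S I g.Wo N c k) (hc : 1 ≤ c) {w a r : ℕ}
    (hw : N (2 * (c + k)) + retryN d q N c c' J k J ≤ w) (ha : w + c + k + J * c' ≤ a)
    (hK : lev h f a + a ≤ K) {D : Finset V} {P : Set V} {ν : ℕ} (st : St G S I D P)
    (hN : g.Nu D P ν) (hb : D.card + ν ≤ w + c + k)
    (hsmall : ∀ (D₁ : Finset V) (P₁ : Set V) (ν : ℕ), St G S I D₁ P₁ → P₁ ⊆ P → g.Nu D₁ P₁ ν →
      D₁.card + ν ≤ w → T.R r P₁) : T.R (r + 1) P := by
  have hP : P ⊆ HH S I := st.inn.trans (HC_subset D)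
  obtain ⟨s, s1, s2, s3, s4⟩ := hN.exists_max
  by_cases h1 : D.card + s.card ≤ w
  · exact T.succ (hsmall D P _ st le_rfl s2 h1)
  by_cases h2 : N (2 * (c + k)) ≤ D.card
  · obtain ⟨D', MA, MB, A, B, c1, c2, c3, c4, c5, hcut⟩ := hW _ D st.sub h2
    have side : ∀ {A B : Set V} {MA MB : Finset V}, MB ⊆ D → 2 * (c + k) ≤ MB.card →
        Cut G S I (g.U D') D' A B MA MB k → T.R r (P ∩ A) := by
      intro A B MA MB c3 c5 hcut
      obtain ⟨D₁, e1, e2, e3, -, e5⟩ := exists_split_members D D' MB B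
      have st1 := st.split hcut.sub hcut.cover hcut.anti hcut.mb e1 e2 e3
      have := e5 c3
      exact hsmall D₁ _ _ st1 Set.inter_subset_left (g.nu_split st.sub hcut st1.sub e1 e3 hN)
        (by omega)
    exact g.reduce2 T hs hEP hK hP st Set.inter_subset_left (by omega)
      (hN.mono le_rfl le_rfl le_rfl (by omega)) hcut.sub (by omega) hcut.cover hcut.anti
      (hcut.nuB.mono le_rfl le_rfl Set.subset_union_left (by omega)) (side c3 c5 hcut)
      (side c2 c4 hcut.symm)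
  · exact g.retry T hs hEP hK3 hD hW hc ha hK hP hsmall J 0 D P ν ∅ s id id (by omega) st
      Set.inter_subset_left le_rfl (g.init D st.sub) hN (by omega) s3
      (fun i hi => ⟨s3.1 i hi, le_rfl, s4 i hi, by simp⟩) (by omega)

theorem GSys.all [Finite V] (hs : Setup G S I) (hEP : EPfor C f) (hK3 : K3for G)
    (hD : Diagfor G d) (hW : Width G S I g.Wo N c k) (hc : 1 ≤ c) {w a : ℕ}
    (hw : N (2 * (c + k)) + retryN d q N c c' J k J ≤ w) (ha : w + c + k + J * c' ≤ a)
    (ha' : N 1 ≤ a) (hK : lev h f a + a ≤ K) (n : ℕ) :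
    ∀ (D : Finset V) (P : Set V) (ν : ℕ), St G S I D P → g.Nu D P ν → P.ncard ≤ n →
      D.card + ν ≤ w → T.R (2 * n + 1) P := by
  induction n with
  | zero =>
    intro D P ν _ _ hn _
    rw [Nat.le_zero, Set.ncard_eq_zero] at hn
    rw [hn]
    exact T.succ T.zero
  | succ n ih =>
    intro D P ν st hN hn hw'
    have hP : P ⊆ HH S I := st.inn.trans (HC_subset D)
    obtain ⟨M, rfl⟩ := (Set.toFinite P).exists_finset_coe
    by_cases h1 : N 1 ≤ M.card
    swap
    · exact T.le (T.small hP (by unfold lev at hK; omega)) (by omega)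
    obtain ⟨D', MA, MB, A, B, c1, c2, c3, c4, c5, hcut⟩ := hW 1 M hP h1
    have side : ∀ {A B : Set V} {MA MB : Finset V}, MB ⊆ M → 1 ≤ MB.card →
        Cut G S I (g.U D') D' A B MA MB k → T.R (2 * n + 1 + 1) ((M : Set V) ∩ A) := by
      intro A B MA MB c3 c5 hcut
      obtain ⟨D₁, e1, e2, e3, e4, -⟩ := exists_split_members D D' MB B
      have st1 := st.split hcut.sub hcut.cover hcut.anti hcut.mb e1 e2 e3
      obtain ⟨p, hp⟩ := Finset.card_pos.1 c5
      have lt : ((M : Set V) ∩ A).ncard < (M : Set V).ncard :=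
        Set.ncard_lt_ncard ⟨Set.inter_subset_left, fun e =>
          (hcut.mb p hp).notMem hcut.anti (e (c3 hp)).2⟩
      refine g.big T hs hEP hK3 hD hW hc hw ha hK st1 (g.nu_split st.sub hcut st1.sub e1 e3 hN)
        (by omega) fun D₂ P₂ ν₂ st2 hP₂ n2 w2 => ih D₂ P₂ ν₂ st2 n2 ?_ w2
      have := Set.ncard_le_ncard hP₂
      omega
    exact g.reduce2 T hs hEP hK hP st Set.inter_subset_left (by omega)
      (hN.mono le_rfl le_rfl le_rfl (by omega)) hcut.sub (by omega) hcut.cover hcut.anti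
      (hcut.nuB.mono le_rfl le_rfl Set.subset_union_left (by omega)) (side c3 c5 hcut)
      (side c2 c4 hcut.symm)

theorem mainStmt (h1 : K3Stmt) (h2 : DiagStmt) (h3 : EPStmt) (h4 : StructStmt) : MainStmt := by
  obtain ⟨d, hd⟩ := h2
  obtain ⟨f, hf⟩ := h3
  obtain ⟨h, q, N, c, c', J, k, hc, H⟩ := h4
  set w := N (2 * (c + k)) + retryN d q N c c' J k J with hw
  set a := w + c + k + J * c' + N 1 with ha
  refine ⟨lev h f a + a, fun V _ G S I hs C T => ?_⟩
  obtain ⟨g, hW⟩ := H V G S I hs C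
  have st : St G S I ∅ (HH S I) := ⟨by simp, HC_empty.ge, by simp [HC_empty, anti_empty_right]⟩
  have n0 : g.Nu ∅ (HH S I) 0 := nuLe_zero.2 fun Y _ _ _ e => by
    obtain ⟨x, -, y, hy, -⟩ := e
    exact hy.2 hy.1.1
  refine T.succ (g.all T hs (hf V G hs.ehf S C) (h1 V G hs.ehf) (hd V G hs.ehf) hW hc le_rfl
    (a := a) (by omega) (by omega) le_rfl _ ∅ _ 0 st n0 ?_ (by simp))
  rw [← Nat.card_eq_fintype_card, ← Set.ncard_univ]
  exact Set.ncard_le_ncard (Set.subset_univ _)

end Pool.Agent.Ehf
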