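import Pool.Agent.MP_3ad207_lc.H6.Guard
import Pool.Agent.MP_3ad207_lc.H6.Main
import Pool.Agent.MP_3ad207_lc.H1.HubCover
import Pool.Agent.MP_3ad207_lc.H45.Move
import Pool.Agent.MP_3ad207_lc.H70.Side
import Pool.Agent.MP_3ad207_lc.H76.U3
import Pool.Agent.MP_3ad207_lc.H46.K3c
import Pool.Agent.MP_3ad207_lc.H41.T1
import Pool.Agent.MP_3ad207_lc.H88.EPu

/-! The guard system from the star cutset statements, and the main statement from WIDTH. -/

set_option autoImplicit false

namespace Pool.Agent.Ehf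

theorem guardStmt (h1 : SC1Stmt) (h2 : SC2Stmt) : GuardStmt :=
  guardStmt_of (woCover hubCoverStmt) moveUStmt moveXStmt treeFinalStmt pairRegStmt sameSideStmt
    h1 h2

theorem mainStmt_of_width (h1 : SC1Stmt) (h2 : SC2Stmt) (hW : WidthStmt) : MainStmt :=
  mainStmt k3Stmt (diagStmt k3Stmt) epStmt' (structStmt_of hW (guardStmt h1 h2))

end Pool.Agent.Ehf
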