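import Pool.Agent.MP_3ad207_lc.H43.LinBasic

/-! (POS, core): a door that few ears jump over. -/

set_option autoImplicit false

namespace Pool.Agent.Ehf

variable {V : Type} {G : SimpleGraph V} {S I : Set V}

namespace Pos0

theorem door_free {h : Setup G S I} {g x g' : V} (d : h.Door g x g') {F : Ear V} (e : h.IsEar F)
    (ha : F.a ∈ h.SubO x g') (hb : F.b ∈ h.SubO x g) :
    ∀ v ∈ F.set, ¬ G.Adj v g ∧ ¬ G.Adj v x ∧ ¬ G.Adj v g' := by
  have xH := black_mem_HH d.black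
  have c1 := h.child_root xH (white_mem_HH d.w1) d.a1
  have c2 := h.child_root xH (white_mem_HH d.w2) d.a2
  have an := c1.anti xH c2 d.ne
  have sa := h.sub_subset_subO xH ha
  have sb := h.sub_subset_subO xH hb
  have key : ∀ v ∈ F.set, ∀ z ∈ HH S I, G.Adj v z → z ∈ h.SubO x g' ∨ z ∈ h.SubO x g := by
    rintro _ ⟨i, -, hi, rfl⟩ z hz a
    rcases e.nbr i hi z hz a with ⟨-, k⟩ | ⟨-, k⟩
    · rw [h.sub_eq_of_root xH e.bH fun c => an.notMem hb.1 (sa c).1] at k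
      exact Or.inl (sa k)
    · rw [h.sub_eq_of_root xH e.aH fun c => an.notMem (sb c).1 ha.1] at k
      exact Or.inr (sb k)
  intro v hv
  refine ⟨fun a => ?_, fun a => ?_, fun a => ?_⟩
  · rcases key v hv g c1.mem_H a with k | k
    · exact an.notMem (h.self_mem_sub xH c1.mem_H) k.1
    · exact k.2 rfl
  · rcases key v hv x xH a with k | k
    · exact c2.not_mem xH k.1
    · exact c1.not_mem xH k.1
  · rcases key v hv g' c2.mem_H a with k | k
    · exact k.2 rfl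
    · exact an.notMem k.1 (h.self_mem_sub xH c2.mem_H)

theorem count_J {h : Setup G S I} {g oL : V} {L R Z : Set V} {n kJ : ℕ} {F : ℕ → Ear V}
    {al be : ℕ → V} (s : h.Sides g L R) (c : h.Clean g L R n F al be)
    (hZ : ∀ i, i < n → Anti G (F i).set Z)
    (f1 : h.Few (fun F => F.a ∈ h.SubO g oL ∧ F.b ∈ R ∧ Anti G F.set Z) kJ)
    [DecidablePred fun j => (F j).a ∈ h.Sub g oL] :
    ((Finset.range n).filter fun j => (F j).a ∈ h.Sub g oL).card ≤ kJ + 1 := by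
  obtain ⟨t, t1, t2, t3⟩ := (c.good.mono
    (Finset.filter_subset (fun j => (F j).a ∈ h.Sub g oL) _)).drop_a oL
  have m : ∀ j ∈ t, j < n := fun j hj => Finset.mem_range.1 (Finset.mem_filter.1 (t1 hj)).1
  have := f1 ℕ t F (c.apart m) fun j hj =>
    ⟨⟨(Finset.mem_filter.1 (t1 hj)).2, t3 j hj⟩, c.b_mem s (m j hj), hZ j (m j hj)⟩
  omega

theorem main [Finite V] (hB : BaseStmt) {E N₁ N₂ kJ n₁ : ℕ} (hn : 2 * kJ + E + 10 ≤ n₁)
    {h : Setup G S I}
    (hA : ∀ (u oL oR : V) (L R : Set V) (n : ℕ) (F : ℕ → Ear V) (al be : ℕ → V) (J t : Finset ℕ)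
      (ρ : ℕ → Ear V), h.Sides u L R → h.Clean u L R n F al be → oL ∈ L → oR ∈ R →
      (∀ j ∈ J, j < n) → E ≤ J.card →
      (∀ j ∈ J, (F j).a ∉ h.Sub u oL ∧ (F j).b ∉ h.Sub u oR) → h.Apart t ρ → 14 ≤ t.card →
      (∀ k ∈ t, (ρ k).a ∈ h.Sub u oL ∧ (ρ k).b ∈ h.Sub u oR) → ∃ j ∈ J, oL ∈ h.Sub u (al j))
    (hC₁ : ∀ (u : V) (L R : Set V) (ι : Type) (s : Finset ι) (F : ι → Ear V), h.Sides u L R →
      h.Good s F → (∀ i ∈ s, (F i).a ∈ L ∧ (F i).b ∈ R) → N₁ ≤ s.card →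
      ∃ (φ : ℕ → ι) (al be : ℕ → V), (∀ i, i < n₁ → φ i ∈ s) ∧
        h.Clean u L R n₁ (fun i => F (φ i)) al be)
    (hC₂ : ∀ (u : V) (L R : Set V) (ι : Type) (s : Finset ι) (F : ι → Ear V), h.Sides u L R →
      h.Good s F → (∀ i ∈ s, (F i).a ∈ L ∧ (F i).b ∈ R) → N₂ ≤ s.card →
      ∃ (φ : ℕ → ι) (al be : ℕ → V), (∀ i, i < N₁ + 52 → φ i ∈ s) ∧
        h.Clean u L R (N₁ + 52) (fun i => F (φ i)) al be)
    {g oL oR y : V} {L R Z : Set V} {t : Finset ℕ} {ρ F : ℕ → Ear V} {al be : ℕ → V}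
    (s : h.Sides g L R) (o1 : oL ∈ L) (o2 : oR ∈ R) (r1 : h.Apart t ρ) (r2 : 14 ≤ t.card)
    (r3 : ∀ k ∈ t, (ρ k).a ∈ h.Sub g oL ∧ (ρ k).b ∈ h.Sub g oR)
    (f1 : h.Few (fun F => F.a ∈ h.SubO g oL ∧ F.b ∈ R ∧ Anti G F.set Z) kJ)
    (f2 : h.Few (fun F => F.a ∈ h.SubO g oR ∧ F.b ∈ L ∧ Anti G F.set Z) kJ)
    (c : h.Clean g L R n₁ F al be) (hZ : ∀ i, i < n₁ → Anti G (F i).set Z)
    (hmax : ∀ (F' : ℕ → Ear V) (al' be' : ℕ → V), h.Clean g L R n₁ F' al' be' →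
      (∀ i, i < n₁ → Anti G (F' i).set Z) →
      h.hlen g (al' 1) + h.hlen g (be' 1) ≤ h.hlen g (al 1) + h.hlen g (be 1))
    (hb : h.BaseAt g (F 1) (F 3).a y) :
    ∃ gL x gR, h.Door gL x gR ∧ x ∈ h.hseg oL oR ∧ oL ∈ h.Sub x gL ∧ oR ∈ h.Sub x gR ∧
      h.NoGood (fun F => F.a ∈ h.SubO x gL ∧ F.b ∈ h.SubO x gR ∧ Anti G F.set Z) N₂ := by
  classical
  obtain ⟨-, gin, x, gout, d, xL, ha1, x1, x2, x3, hη⟩ :=
    hB V G S I h g L R n₁ F al be 1 y s c (by omega) hb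
  have gH := s.uH
  have xH := black_mem_HH d.black
  have k1 := count_J s c hZ f1
  have k2 := count_J s.symm c.rev (fun i hi => by simpa using hZ i hi) f2
  obtain ⟨j, hj, oj⟩ := hA g oL oR L R n₁ F al be ((Finset.range n₁).filter fun j =>
      2 ≤ j ∧ (F j).a ∉ h.Sub g oL ∧ (F j).b ∉ h.Sub g oR) t ρ s c o1 o2
    (fun j hj => Finset.mem_range.1 (Finset.mem_filter.1 hj).1) (by
      have e1 : Finset.range n₁ ⊆ ((Finset.range n₁).filter fun j =>
          2 ≤ j ∧ (F j).a ∉ h.Sub g oL ∧ (F j).b ∉ h.Sub g oR) ∪ (Finset.range 2 ∪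
          (((Finset.range n₁).filter fun j => (F j).a ∈ h.Sub g oL) ∪
          (Finset.range n₁).filter fun j => (F j).rev.a ∈ h.Sub g oR)) := fun j hj => by
        simp only [Finset.mem_union, Finset.mem_filter, Finset.mem_range, Ear.rev_a] at hj ⊢
        by_cases e : j < 2
        · tauto
        · have : 2 ≤ j := by omega
          tauto
      have e2 := (Finset.card_le_card e1).trans ((Finset.card_union_le _ _).trans
        (Nat.add_le_add_left ((Finset.card_union_le _ _).trans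
          (Nat.add_le_add_left (Finset.card_union_le _ _) _)) _))
      simp only [Finset.card_range] at e2
      omega) (fun j hj => (Finset.mem_filter.1 hj).2.2) r1 r2 r3
  obtain ⟨j1, j2, -⟩ := Finset.mem_filter.1 hj
  have oo : oL ∈ h.Sub g gout := h.sub_trans gH x3
    (h.sub_trans gH (c.nl.desc_le s j2 (Finset.mem_range.1 j1)) oj)
  have co : h.Child g x gout := ⟨d.a2, x2⟩
  have ci : h.Child g gin x := ⟨d.a1.symm, x1⟩
  have oRH := s.symm.subset_H o2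
  have eo : h.SubO x gout = h.SubO g gout := h.subO_eq_of_root gH xH (co.not_mem gH)
  refine ⟨gout, x, gin, d.symm, ?_, by rw [co.sub_eq_root gH]; exact oo, by
    rw [← ci.compl_sub gH]; exact ⟨oRH, s.not_mem_sub xL o2⟩, fun ι s' F' gd hF' => ?_⟩
  · rw [← h.hseg_symm (s.subset_H o1) oRH]
    exact h.top_mem_hseg gH (h.sub_trans gH x2 oo) oRH (s.not_mem_sub xL o2)
  by_contra hge
  have an := (h.child_root xH (white_mem_HH d.w1) d.a1).anti xH
    (h.child_root xH (white_mem_HH d.w2) d.a2) d.ne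
  have so := h.sides_of_white xH d.w2 d.a2.ne'
  obtain ⟨φ, al', be', p1, p2⟩ := hC₂ gout _ _ ι s' F' so gd (fun i hi =>
    ⟨(hF' i hi).1, (hF' i hi).2.1.1.1, an.notMem (hF' i hi).2.1.1⟩) (not_lt.1 hge)
  have bR : be 1 ∈ R := c.nr.mem 1 (by omega)
  obtain ⟨de, d1, -, d3, d4⟩ := h.exists_black_anc gH (s.symm.subset_H bR) (s.symm.ne bR)
  have dg : de ≠ g := black_ne_white d1 s.white
  have dR : de ∈ R := s.symm.anc_mem bR d3 dg
  have ce := h.par_child gH (black_mem_HH d1) dg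
  set η := h.par g de with hηd
  have ηH : η ∈ HH S I := h.par_mem_H gH (black_mem_HH d1) dg
  have ηw : η ∈ S \ I := h.white_of_adj_black d1 ηH ce.adj.symm
  have ηR : η = g ∨ η ∈ R := by
    by_cases e : η = g
    · exact Or.inl e
    · exact Or.inr (s.symm.anc_mem dR ce.mem_sub e)
  have eη : h.SubO x η = h.Sub g de := by
    by_cases e : η = g
    · rw [e, ← s.symm.eq_subO xL]
      exact s.symm.eq_sub_of_adj dR (e ▸ ce.adj)
    · rw [s.symm.subO_root_eq (ηR.resolve_left e) xL, h.white_subO_eq gH ηw e ce]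
  have cl : ∀ i, i < N₁ + 52 → (F' (φ i)).a ∈ h.SubO x gout ∧ (F' (φ i)).b ∈ h.SubO x gin ∧
      Anti G (F' (φ i)).set Z := fun i hi => hF' _ (p1 i hi)
  have a1 : ((Finset.range (N₁ + 52)).filter fun i => Sees G η (F' (φ i)).set).card ≤ 1 :=
    Finset.card_le_one.2 fun i hi i' hi' => p2.once so
      (Finset.mem_range.1 (Finset.mem_filter.1 hi).1)
      (Finset.mem_range.1 (Finset.mem_filter.1 hi').1) ηH (Finset.mem_filter.1 hi).2
      (Finset.mem_filter.1 hi').2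
  have a2 : ((Finset.range (N₁ + 52)).filter fun i => ¬ Sees G η (F' (φ i)).set ∧
      (F' (φ i)).b ∉ h.Sub x η).card ≤ 51 := by
    by_cases e : η = gin
    · rw [Finset.filter_false_of_mem fun i hi k =>
        k.2 (e ▸ (cl i (Finset.mem_range.1 hi)).2.1.1)]
      exact Nat.zero_le _
    refine (hη η ηw ηR e (eη ▸ d3)).card_le (p2.apart fun i hi =>
      Finset.mem_range.1 (Finset.mem_filter.1 hi).1).afam fun i hi => ?_
    obtain ⟨i1, i2, i3⟩ := Finset.mem_filter.1 hi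
    have i4 := cl i (Finset.mem_range.1 i1)
    have er := p2.isEar (Finset.mem_range.1 i1)
    refine ⟨fun v hv => ⟨er.notMem v hv, ?_⟩, er.touch_a (eo ▸ i4.1), er.touch_b ⟨i4.2.1, i3⟩⟩
    obtain ⟨m1, m2, m3⟩ := door_free d er i4.1 i4.2.1 v hv
    rintro ⟨z, rfl | rfl | rfl | rfl, e'⟩
    · exact m1 e'
    · exact m2 e'
    · exact m3 e'
    · exact i2 ⟨v, hv, e'.symm⟩
  set A₃ := (Finset.range (N₁ + 52)).filter fun i => ¬ Sees G η (F' (φ i)).set ∧
    (F' (φ i)).b ∈ h.Sub x η with hA₃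
  have a3 : N₁ ≤ A₃.card := by
    have e1 : Finset.range (N₁ + 52) ⊆ A₃ ∪
        (((Finset.range (N₁ + 52)).filter fun i => Sees G η (F' (φ i)).set) ∪
        (Finset.range (N₁ + 52)).filter fun i => ¬ Sees G η (F' (φ i)).set ∧
          (F' (φ i)).b ∉ h.Sub x η) := fun i hi => by
      simp only [hA₃, Finset.mem_union, Finset.mem_filter]
      tauto
    have e2 := (Finset.card_le_card e1).trans ((Finset.card_union_le _ _).trans
      (Nat.add_le_add_left (Finset.card_union_le _ _) _))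
    rw [Finset.card_range] at e2
    omega
  have goL : gout ∈ L := s.sub_subset xL x2
  obtain ⟨cc, -, c1, c2⟩ := h.white_child gH d.w2 (s.ne goL)
  have m3 : ∀ i ∈ A₃, (F' (φ i)).a ∈ h.Sub g cc ∧ (F' (φ i)).b ∈ h.Sub g de ∧
      Anti G (F' (φ i)).set Z := by
    intro i hi
    obtain ⟨i1, i2, i3⟩ := Finset.mem_filter.1 hi
    have i4 := cl i (Finset.mem_range.1 i1)
    have er := p2.isEar (Finset.mem_range.1 i1)
    refine ⟨by rw [← c2, ← eo]; exact i4.1, ?_, i4.2.2⟩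
    rw [← eη]
    exact ⟨i3, fun e => i2 ⟨_, Ear.last_mem _, (Set.mem_singleton_iff.1 e ▸ er.eb).symm⟩⟩
  have cL : cc ∈ L := s.sub_subset goL c1.mem_sub
  obtain ⟨ψ, al₂, be₂, q1, q2⟩ := hC₁ g L R ℕ A₃ (fun i => F' (φ i)) s
    (p2.good.mono (Finset.filter_subset _ _))
    (fun i hi => ⟨s.sub_subset cL (m3 i hi).1, s.symm.sub_subset dR (m3 i hi).2.1⟩) a3
  have e1 := h.depth_le gH (q2.deep s Nat.zero_lt_one (by omega) (m3 _ (q1 0 (by omega))).1
    (m3 _ (q1 1 (by omega))).1)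
  have e2 := h.depth_le gH (q2.deep_b s Nat.zero_lt_one (by omega) (m3 _ (q1 0 (by omega))).2.1
    (m3 _ (q1 1 (by omega))).2.1)
  have e3 := hmax _ al₂ be₂ q2 fun i hi => (m3 _ (q1 i hi)).2.2
  have e4 := c1.depth gH
  have e5 := co.depth gH
  have e6 := ci.depth gH
  have e7 := h.depth_le gH (c.nl.top 1 (by omega))
  rcases ha1 with e | e <;> simp only [e] at e7 <;> omega

theorem hlen_le [Finite V] {h : Setup G S I} {a b : V} (ha : a ∈ HH S I) (hb : b ∈ HH S I) :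
    h.hlen a b ≤ Nat.card V := by
  have := Nat.card_le_card_of_injective (fun i : Fin (h.hlen a b) => h.hpath a b i)
    fun i j e => Fin.ext ((h.hpath_isIP ha hb).inj i.2.le j.2.le e)
  simpa using this

end Pos0

theorem pos0Stmt (hC : CleanStmt) (hT : TriStmt) (hB : BaseStmt) (hA : AlignStmt) : Pos0Stmt := by
  intro kJ
  obtain ⟨E, hA⟩ := hA
  obtain ⟨N₁, hC₁⟩ := hC (2 * kJ + E + 10)
  obtain ⟨N₂, hC₂⟩ := hC (N₁ + 52)
  refine ⟨max N₁ N₂, fun V _ G S I h g oL oR L R Z t ρ s o1 w1 o2 w2 r1 r2 r3 f1 f2 => ?_⟩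
  have gH := s.uH
  by_cases ex : ∃ (F : ℕ → Ear V) (al be : ℕ → V), h.Clean g L R (2 * kJ + E + 10) F al be ∧
      ∀ i, i < 2 * kJ + E + 10 → Anti G (F i).set Z
  swap
  · obtain ⟨x, hx, x1, xL, x2⟩ := s.exists_root
    have xH := black_mem_HH hx
    obtain ⟨gL, c1, c2⟩ := h.exists_child gH
      (show oL ∈ h.SubO g x from ⟨x2 ▸ o1, (black_ne_white hx w1).symm⟩)
    have oRH := s.symm.subset_H o2
    have eR := s.symm.eq_subO xL
    refine ⟨gL, x, g, ⟨hx, c1.white_of_black hx, s.white, c1.ne_root gH, c1.adj, x1.adj.symm⟩, ?_,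
      by rw [c1.sub_eq_root gH]; exact c2, (show oR ∈ h.SubO x g from eR ▸ o2).1,
      fun ι s' F' gd hF' => ?_⟩
    · rw [← h.hseg_symm (s.subset_H o1) oRH]
      exact h.top_mem_hseg gH (x2 ▸ o1) oRH (s.not_mem_sub xL o2)
    by_contra hge
    obtain ⟨φ, al, be, p1, p2⟩ := hC₁ V G S I h g L R ι s' F' s gd (fun i hi => ⟨by
      have := (hF' i hi).1.1
      rw [c1.sub_eq_root gH] at this
      exact s.sub_subset (s.sub_subset xL c1.mem_sub) this, eR ▸ (hF' i hi).2.1⟩)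
      ((le_max_left _ _).trans (not_lt.1 hge))
    exact ex ⟨_, al, be, p2, fun i hi => (hF' _ (p1 i hi)).2.2⟩
  have bd : ∀ (F : ℕ → Ear V) (al be : ℕ → V), h.Clean g L R (2 * kJ + E + 10) F al be →
      h.hlen g (al 1) + h.hlen g (be 1) ≤ 2 * Nat.card V := fun F al be c => by
    have := Pos0.hlen_le (h := h) gH (s.subset_H (c.nl.mem 1 (by omega)))
    have := Pos0.hlen_le (h := h) gH (s.symm.subset_H (c.nr.mem 1 (by omega)))
    omega
  obtain ⟨F₀, al₀, be₀, c₀, z₀⟩ := ex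
  obtain ⟨-, m, -, -, -, ⟨F, al, be, c, hZ, rfl⟩, -, hm⟩ := exists_first_last
    (p := fun n => ∃ (F : ℕ → Ear V) (al be : ℕ → V), h.Clean g L R (2 * kJ + E + 10) F al be ∧
      (∀ i, i < 2 * kJ + E + 10 → Anti G (F i).set Z) ∧ h.hlen g (al 1) + h.hlen g (be 1) = n)
    (n := 2 * Nat.card V) ⟨_, bd F₀ al₀ be₀ c₀, F₀, al₀, be₀, c₀, z₀, rfl⟩
  have hmax : ∀ (F' : ℕ → Ear V) (al' be' : ℕ → V), h.Clean g L R (2 * kJ + E + 10) F' al' be' →
      (∀ i, i < 2 * kJ + E + 10 → Anti G (F' i).set Z) →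
      h.hlen g (al' 1) + h.hlen g (be' 1) ≤ h.hlen g (al 1) + h.hlen g (be 1) :=
    fun F' al' be' c' z' => not_lt.1 fun e => hm _ e (bd F' al' be' c') ⟨F', al', be', c', z', rfl⟩
  have f2' : h.Few (fun F => F.a ∈ h.SubO g oR ∧ F.b ∈ L ∧ Anti G F.set Z) kJ :=
    f2.rev fun F _ hF => ⟨hF.2.1, hF.1, by simpa using hF.2.2⟩
  rcases hT V G S I h g L R _ F al be 1 3 s c (by omega) (by omega) with ⟨y, hy⟩ | ⟨y, hy⟩
  · obtain ⟨gL, x, gR, k1, k2, k3, k4, k5⟩ := Pos0.main hB le_rfl (hA V G S I h) (hC₁ V G S I h)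
      (hC₂ V G S I h) s o1 o2 r1 r2 r3 f1 f2' c hZ hmax hy
    exact ⟨gL, x, gR, k1, k2, k3, k4, k5.mono (fun _ _ e => e) (le_max_right _ _)⟩
  · obtain ⟨gL, x, gR, k1, k2, k3, k4, k5⟩ := Pos0.main hB le_rfl (hA V G S I h) (hC₁ V G S I h)
      (hC₂ V G S I h) s.symm o2 o1 r1.rev r2 (fun k hk => (r3 k hk).symm) f2' f1 c.rev
      (fun i hi => by simpa using hZ i hi) (fun F' al' be' c' z' => by
        have := hmax _ _ _ c'.rev fun i hi => by simpa using z' i hi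
        omega) hy
    refine ⟨gR, x, gL, k1.symm, ?_, k4, k3, (k5.rev fun F _ hF =>
      ⟨hF.2.1, hF.1, by simpa using hF.2.2⟩).mono (fun _ _ e => e) (le_max_right _ _)⟩
    rw [h.hseg_symm (s.symm.subset_H o2) (s.subset_H o1)]
    exact k2

end Pool.Agent.Ehf
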