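import Pool.Agent.MP_3ad207_lc.H46.Spec

/-! Interface of the assembly: guard systems (the sets deleted outside the tree), cuts, and the
structure theorem that the assembly consumes. -/

set_option autoImplicit false

namespace Pool.Agent.Ehf

variable {V : Type*}

/-- the part of the tree that survives the members `D`: a member is deleted, and a black member
also deletes its white neighbours -/
def HC (G : SimpleGraph V) (S I : Set V) (D : Finset V) : Set V :=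
  {x | x ∈ HH S I ∧ x ∉ D ∧ ∀ y ∈ D, y ∈ I \ S → ¬ G.Adj x y}

/-- `p` may be counted for the side `B`: it lies in `B`, or it is a white with a neighbour in `B` -/
def ForSide (G : SimpleGraph V) (S I B : Set V) (p : V) : Prop :=
  p ∈ B ∨ (p ∈ S \ I ∧ Sees G p B)

/-- A guard system: `Wo D` is the set deleted outside the tree for the members `D` (neighbours of
members and hubs).  `Inv j D 𝓡` is the invariant of the retry loop after `j` items, `𝓡` the set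
of regions. -/
structure GSys (G : SimpleGraph V) (S I : Set V) (C : CanSys G S) (h q : ℕ → ℕ) (c c' J : ℕ) where
  Wo : Finset V → Set V
  out : ∀ D : Finset V, Disjoint (Wo D) (HH S I)
  nb : ∀ (D : Finset V) (z : V), z ∉ HH S I → Sees G z (D : Set V) → z ∈ Wo D
  mono : ∀ {D D' : Finset V}, D ⊆ D' → Wo D ⊆ Wo D'
  cover : ∀ (D : Finset V) (a : ℕ), (D : Set V) ⊆ HH S I → D.card ≤ a →
    ∃ X, C.Can (h a) X ∧ Wo D ⊆ X ∧ Disjoint X (HH S I)
  /-- (S2): members on the far side of a cut may be dropped -/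
  split : ∀ (D D' D₁ M : Finset V) (A B : Set V), (D : Set V) ⊆ HH S I → (D' : Set V) ⊆ HH S I →
    (D₁ : Set V) ⊆ HH S I → A ∪ B = HC G S I D' → Anti G A B → (∀ p ∈ M, ForSide G S I B p) →
    D' ⊆ D₁ → (∀ y ∈ D, y ∉ B → y ∉ M → y ∈ D₁) →
    ∀ z ∈ Wo D, Anti G {z} (B ∪ (M : Set V)) → z ∈ Wo D₁
  Inv : ℕ → Finset V → Set (Set V) → Prop
  init : ∀ D : Finset V, (D : Set V) ⊆ HH S I → Inv 0 D ∅
  final : ∀ (D : Finset V) (𝓡 : Set (Set V)), Inv J D 𝓡 → ∃ X₁ ∈ 𝓡, ∃ X₂ ∈ 𝓡, ∃ X₃ ∈ 𝓡,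
    Conn G X₁ ∧ Conn G X₂ ∧ Conn G X₃ ∧ Anti G X₁ X₂ ∧ Anti G X₁ X₃ ∧ Anti G X₂ X₃
  /-- many nonadjacent vertices that are deleted by few members `D'` but not by `D`: a new item -/
  step : ∀ (j t : ℕ) (D D' Z : Finset V) (𝓡 : Set (Set V)), j < J → Inv j D 𝓡 →
    (D : Set V) ⊆ HH S I → (D' : Set V) ⊆ HH S I → D'.card ≤ c → Stable G (Z : Set V) →
    (∀ z ∈ Z, z ∈ Wo D' ∧ z ∉ Wo D) → q t ≤ Z.card →
    ∃ (D₁ Z₁ : Finset V) (𝓡₁ : Set (Set V)), D ⊆ D₁ ∧ (D₁ : Set V) ⊆ HH S I ∧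
      D₁.card ≤ D.card + c' ∧ Z₁ ⊆ Z ∧ t ≤ Z₁.card ∧ Inv (j + 1) D₁ 𝓡₁ ∧
      ∀ z ∈ Z₁, ∀ R ∈ 𝓡₁, R ∈ 𝓡 ∨ z ∈ cN G R

/-- a thin cut of the tree: members `D`, sides `A`, `B`, marks `MA`, `MB`; links are counted
inside `U` -/
structure Cut (G : SimpleGraph V) (S I U : Set V) (D : Finset V) (A B : Set V) (MA MB : Finset V)
    (k : ℕ) : Prop where
  sub : (D : Set V) ⊆ HH S I
  cover : A ∪ B = HC G S I D
  anti : Anti G A B
  ma : ∀ p ∈ MA, ForSide G S I A p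
  mb : ∀ p ∈ MB, ForSide G S I B p
  nuB : NuLe G U A (B ∪ (MB : Set V)) k
  nuA : NuLe G U B (A ∪ (MA : Set V)) k

/-- (WIDTH*) for the deleted sets `Wo`: many marks can be split by a thin cut -/
def Width (G : SimpleGraph V) (S I : Set V) (Wo : Finset V → Set V) (N : ℕ → ℕ) (c k : ℕ) : Prop :=
  ∀ (m : ℕ) (M : Finset V), (M : Set V) ⊆ HH S I → N m ≤ M.card →
    ∃ (D MA MB : Finset V) (A B : Set V), D.card ≤ c ∧ MA ⊆ M ∧ MB ⊆ M ∧ m ≤ MA.card ∧
      m ≤ MB.card ∧ Cut G S I (HH S I ∪ Wo D)ᶜ D A B MA MB k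

/-- the structure theorem: a guard system with thin cuts -/
def StructStmt : Prop :=
  ∃ (h q N : ℕ → ℕ) (c c' J k : ℕ), 1 ≤ c ∧ ∀ (V : Type) [Fintype V] (G : SimpleGraph V)
    (S I : Set V), Setup G S I → ∀ C : CanSys G S,
      ∃ g : GSys G S I C h q c c' J, Width G S I g.Wo N c k

theorem Cut.symm {G : SimpleGraph V} {S I U A B : Set V} {D MA MB : Finset V} {k : ℕ}
    (h : Cut G S I U D A B MA MB k) : Cut G S I U D B A MB MA k :=
  ⟨h.sub, (Set.union_comm B A).trans h.cover, h.anti.symm, h.mb, h.ma, h.nuA, h.nuB⟩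

end Pool.Agent.Ehf
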