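import Pool.Agent.MP_3ad207_lc.H6.HubRetry
import Pool.Agent.MP_3ad207_lc.H46.Spec5

/-! The hub property of pair hubs and the guard system. -/

set_option autoImplicit false

namespace Pool.Agent.Ehf

variable {V : Type} {G : SimpleGraph V} {S I : Set V}

theorem hub_half (h : Setup G S I) {p : ℕ → V} {n l : ℕ} {z u : V} (hp : IsIP G p n)
    (pH : ∀ i, i ≤ n → p i ∈ HH S I) (hz : z ∉ HH S I) (h0 : 0 < l) (hl : l < n)
    (zl : G.Adj z (p l)) (zf : ∀ i, i < l → ¬ G.Adj z (p i)) (hD : p (l - 1) ∉ DZ G z u) :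
    p 0 ∉ DZ G z u ∧ (Robust G S I z u (p 0) ∨ p (l + 1) ∈ DZ G z u) := by
  have k1 : p (l - 1) ∈ kap G S I z (p 0) :=
    (hp.conn_seg (i := 0) (j := l - 1) (Nat.zero_le _) (by omega)).subset_comp_of_mem
      (seg_subset (X := HH S I \ cN G {z}) fun k _ _ => ⟨pH k (by omega), by
        rw [mem_cN_singleton]
        rintro (e | e)
        · exact hz (e ▸ pH k (by omega))
        · exact zf k (by omega) e.symm⟩)
      (apply_mem_seg le_rfl (Nat.zero_le _)) (apply_mem_seg (Nat.zero_le _) le_rfl)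
  refine ⟨fun e => hD ?_, ?_⟩
  · have := kap_subset_DZ z (p 0) k1
    unfold DZ at this e ⊢
    rwa [comp_eq_of_mem e] at this
  · by_cases hr : Robust G S I z u (p 0)
    · exact Or.inl hr
    · right
      unfold Robust at hr
      push Not at hr
      obtain ⟨g, hg, -, -, g3, y, hy, e⟩ := hr
      obtain rfl := g3 (p l) (pH l hl.le) zl ⟨_, k1, hp.adj_pred h0 hl.le⟩
      rcases h.white_inside hp pH h0 hl hg hy.1 e with rfl | rfl
      · exact (hD hy.2).elim
      · exact hy.2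

theorem hubProp [Finite V] (h1 : SC1Stmt) (h2 : SC2Stmt) (h : Setup G S I) :
    HubProp G S I (WoP G S I) := by
  intro D p n a b j L z hD hp pH p0 pn hab hb cL aL na nb sa sb hz zL zin
    ⟨i₁, i₂, i₃, e1, e2, e3, z1, z2, z3⟩ hj jD jw zj ⟨i₄, e4, z4⟩ ⟨i₅, e5, e6, z5⟩
  obtain ⟨l, r, -, hr, zl, zr, fl, fr⟩ := exists_first_last (p := fun i => G.Adj z (p i)) (n := n)
    ⟨i₁, by omega, z1⟩
  have l1 : l ≤ i₁ := not_lt.1 fun e => fl _ e z1
  have l3 : i₃ ≤ r := not_lt.1 fun e => fr _ e e3 z3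
  have l4 : l ≤ i₄ := not_lt.1 fun e => fl _ e z4
  have l5 : i₅ ≤ r := not_lt.1 fun e => fr _ e e6 z5
  have al := (zin l (by omega) zl).1
  have rb := (zin r hr zr).2
  have zp : ∀ i, i ≤ n → p i ≠ z := fun i hi e => hz (e ▸ pH i hi)
  have W : Wheel G (fun i => p (l + i)) (r - l) (seg p a (l - 1) ∪ L ∪ seg p (r + 1) b) z := by
    have sg : seg (fun i => p (l + i)) 1 (r - l - 1) ⊆ seg p (l + 1) (r - 1) :=
      seg_subset fun k _ _ => apply_mem_seg (by omega) (by omega)
    have er : l + (r - l) = r := by omega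
    have nm : ∀ i, l ≤ i → i ≤ r → p i ∉ seg p a (l - 1) ∪ L ∪ seg p (r + 1) b := by
      rintro i i1 i2 ((e | e) | e)
      · have := (hp.mem_seg_iff (by omega) (by omega)).1 e
        omega
      · exact aL.notMem e (apply_mem_seg (by omega) (by omega))
      · have := (hp.mem_seg_iff (by omega) (by omega)).1 e
        omega
    refine ⟨hp.shift hr, ?_, ?_, nm l le_rfl (by omega), by
      show p (l + (r - l)) ∉ _
      rw [er]; exact nm r (by omega) le_rfl, ?_, ?_, fun i hi => zp _ (by omega), ?_, zl, by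
      show G.Adj z (p (l + (r - l)))
      rw [er]; exact zr, i₂ - l, by omega, by omega, by
      show G.Adj z (p (l + (i₂ - l)))
      rw [show l + (i₂ - l) = i₂ by omega]; exact z2⟩
    · exact ((hp.conn_seg (by omega) (by omega)).un cL
        (Touch.of_sees (apply_mem_seg le_rfl (by omega)) sa)).un (hp.conn_seg (by omega) hb)
        ((Touch.of_sees (apply_mem_seg (by omega) le_rfl) sb).symm.mono Set.subset_union_right
          le_rfl)
    · exact (((hp.anti_seg (by omega) (by omega)).union_left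
        (aL.mono le_rfl (seg_mono (by omega) (by omega)))).union_left
        (hp.anti_seg (by omega) hb).symm).mono le_rfl sg
    · exact ⟨p (l - 1), Or.inl (Or.inl (apply_mem_seg (by omega) le_rfl)),
        hp.adj_pred (by omega) (by omega)⟩
    · refine ⟨p (r + 1), Or.inr (apply_mem_seg le_rfl (by omega)), ?_⟩
      show G.Adj (p (l + (r - l))) _
      rw [er]; exact hp.adj_succ (by omega)
    · refine (Anti.union_right ?_ zL).union_right ?_
      · rintro _ rfl _ ⟨k, k1, k2, rfl⟩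
        exact ⟨(zp k (by omega)).symm, fl k (by omega)⟩
      · rintro _ rfl _ ⟨k, k1, k2, rfl⟩
        exact ⟨(zp k (by omega)).symm, fr k (by omega) (by omega)⟩
  have uz : p j ∈ (cN G {z})ᶜ := by
    rw [Set.mem_compl_iff, mem_cN_singleton]
    rintro (e | e)
    · exact zp j hj e
    · exact zj e.symm
  have cY : Conn G (DZ G z (p j)) := conn_comp uz
  have aY : Anti G {z} (DZ G z (p j)) := (anti_iff.2 fun x hx => comp_subset _ _ hx).symm
  have nT : ∀ x ∈ seg p a (l - 1) ∪ L ∪ seg p (r + 1) b, x ∉ DZ G z (p j) := fun x hx e =>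
    h1 V G h.ehf _ _ _ z W _ cY aY (Touch.of_mem e hx) (j - l) (by omega) (by
      show p (l + (j - l)) ∈ _
      rw [show l + (j - l) = j by omega]; exact mem_comp_self uz)
  obtain ⟨-, s, -, s1, -, s2, -, s3⟩ := exists_first_last (p := fun i => G.Adj z (p i))
    (n := j - 1) ⟨i₄, by omega, z4⟩
  obtain ⟨s', s'', t0, t1, t2, -, t3, -⟩ := exists_first_last
    (p := fun i => j < i ∧ G.Adj z (p i)) (n := n) ⟨i₅, e6, e5, z5⟩
  have t4 : j < s' := t2.1
  have sec : ∃ f m i, Sect G S I z f m ∧ 0 < i ∧ i < m ∧ f i = p j := by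
    refine ⟨fun i => p (s + i), s' - s, j - s, ⟨hp.shift (by omega), fun k hk => pH _ (by omega), s2,
      ?_, fun k k1 k2 e => ?_⟩, by omega, by omega, ?_⟩
    · show G.Adj z (p (s + (s' - s)))
      rw [show s + (s' - s) = s' by omega]; exact t2.2
    · rcases lt_trichotomy (s + k) j with e' | e' | e'
      · exact s3 _ (by omega) (by omega) e
      · exact zj (e' ▸ e)
      · exact t3 _ (by omega) ⟨e', e⟩
    · show p (s + (j - s)) = _
      rw [show s + (j - s) = j by omega]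
  obtain ⟨a1, a2⟩ := hub_half (u := p j) h hp pH hz (by omega) (by omega) zl fl
    (nT _ (Or.inl (Or.inl (apply_mem_seg (by omega) le_rfl))))
  obtain ⟨b1, b2⟩ := hub_half (u := p j) (l := n - r) h hp.rev (fun i _ => pH _ (Nat.sub_le _ _)) hz
    (by omega) (by omega) (by rw [show n - (n - r) = r by omega]; exact zr)
    (fun i hi => fr _ (by omega) (by omega))
    (nT _ (Or.inr (apply_mem_seg (by omega) (by omega))))
  rcases a2 with a2 | a2
  · exact mem_WoP_of_hub ⟨jw, Or.inl jD⟩ p0 ⟨hz, sec, fl 0 (by omega), a1, a2⟩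
  rcases b2 with b2 | b2
  · exact mem_WoP_of_hub ⟨jw, Or.inl jD⟩ pn ⟨hz, sec, fr n (by omega) le_rfl, b1, b2⟩
  refine (h2 V G h.ehf _ _ _ z W _ cY aY 1 (i₂ - l) (r - l - 1) (by omega) (by omega) (by omega) ?_
    a2 ?_).elim
  · show G.Adj z (p (l + (i₂ - l)))
    rw [show l + (i₂ - l) = i₂ by omega]; exact z2
  · show p (l + (r - l - 1)) ∈ _
    rw [show l + (r - l - 1) = n - (n - r + 1) by omega]; exact b2

theorem guardStmt_of (c1 : WoCoverStmt) (c2 : MoveUStmt) (c3 : MoveXStmt) (c4 : TreeFinalStmt)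
    (c5 : PairRegStmt) (c6 : SameSideStmt) (h1 : SC1Stmt) (h2 : SC2Stmt) : GuardStmt := by
  intro c
  refine ⟨fun a => 10 + a + (a + 4 * a * a) * a, hubQ c, 2, 75, fun V _ G S I h C => ?_⟩
  obtain ⟨ρ, hρ⟩ : ∃ ρ, ρ ∈ I \ S := by
    obtain ⟨x, hx | hx⟩ := h.conn.nonempty
    · exact ⟨x, hx⟩
    · obtain ⟨a, -, -, ha, -⟩ := h.deg x hx
      exact ⟨a, ha⟩
  refine ⟨{ Wo := WoP G S I
            out := fun D => Set.disjoint_left.2 fun z hz => hz.1
            nb := fun D z => mem_WoP_of_sees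
            mono := WoP_mono
            cover := fun D a hD ha => (c1 V G S I h C D a hD ha).2
            split := ?_
            Inv := HInv h ρ
            init := fun D _ => hinv_init h ρ D
            final := fun D 𝓡 H => hinv_final c4 h hρ H
            step := fun j t D D' Z 𝓡 hj H hD hD' hc hZ hz hq =>
              hinv_step c1 c5 c6 h C hρ hj H hD hD' hc hZ hz hq }, hubProp h1 h2 h⟩
  intro D D' D₁ M A B hD hD' _ hc hAB hM s1 hk z hz ha
  have nB : ∀ y, G.Adj z y → y ∉ B ∧ y ∉ M := fun y e =>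
    ⟨fun e' => ha.not_adj rfl (Or.inl e') e, fun e' => ha.not_adj rfl (Or.inr e') e⟩
  rcases hz.2 with ⟨y, hy, e⟩ | ⟨u, hu, x, hx, e⟩
  · exact mem_WoP_of_sees hz.1 ⟨y, hk y hy (nB y e).1 (nB y e).2, e⟩
  obtain ⟨u', hu', e'⟩ := c2 V G S I h D D' D₁ M A B hD hD' hc hAB hM s1 hk z u x hu e ha
  by_cases hs : Sees G z (D' : Set V)
  · exact mem_WoP_of_sees hz.1 (hs.mono s1)
  by_cases hx1 : x ∈ D₁
  · exact mem_WoP_of_hub hu' hx1 e'
  have fs : ForSide G S I B x := by
    by_cases hB : x ∈ B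
    · exact Or.inl hB
    · exact hM x (by_contra fun hM' => hx1 (hk x hx hB hM'))
  obtain ⟨x', hx', e''⟩ := c3 V G S I h D' A B hD' hc hAB z u' x fs e'
    (ha.mono le_rfl Set.subset_union_left) hs
  exact mem_WoP_of_hub hu' (s1 hx') e''

end Pool.Agent.Ehf
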