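import Pool.Agent.MP_3ad207_lc.H6.HubSpec

/-! The retry game for pair hubs. -/

set_option autoImplicit false

namespace Pool.Agent.Ehf

theorem pigeon {α ι : Type*} (Z : Finset α) (s : Finset ι) (P : ι → α → Prop)
    (t : ℕ) (h : ∀ z ∈ Z, ∃ i ∈ s, P i z) (hc : s.card * t < Z.card) :
    ∃ i ∈ s, ∃ Z' ⊆ Z, t < Z'.card ∧ ∀ z ∈ Z', P i z := by
  classical
  suffices key : ∃ i ∈ s, t < (Z.filter (P i)).card by
    obtain ⟨i, hi, e⟩ := key
    exact ⟨i, hi, _, Finset.filter_subset _ _, e, fun z hz => (Finset.mem_filter.1 hz).2⟩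
  by_contra hn
  push Not at hn
  have h1 : Z ⊆ s.biUnion fun i => Z.filter (P i) := fun z hz => by
    obtain ⟨i, hi, e⟩ := h z hz
    exact Finset.mem_biUnion.2 ⟨i, hi, Finset.mem_filter.2 ⟨hz, e⟩⟩
  have h2 := (Finset.card_le_card h1).trans (Finset.card_biUnion_le_card_mul s _ t hn)
  omega

variable {V : Type} {G : SimpleGraph V} {S I : Set V}

/-- the two sides of a white vertex -/
def sideS (G : SimpleGraph V) (S I : Set V) (ρ c : V) : Bool → Set V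
  | true => upS G S I ρ c
  | false => lowS G S I ρ c

theorem exists_side {ρ c x : V} (hx : x ∈ HH S I \ {c}) : ∃ b, x ∈ sideS G S I ρ c b := by
  by_cases e : x ∈ upS G S I ρ c
  · exact ⟨true, e⟩
  · exact ⟨false, hx, e⟩

theorem side_subset (ρ c : V) (b : Bool) : sideS G S I ρ c b ⊆ HH S I \ {c} := by
  cases b
  · exact Set.sdiff_subset
  · exact comp_subset _ _

theorem Setup.side_spec (h : Setup G S I) {ρ c : V} (hρ : ρ ∈ I \ S) (hc : c ∈ S \ I) (b : Bool) :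
    Conn G (sideS G S I ρ c (!b)) ∧ Anti G (sideS G S I ρ c (!b)) (sideS G S I ρ c b) ∧
      ∀ x ∈ sideS G S I ρ c b, comp G (HH S I \ {c}) x = sideS G S I ρ c b := by
  have key : ∀ a a' : V, a ∈ HH S I \ {c} → a' ∈ HH S I \ {c} →
      Anti G (comp G (HH S I \ {c}) a) (comp G (HH S I \ {c}) a') →
      comp G (HH S I \ {c}) a ∪ comp G (HH S I \ {c}) a' = HH S I \ {c} →
      ρ ∈ comp G (HH S I \ {c}) a → Conn G (sideS G S I ρ c (!b)) ∧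
      Anti G (sideS G S I ρ c (!b)) (sideS G S I ρ c b) ∧
      ∀ x ∈ sideS G S I ρ c b, comp G (HH S I \ {c}) x = sideS G S I ρ c b := by
    intro a a' ha ha' hA hU hr
    have e1 : upS G S I ρ c = comp G (HH S I \ {c}) a := comp_eq_of_mem hr
    have e2 : lowS G S I ρ c = comp G (HH S I \ {c}) a' := by
      unfold lowS
      rw [e1]
      ext y
      constructor
      · rintro ⟨h1, h2⟩
        rw [← hU] at h1
        exact h1.resolve_left h2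
      · intro h1
        exact ⟨comp_subset _ _ h1, fun h2 => hA.notMem h2 h1⟩
    cases b
    · simp only [sideS, Bool.not_false, e1, e2]
      exact ⟨conn_comp ha, hA, fun x hx => comp_eq_of_mem hx⟩
    · simp only [sideS, Bool.not_true, e1, e2]
      exact ⟨conn_comp ha', hA.symm, fun x hx => comp_eq_of_mem hx⟩
  obtain ⟨a, a', -, h2, h3, -, -, -, h7, h8⟩ := h.white_split hc
  have m1 : a ∈ HH S I \ {c} := ⟨black_mem_HH h2, black_ne_white h2 hc⟩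
  have m2 : a' ∈ HH S I \ {c} := ⟨black_mem_HH h3, black_ne_white h3 hc⟩
  have m3 : ρ ∈ HH S I \ {c} := ⟨black_mem_HH hρ, black_ne_white hρ hc⟩
  rw [← h8] at m3
  rcases m3 with e | e
  · exact key a a' m1 m2 h7 h8 e
  · exact key a' a m2 m1 h7.symm ((Set.union_comm _ _).trans h8) e

theorem HubP.self_mem {z u x : V} (hz : z ∈ HubP G S I u x) : u ∈ DZ G z u := by
  obtain ⟨f, n, i, h, h0, hi, rfl⟩ := hz.2.1
  exact mem_comp_self (h.inner_notMem hz.1 h0 hi)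

theorem HubP.ne {z u x : V} (hz : z ∈ HubP G S I u x) : x ≠ u :=
  fun e => hz.2.2.2.1 (by rw [e]; exact HubP.self_mem hz)

theorem HubP.sees_hseg (h : Setup G S I) {z u x : V} (hz : z ∈ HubP G S I u x) (hu : u ∈ HH S I)
    (hx : x ∈ HH S I) : Sees G z (h.hseg u x \ {u}) := by
  by_contra hn
  refine hz.2.2.2.1 ((h.conn_hseg hu hx).subset_comp_of_mem (fun y hy => ?_)
    (h.left_mem_hseg hu hx) (h.right_mem_hseg hu hx))
  by_cases e : y = u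
  · exact e ▸ (HubP.self_mem hz).1
  · rw [Set.mem_compl_iff, mem_cN_singleton]
    rintro (e' | e')
    · exact hz.1 (e' ▸ h.hseg_subset_H hu hx hy)
    · exact hn ⟨y, ⟨hy, e⟩, e'.symm⟩

/-- the items so far and their regions -/
structure InvData (h : Setup G S I) (ρ : V) (D : Finset V) (𝓡 : Set (Set V)) (Qs : Finset V)
    (Cs : Finset (V × Bool)) : Prop where
  qs : ∀ q ∈ Qs, q ∈ D ∧ q ∈ HH S I ∧ {q} ∈ 𝓡
  cs : ∀ p ∈ Cs, p.1 ∈ D ∧ p.1 ∈ S \ I ∧ upS G S I ρ p.1 ∈ 𝓡 ∧ lowS G S I ρ p.1 ∈ 𝓡 ∧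
    ∃ x ∈ D, x ∈ sideS G S I ρ p.1 p.2 ∧ h.hseg p.1 x \ {p.1} ∈ 𝓡
  pair : ∀ p ∈ Cs, ∀ p' ∈ Cs, p'.1 ∈ lowS G S I ρ p.1 →
    ∃ R ∈ 𝓡, Conn G R ∧ R ⊆ (HH S I \ upS G S I ρ p.1) \ lowS G S I ρ p'.1

theorem InvData.mono {h : Setup G S I} {ρ : V} {D D' : Finset V} {𝓡 𝓡' : Set (Set V)}
    {Qs : Finset V} {Cs : Finset (V × Bool)} (H : InvData h ρ D 𝓡 Qs Cs) (hD : D ⊆ D')
    (hR : 𝓡 ⊆ 𝓡') : InvData h ρ D' 𝓡' Qs Cs := by
  refine ⟨fun q hq => ⟨hD (H.qs q hq).1, (H.qs q hq).2.1, hR (H.qs q hq).2.2⟩, fun p hp => ?_,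
    fun p hp p' hp' e => ?_⟩
  · obtain ⟨h1, h2, h3, h4, x, h5, h6, h7⟩ := H.cs p hp
    exact ⟨hD h1, h2, hR h3, hR h4, x, hD h5, h6, hR h7⟩
  · obtain ⟨R, h1, h2⟩ := H.pair p hp p' hp' e
    exact ⟨R, hR h1, h2⟩

/-- the invariant of the retry game -/
def HInv (h : Setup G S I) (ρ : V) (j : ℕ) (D : Finset V) (𝓡 : Set (Set V)) : Prop :=
  Three G 𝓡 ∨ ∃ Qs Cs, Qs.card + Cs.card = j ∧ InvData h ρ D 𝓡 Qs Cs

theorem hinv_init (h : Setup G S I) (ρ : V) (D : Finset V) : HInv h ρ 0 D ∅ :=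
  Or.inr ⟨∅, ∅, rfl, by simp, by simp, by simp⟩

theorem three_of_stable {𝓡 : Set (Set V)} {T : Finset V} (hT : Stable G (T : Set V))
    (hc : 2 < T.card) (hR : ∀ q ∈ T, {q} ∈ 𝓡) : Three G 𝓡 := by
  obtain ⟨a, ha, b, hb, c, hc', h1, h2, h3⟩ := Finset.two_lt_card.1 hc
  exact ⟨_, hR a ha, _, hR b hb, _, hR c hc', conn_singleton _, conn_singleton _, conn_singleton _,
    anti_singleton_singleton.2 ⟨h1, hT a ha b hb⟩, anti_singleton_singleton.2 ⟨h2, hT a ha c hc'⟩,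
    anti_singleton_singleton.2 ⟨h3, hT b hb c hc'⟩⟩

theorem hinv_final [Finite V] (hT : TreeFinalStmt) (h : Setup G S I) {ρ : V} (hρ : ρ ∈ I \ S)
    {D : Finset V} {𝓡 : Set (Set V)} (H : HInv h ρ 75 D 𝓡) : Three G 𝓡 := by
  classical
  rcases H with H | ⟨Qs, Cs, hc, H⟩
  · exact H
  by_cases h5 : 5 ≤ Qs.card
  · have e := Finset.card_filter_add_card_filter_not (s := Qs) fun x => x ∈ S
    by_cases h3 : 2 < (Qs.filter fun x => x ∈ S).card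
    · exact three_of_stable (fun x hx y hy => h.stS x (Finset.mem_filter.1 hx).2 y
        (Finset.mem_filter.1 hy).2) h3 fun q hq => (H.qs q (Finset.mem_filter.1 hq).1).2.2
    · have key : ∀ x ∈ Qs.filter fun x => x ∉ S, x ∈ I := fun x hx => by
        obtain ⟨h1, h2⟩ := Finset.mem_filter.1 hx
        rcases (H.qs x h1).2.1 with e | e
        · exact e.1
        · exact (h2 e.1).elim
      exact three_of_stable (T := Qs.filter fun x => x ∉ S)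
        (fun x hx y hy => h.stI x (key x hx) y (key y hy)) (by omega)
        fun q hq => (H.qs q (Finset.mem_filter.1 hq).1).2.2
  · have h1 : Cs ⊆ Cs.image Prod.fst ×ˢ (Finset.univ : Finset Bool) := fun p hp =>
      Finset.mem_product.2 ⟨Finset.mem_image_of_mem _ hp, Finset.mem_univ _⟩
    have h2 := Finset.card_le_card h1
    rw [Finset.card_product, Finset.card_univ, Fintype.card_bool] at h2
    refine hT V G S I h ρ hρ (Cs.image Prod.fst) 𝓡 ?_ (by omega) ?_ ?_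
    · intro c hc
      obtain ⟨p, hp, rfl⟩ := Finset.mem_image.1 hc
      exact (H.cs p hp).2.1
    · intro c hc
      obtain ⟨p, hp, rfl⟩ := Finset.mem_image.1 hc
      exact ⟨(H.cs p hp).2.2.1, (H.cs p hp).2.2.2.1⟩
    · intro c hc c' hc'
      obtain ⟨p, hp, rfl⟩ := Finset.mem_image.1 hc
      obtain ⟨p', hp', rfl⟩ := Finset.mem_image.1 hc'
      exact H.pair p hp p' hp'

/-- the size needed in a step -/
def hubQ (c t : ℕ) : ℕ := (c + (c + 4 * c * c) * c) * (76 * (4 * t + 1)) + t + 1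

theorem hinv_step [Finite V] (h1 : WoCoverStmt) (h2 : PairRegStmt) (h3 : SameSideStmt)
    (h : Setup G S I) (C : CanSys G S) {ρ : V} (hρ : ρ ∈ I \ S) {c j t : ℕ} {D D' Z : Finset V}
    {𝓡 : Set (Set V)} (hj : j < 75) (H : HInv h ρ j D 𝓡) (hD : (D : Set V) ⊆ HH S I)
    (hD' : (D' : Set V) ⊆ HH S I) (hc : D'.card ≤ c) (hZ : Stable G (Z : Set V))
    (hz : ∀ z ∈ Z, z ∈ WoP G S I D' ∧ z ∉ WoP G S I D) (hq : hubQ c t ≤ Z.card) :
    ∃ (D₁ Z₁ : Finset V) (𝓡₁ : Set (Set V)), D ⊆ D₁ ∧ (D₁ : Set V) ⊆ HH S I ∧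
      D₁.card ≤ D.card + 2 ∧ Z₁ ⊆ Z ∧ t ≤ Z₁.card ∧ HInv h ρ (j + 1) D₁ 𝓡₁ ∧
      ∀ z ∈ Z₁, ∀ R ∈ 𝓡₁, R ∈ 𝓡 ∨ z ∈ cN G R := by
  classical
  unfold hubQ at hq
  rcases H with H | ⟨Qs, Cs, hjc, H⟩
  · exact ⟨D, Z, 𝓡, le_rfl, hD, by omega, le_rfl, by omega, Or.inl H, fun _ _ R hR => Or.inl hR⟩
  suffices key : ∃ (D₁ Z₁ : Finset V), D ⊆ D₁ ∧ (D₁ : Set V) ⊆ HH S I ∧ D₁.card ≤ D.card + 2 ∧
      Z₁ ⊆ Z ∧ t < Z₁.card ∧ HInv h ρ (j + 1) D₁ (𝓡 ∪ {R | ∀ z ∈ Z₁, z ∈ cN G R}) by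
    obtain ⟨D₁, Z₁, k1, k2, k3, k4, k5, k6⟩ := key
    exact ⟨D₁, Z₁, _, k1, k2, k3, k4, k5.le, k6, fun z hz R hR => hR.imp id fun e => e z hz⟩
  have vert : ∀ q ∈ HH S I, ∀ Z₁ ⊆ Z, t < Z₁.card → (∀ z ∈ Z₁, G.Adj z q) →
      ∃ (D₁ Z₁ : Finset V), D ⊆ D₁ ∧ (D₁ : Set V) ⊆ HH S I ∧ D₁.card ≤ D.card + 2 ∧
      Z₁ ⊆ Z ∧ t < Z₁.card ∧ HInv h ρ (j + 1) D₁ (𝓡 ∪ {R | ∀ z ∈ Z₁, z ∈ cN G R}) := by
    intro q hq Z₁ s1 c1 a1
    obtain ⟨z₀, hz₀⟩ := Finset.card_pos.1 (show 0 < Z₁.card by omega)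
    have nq : q ∉ Qs := fun e => (hz z₀ (s1 hz₀)).2
      (mem_WoP_of_sees (hz z₀ (s1 hz₀)).1.1 ⟨q, (H.qs q e).1, a1 z₀ hz₀⟩)
    have H' := H.mono (Finset.subset_insert q D)
      (Set.subset_union_left (t := {R | ∀ z ∈ Z₁, z ∈ cN G R}))
    refine ⟨insert q D, Z₁, Finset.subset_insert _ _, by
      rw [Finset.coe_insert]; exact Set.insert_subset hq hD,
      (Finset.card_insert_le _ _).trans (by omega), s1, c1, Or.inr ⟨insert q Qs, Cs, by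
      rw [Finset.card_insert_of_notMem nq]; omega, fun x hx => ?_, H'.cs, H'.pair⟩⟩
    rcases Finset.mem_insert.1 hx with rfl | hx
    · exact ⟨Finset.mem_insert_self _ _, hq, Or.inr fun z hz =>
        mem_cN_singleton.2 (Or.inr (a1 z hz))⟩
    · exact H'.qs x hx
  have newp : ∀ u ∈ S \ I, ∀ x ∈ HH S I, ∀ b, x ∈ sideS G S I ρ u b → (u, b) ∉ Cs →
      ∀ Z₁ ⊆ Z, t < Z₁.card → (∀ z ∈ Z₁, z ∈ HubP G S I u x) →
      (∀ p ∈ Cs, (u ∈ lowS G S I ρ p.1 → ∃ R ∈ 𝓡 ∪ {R | ∀ z ∈ Z₁, z ∈ cN G R}, Conn G R ∧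
          R ⊆ (HH S I \ upS G S I ρ p.1) \ lowS G S I ρ u) ∧
        (p.1 ∈ lowS G S I ρ u → ∃ R ∈ 𝓡 ∪ {R | ∀ z ∈ Z₁, z ∈ cN G R}, Conn G R ∧
          R ⊆ (HH S I \ upS G S I ρ u) \ lowS G S I ρ p.1)) →
      ∃ (D₁ Z₁ : Finset V), D ⊆ D₁ ∧ (D₁ : Set V) ⊆ HH S I ∧ D₁.card ≤ D.card + 2 ∧
      Z₁ ⊆ Z ∧ t < Z₁.card ∧ HInv h ρ (j + 1) D₁ (𝓡 ∪ {R | ∀ z ∈ Z₁, z ∈ cN G R}) := by
    intro u hu x hx b hb nb Z₁ s1 c1 a1 pr
    have sD : D ⊆ insert u (insert x D) :=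
      (Finset.subset_insert x D).trans (Finset.subset_insert u _)
    have H' := H.mono sD (Set.subset_union_left (t := {R | ∀ z ∈ Z₁, z ∈ cN G R}))
    have sd : ∀ z ∈ Z₁, Sees G z (upS G S I ρ u) ∧ Sees G z (lowS G S I ρ u) := by
      intro z hz
      obtain ⟨f, n, i, k1, k2, k3, rfl⟩ := (a1 z hz).2.1
      have := h2 V G S I h ρ hρ z f n i k1 k2 k3 hu
      exact ⟨this.1, this.2.1⟩
    refine ⟨insert u (insert x D), Z₁, sD, by
      rw [Finset.coe_insert, Finset.coe_insert]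
      exact Set.insert_subset (white_mem_HH hu) (Set.insert_subset hx hD),
      (Finset.card_insert_le _ _).trans (Nat.succ_le_succ (Finset.card_insert_le _ _)), s1, c1,
      Or.inr ⟨Qs, insert (u, b) Cs, by rw [Finset.card_insert_of_notMem nb]; omega, H'.qs,
      fun p hp => ?_, fun p hp p' hp' e => ?_⟩⟩
    · rcases Finset.mem_insert.1 hp with rfl | hp
      · exact ⟨Finset.mem_insert_self _ _, hu, Or.inr fun z hz => Or.inr (sd z hz).1,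
          Or.inr fun z hz => Or.inr (sd z hz).2, x,
          Finset.mem_insert_of_mem (Finset.mem_insert_self _ _), hb,
          Or.inr fun z hz => Or.inr (HubP.sees_hseg h (a1 z hz) (white_mem_HH hu) hx)⟩
      · exact H'.cs p hp
    · rcases Finset.mem_insert.1 hp with rfl | hp <;> rcases Finset.mem_insert.1 hp' with rfl | hp'
      · exact (e.1.2 rfl).elim
      · exact (pr p' hp').2 e
      · exact (pr p hp).1 e
      · exact H'.pair p hp p' hp' e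
  obtain ⟨⟨U, hU, cU⟩, -⟩ := h1 V G S I h C D' c hD' hc
  obtain ⟨i, hi, Z₂, s2, ci, m2⟩ := pigeon Z (D'.disjSum (U ×ˢ D'))
    (fun i z => Sum.elim (fun q => G.Adj z q)
      (fun p : V × V => p.1 ∈ S \ I ∧ z ∈ HubP G S I p.1 p.2) i) (76 * (4 * t + 1))
    (fun z hz' => by
      rcases (hz z hz').1.2 with ⟨q, hq, e⟩ | ⟨u, hu, x, hx, e⟩
      · exact ⟨Sum.inl q, Finset.inl_mem_disjSum.2 hq, e⟩
      · exact ⟨Sum.inr (u, x), Finset.inr_mem_disjSum.2 (Finset.mem_product.2 ⟨hU hu, hx⟩),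
          hu.1, e⟩)
    (by
      rw [Finset.card_disjSum, Finset.card_product]
      have := Nat.mul_le_mul_right (76 * (4 * t + 1)) (Nat.add_le_add hc (Nat.mul_le_mul cU hc))
      omega)
  rcases i with q | ⟨u, x⟩
  · exact vert q (hD' (Finset.inl_mem_disjSum.1 hi)) Z₂ s2 (by omega) m2
  have hx : x ∈ HH S I := hD' (Finset.mem_product.1 (Finset.inr_mem_disjSum.1 hi)).2
  replace m2 : ∀ z ∈ Z₂, u ∈ S \ I ∧ z ∈ HubP G S I u x := m2
  obtain ⟨z₂, hz₂⟩ := Finset.card_pos.1 (show 0 < Z₂.card by omega)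
  have hu := (m2 z₂ hz₂).1
  obtain ⟨i, hi', Z₃, s3, ci', m3⟩ := pigeon Z₂ (Finset.insertNone Cs)
    (fun i z => Option.elim i (∃ f n i, Sect G S I z f n ∧ 0 < i ∧ i < n ∧ f i = u ∧
      ∀ p ∈ Cs, ∀ k, 0 < k → k < n → f k ≠ p.1) fun p => z ∈ HubP G S I p.1 x) (4 * t + 1)
    (fun z hz' => by
      obtain ⟨f, n, i, k1, k2, k3, k4⟩ := (m2 z hz').2.2.1
      by_cases e : ∃ p ∈ Cs, ∃ k, 0 < k ∧ k < n ∧ f k = p.1
      · obtain ⟨p, hp, k, e1, e2, e3⟩ := e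
        refine ⟨some p, Finset.some_mem_insertNone.2 hp, ?_⟩
        show z ∈ HubP G S I p.1 x
        rw [← e3]
        exact HubP.move k1 k2 k3 e1 e2 (k4 ▸ (m2 z hz').2)
      · push Not at e
        exact ⟨none, Finset.none_mem_insertNone, f, n, i, k1, k2, k3, k4, e⟩)
    (by
      rw [Finset.card_insertNone]
      exact lt_of_le_of_lt (Nat.mul_le_mul_right _ (by omega)) ci)
  obtain ⟨z₃, hz₃⟩ := Finset.card_pos.1 (show 0 < Z₃.card by omega)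
  rcases i with _ | p
  · replace m3 : ∀ z ∈ Z₃, ∃ f n i, Sect G S I z f n ∧ 0 < i ∧ i < n ∧ f i = u ∧
        ∀ p ∈ Cs, ∀ k, 0 < k → k < n → f k ≠ p.1 := m3
    obtain ⟨b, hb⟩ := exists_side (G := G) (ρ := ρ) (c := u) ⟨hx, HubP.ne (m2 z₂ hz₂).2⟩
    refine newp u hu x hx b hb (fun e => ?_) Z₃ (s3.trans s2) (by omega)
      (fun z hz => (m2 z (s3 hz)).2) fun p hp => ?_
    · obtain ⟨f, n, i, -, k2, k3, k4, k5⟩ := m3 z₃ hz₃
      exact k5 _ e i k2 k3 k4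
    have key : ∀ z ∈ Z₃, (u ∈ lowS G S I ρ p.1 →
        Sees G z (comp G ((HH S I \ upS G S I ρ p.1) \ lowS G S I ρ u) u)) ∧
        (p.1 ∈ lowS G S I ρ u →
        Sees G z (comp G ((HH S I \ upS G S I ρ u) \ lowS G S I ρ p.1) u)) := by
      intro z hz
      obtain ⟨f, n, i, k1, k2, k3, rfl, k5⟩ := m3 z hz
      exact (h2 V G S I h ρ hρ z f n i k1 k2 k3 hu).2.2 p.1 (H.cs p hp).2.1 (k5 p hp)
    constructor
    · intro e
      obtain ⟨y, hy, -⟩ := (key z₃ hz₃).1 e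
      exact ⟨_, Or.inr fun z hz => Or.inr ((key z hz).1 e), conn_comp hy.1, comp_subset _ _⟩
    · intro e
      obtain ⟨y, hy, -⟩ := (key z₃ hz₃).2 e
      exact ⟨_, Or.inr fun z hz => Or.inr ((key z hz).2 e), conn_comp hy.1, comp_subset _ _⟩
  have hp : p ∈ Cs := Finset.some_mem_insertNone.1 hi'
  replace m3 : ∀ z ∈ Z₃, z ∈ HubP G S I p.1 x := m3
  have hw := (H.cs p hp).2.1
  obtain ⟨b, hb⟩ := exists_side (G := G) (ρ := ρ) (c := p.1) ⟨hx, HubP.ne (m3 z₃ hz₃)⟩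
  by_cases hpb : (p.1, b) ∈ Cs
  swap
  · refine newp p.1 hw x hx b hb hpb Z₃ (s3.trans s2) (by omega) m3 fun p' hp' => ⟨fun e => ?_,
      fun e => ?_⟩
    · obtain ⟨R, k1, k2⟩ := H.pair p' hp' p hp e
      exact ⟨R, Or.inl k1, k2⟩
    · obtain ⟨R, k1, k2⟩ := H.pair p hp p' hp' e
      exact ⟨R, Or.inl k1, k2⟩
  obtain ⟨k1, -, k3, k4, x', k5, k6, k7⟩ := H.cs _ hpb
  obtain ⟨f1, f2, f3⟩ := h.side_spec hρ hw b
  have hx' : x' ∈ HH S I \ {p.1} := side_subset ρ p.1 b k6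
  obtain ⟨g₁, n1, g₂, n2, g₃, n3, R, Q, r1, r2, r3, r4, r5⟩ :=
    h3 V G S I h p.1 hw x' x hx' (by rw [f3 x' k6]; exact hb)
  have r6 : ∀ z ∈ Z₃, G.Adj z g₁ ∨ G.Adj z g₂ ∨ G.Adj z g₃ ∨ Sees G z R ∨ z ∈ Q := fun z hz' =>
    r5 z (m3 z hz') (fun e => (hz z (s2 (s3 hz'))).2 (mem_WoP_of_hub ⟨hw, Or.inl k1⟩ k5 e))
      fun e => (hz z (s2 (s3 hz'))).2 (mem_WoP_of_sees (m3 z hz').1 ⟨x', k5, e⟩)
  by_cases a1 : t < (Z₃.filter fun z => G.Adj z g₁).card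
  · exact vert g₁ n1 _ ((Finset.filter_subset _ _).trans (s3.trans s2)) a1
      fun z hz => (Finset.mem_filter.1 hz).2
  by_cases a2 : t < (Z₃.filter fun z => G.Adj z g₂).card
  · exact vert g₂ n2 _ ((Finset.filter_subset _ _).trans (s3.trans s2)) a2
      fun z hz => (Finset.mem_filter.1 hz).2
  by_cases a3 : t < (Z₃.filter fun z => G.Adj z g₃).card
  · exact vert g₃ n3 _ ((Finset.filter_subset _ _).trans (s3.trans s2)) a3
      fun z hz => (Finset.mem_filter.1 hz).2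
  have a5 : (Z₃.filter fun z => z ∈ Q).card ≤ 1 := Finset.card_le_one.2 fun y hy y' hy' => by
    by_contra hne
    obtain ⟨y1, y2⟩ := Finset.mem_filter.1 hy
    obtain ⟨y3, y4⟩ := Finset.mem_filter.1 hy'
    exact hZ y (s2 (s3 y1)) y' (s2 (s3 y3)) (r4 y y2 y' y4 hne)
  have a4 : t < (Z₃.filter fun z => Sees G z R).card := by
    have e1 : Z₃ ⊆ (Z₃.filter fun z => G.Adj z g₁) ∪ ((Z₃.filter fun z => G.Adj z g₂) ∪
        ((Z₃.filter fun z => G.Adj z g₃) ∪ ((Z₃.filter fun z => Sees G z R) ∪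
        Z₃.filter fun z => z ∈ Q))) := fun z hz => by
      simp only [Finset.mem_union, Finset.mem_filter]
      have := r6 z hz
      tauto
    have e2 := (Finset.card_le_card e1).trans ((Finset.card_union_le _ _).trans
      (Nat.add_le_add_left ((Finset.card_union_le _ _).trans (Nat.add_le_add_left
        ((Finset.card_union_le _ _).trans (Nat.add_le_add_left (Finset.card_union_le _ _) _)) _)) _))
    omega
  obtain ⟨z₄, hz₄⟩ := Finset.card_pos.1 (lt_of_le_of_lt (Nat.zero_le t) a4)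
  obtain ⟨y, hy, -⟩ := (Finset.mem_filter.1 hz₄).2
  have s5 : h.hseg p.1 x' \ {p.1} ⊆ sideS G S I ρ p.1 b :=
    f3 x' k6 ▸ h.hseg_diff_subset_comp (white_mem_HH hw) hx'.1
  refine ⟨D, _, le_rfl, hD, by omega, (Finset.filter_subset _ _).trans (s3.trans s2), a4,
    Or.inl ⟨sideS G S I ρ p.1 (!b), Or.inl ?_, _, Or.inl k7, R,
      Or.inr fun z hz => Or.inr (Finset.mem_filter.1 hz).2, f1,
      h.conn_hseg_diff_left (white_mem_HH hw) hx'.1 fun e => hx'.2 e.symm, r1 ⟨y, hy⟩,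
      f2.mono le_rfl s5, f2.mono le_rfl (f3 x' k6 ▸ r2), r3.symm⟩⟩
  cases b
  · exact k3
  · exact k4

end Pool.Agent.Ehf
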