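import Pool.Agent.MP_3ad207_lc.H6.Spec4
import Pool.Agent.MP_3ad207_lc.H82.Tree

/-! Pair hubs: the set deleted outside the tree, and the statements about it. -/

set_option autoImplicit false

namespace Pool.Agent.Ehf

section defs

variable {V : Type*}

/-- the component of `u` in the graph minus the closed neighbourhood of `z` -/
def DZ (G : SimpleGraph V) (z u : V) : Set V := comp G (cN G {z})ᶜ u

/-- the component of `x` in the tree minus the neighbours of `z` -/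
def kap (G : SimpleGraph V) (S I : Set V) (z x : V) : Set V := comp G (HH S I \ cN G {z}) x

/-- a sector of `z`: a path of the tree whose only neighbours of `z` are its two ends -/
structure Sect (G : SimpleGraph V) (S I : Set V) (z : V) (f : ℕ → V) (n : ℕ) : Prop where
  ip : IsIP G f n
  mem : ∀ j, j ≤ n → f j ∈ HH S I
  left : G.Adj z (f 0)
  right : G.Adj z (f n)
  inner : ∀ j, 0 < j → j < n → ¬ G.Adj z (f j)

/-- not: `kap z x` has a single attachment, which is white and sees the tree inside `DZ z u` -/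
def Robust (G : SimpleGraph V) (S I : Set V) (z u x : V) : Prop :=
  ¬ ∃ g ∈ S \ I, G.Adj z g ∧ Sees G g (kap G S I z x) ∧
    (∀ g' ∈ HH S I, G.Adj z g' → Sees G g' (kap G S I z x) → g' = g) ∧
    Sees G g (HH S I ∩ DZ G z u)

/-- hubs over `u` whose closed neighbourhood separates `u` from `x` robustly -/
def HubP (G : SimpleGraph V) (S I : Set V) (u x : V) : Set V :=
  {z | z ∉ HH S I ∧ (∃ f n i, Sect G S I z f n ∧ 0 < i ∧ i < n ∧ f i = u) ∧ ¬ G.Adj z x ∧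
    x ∉ DZ G z u ∧ Robust G S I z u x}

/-- white members, and whites between two members at distance at most 3 from one of them -/
def clo (G : SimpleGraph V) (S I : Set V) (D : Finset V) : Set V :=
  {u | u ∈ S \ I ∧ (u ∈ D ∨ ∃ (g : ℕ → V) (n j : ℕ), IsIP G g n ∧ (∀ i, i ≤ n → g i ∈ HH S I) ∧
    g 0 ∈ D ∧ g n ∈ D ∧ 0 < j ∧ j < n ∧ j ≤ 3 ∧ g j = u)}

/-- the set deleted outside the tree for the members `D` -/
def WoP (G : SimpleGraph V) (S I : Set V) (D : Finset V) : Set V :=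
  {z | z ∉ HH S I ∧ (Sees G z (D : Set V) ∨ ∃ u ∈ clo G S I D, ∃ x ∈ D, z ∈ HubP G S I u x)}

/-- the side of `c` that contains the root `ρ` -/
def upS (G : SimpleGraph V) (S I : Set V) (ρ c : V) : Set V := comp G (HH S I \ {c}) ρ

/-- the other side of `c` -/
def lowS (G : SimpleGraph V) (S I : Set V) (ρ c : V) : Set V := (HH S I \ {c}) \ upS G S I ρ c

/-- three pairwise anticomplete connected regions -/
def Three (G : SimpleGraph V) (𝓡 : Set (Set V)) : Prop :=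
  ∃ X₁ ∈ 𝓡, ∃ X₂ ∈ 𝓡, ∃ X₃ ∈ 𝓡,
    Conn G X₁ ∧ Conn G X₂ ∧ Conn G X₃ ∧ Anti G X₁ X₂ ∧ Anti G X₁ X₃ ∧ Anti G X₂ X₃

end defs

/-- (Hub1) container for one pair -/
def HubCoverStmt : Prop :=
  ∀ (V : Type) [Finite V] (G : SimpleGraph V) (S I : Set V), Setup G S I → ∀ (C : CanSys G S),
    ∀ u ∈ HH S I, ∀ x ∈ HH S I, ∃ X, C.Can 9 X ∧ HubP G S I u x ⊆ X ∧ Disjoint X (HH S I)

/-- the field `cover` -/
def WoCoverStmt : Prop :=
  ∀ (V : Type) [Finite V] (G : SimpleGraph V) (S I : Set V), Setup G S I → ∀ (C : CanSys G S)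
    (D : Finset V) (a : ℕ), (D : Set V) ⊆ HH S I → D.card ≤ a →
    (∃ U : Finset V, clo G S I D ⊆ U ∧ U.card ≤ a + 4 * a * a) ∧
    ∃ X, C.Can (10 + a + (a + 4 * a * a) * a) X ∧ WoP G S I D ⊆ X ∧ Disjoint X (HH S I)

/-- (S2) the white under the hub is moved into the closure of the new members -/
def MoveUStmt : Prop :=
  ∀ (V : Type) [Finite V] (G : SimpleGraph V) (S I : Set V), Setup G S I →
    ∀ (D D' D₁ M : Finset V) (A B : Set V), (D : Set V) ⊆ HH S I → (D' : Set V) ⊆ HH S I →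
    A ∪ B = HC G S I D' → Anti G A B → (∀ p ∈ M, ForSide G S I B p) →
    D' ⊆ D₁ → (∀ y ∈ D, y ∉ B → y ∉ M → y ∈ D₁) →
    ∀ (z u x : V), u ∈ clo G S I D → z ∈ HubP G S I u x → Anti G {z} (B ∪ (M : Set V)) →
      ∃ u' ∈ clo G S I D₁, z ∈ HubP G S I u' x

/-- (Hub3) the separated member is moved into the new members -/
def MoveXStmt : Prop :=
  ∀ (V : Type) [Finite V] (G : SimpleGraph V) (S I : Set V), Setup G S I →
    ∀ (D' : Finset V) (A B : Set V), (D' : Set V) ⊆ HH S I → A ∪ B = HC G S I D' → Anti G A B →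
    ∀ (z u x : V), ForSide G S I B x → z ∈ HubP G S I u x → Anti G {z} B →
      ¬ Sees G z (D' : Set V) → ∃ x' ∈ D', z ∈ HubP G S I u x'

/-- many hub items give three regions -/
def TreeFinalStmt : Prop :=
  ∀ (V : Type) [Finite V] (G : SimpleGraph V) (S I : Set V), Setup G S I →
    ∀ ρ ∈ I \ S, ∀ (Cs : Finset V) (𝓡 : Set (Set V)), (∀ c ∈ Cs, c ∈ S \ I) → 35 ≤ Cs.card →
    (∀ c ∈ Cs, upS G S I ρ c ∈ 𝓡 ∧ lowS G S I ρ c ∈ 𝓡) →
    (∀ c ∈ Cs, ∀ c' ∈ Cs, c' ∈ lowS G S I ρ c →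
      ∃ R ∈ 𝓡, Conn G R ∧ R ⊆ (HH S I \ upS G S I ρ c) \ lowS G S I ρ c') → Three G 𝓡

/-- what a hub over a new item sees -/
def PairRegStmt : Prop :=
  ∀ (V : Type) [Finite V] (G : SimpleGraph V) (S I : Set V), Setup G S I →
    ∀ ρ ∈ I \ S, ∀ (z : V) (f : ℕ → V) (n i : ℕ), Sect G S I z f n → 0 < i → i < n →
    f i ∈ S \ I → Sees G z (upS G S I ρ (f i)) ∧ Sees G z (lowS G S I ρ (f i)) ∧
      ∀ c ∈ S \ I, (∀ j, 0 < j → j < n → f j ≠ c) →
        (f i ∈ lowS G S I ρ c →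
          Sees G z (comp G ((HH S I \ upS G S I ρ c) \ lowS G S I ρ (f i)) (f i))) ∧
        (c ∈ lowS G S I ρ (f i) →
          Sees G z (comp G ((HH S I \ upS G S I ρ (f i)) \ lowS G S I ρ c) (f i)))

/-- (Hub4) two members on the same side of an item -/
def SameSideStmt : Prop :=
  ∀ (V : Type) [Finite V] (G : SimpleGraph V) (S I : Set V) (h : Setup G S I),
    ∀ c ∈ S \ I, ∀ x' x'' : V, x' ∈ HH S I \ {c} → x'' ∈ comp G (HH S I \ {c}) x' →
    ∃ g₁ ∈ HH S I, ∃ g₂ ∈ HH S I, ∃ g₃ ∈ HH S I, ∃ R Q : Set V, (R.Nonempty → Conn G R) ∧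
      R ⊆ comp G (HH S I \ {c}) x' ∧ Anti G R (h.hseg c x' \ {c}) ∧ Clq G Q ∧
      ∀ z ∈ HubP G S I c x'', z ∉ HubP G S I c x' → ¬ G.Adj z x' →
        G.Adj z g₁ ∨ G.Adj z g₂ ∨ G.Adj z g₃ ∨ Sees G z R ∨ z ∈ Q

variable {V : Type*} {G : SimpleGraph V} {S I : Set V}

theorem kap_subset_DZ (z x : V) : kap G S I z x ⊆ DZ G z x := fun _ hy =>
  ⟨hy.1.2, hy.2.mono fun _ h => h.2⟩

theorem Sect.inner_notMem {z : V} {f : ℕ → V} {n j : ℕ} (h : Sect G S I z f n) (hz : z ∉ HH S I)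
    (h0 : 0 < j) (hj : j < n) : f j ∉ cN G {z} := by
  rw [mem_cN_singleton]
  rintro (e | e)
  · exact hz (e ▸ h.mem j hj.le)
  · exact h.inner j h0 hj e.symm

theorem Sect.mem_kap {z : V} {f : ℕ → V} {n i j : ℕ} (h : Sect G S I z f n) (hz : z ∉ HH S I)
    (hi0 : 0 < i) (hi : i < n) (h0 : 0 < j) (hj : j < n) : f j ∈ kap G S I z (f i) :=
  (h.ip.conn_seg (i := 1) (j := n - 1) (by omega) (by omega)).subset_comp_of_mem
    (seg_subset (X := HH S I \ cN G {z}) fun k _ _ =>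
      ⟨h.mem k (by omega), h.inner_notMem hz (by omega) (by omega)⟩)
    (apply_mem_seg (by omega) (by omega)) (apply_mem_seg (by omega) (by omega))

/-- (Hub2) the white may move inside the sector -/
theorem HubP.move {z x : V} {f : ℕ → V} {n i j : ℕ} (h : Sect G S I z f n) (hi0 : 0 < i)
    (hi : i < n) (h0 : 0 < j) (hj : j < n) (hz : z ∈ HubP G S I (f i) x) :
    z ∈ HubP G S I (f j) x := by
  have e : DZ G z (f j) = DZ G z (f i) :=
    comp_eq_of_mem (kap_subset_DZ z (f i) (h.mem_kap hz.1 hi0 hi h0 hj))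
  refine ⟨hz.1, ⟨f, n, j, h, h0, hj, rfl⟩, hz.2.2.1, e ▸ hz.2.2.2.1, ?_⟩
  have := hz.2.2.2.2
  unfold Robust at this ⊢
  rwa [e]

/-- the member may move inside its component of the tree minus the neighbours of the hub -/
theorem HubP.move_kap {z u x x' : V} (hz : z ∈ HubP G S I u x) (hx : x' ∈ kap G S I z x) :
    z ∈ HubP G S I u x' := by
  have e : kap G S I z x' = kap G S I z x := comp_eq_of_mem hx
  refine ⟨hz.1, hz.2.1, fun a => (comp_subset _ _ hx).2 (mem_cN_singleton.2 (Or.inr a.symm)),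
    fun a => hz.2.2.2.1 ?_, ?_⟩
  · have h1 : x' ∈ DZ G z x := kap_subset_DZ z x hx
    have h2 : DZ G z x = DZ G z u := (comp_eq_of_mem h1).symm.trans (comp_eq_of_mem a)
    exact h2 ▸ mem_comp_self h1.1
  · have := hz.2.2.2.2
    unfold Robust at this ⊢
    rwa [e]

theorem clo_mono {D D' : Finset V} (h : D ⊆ D') : clo G S I D ⊆ clo G S I D' := by
  rintro u ⟨hu, e | ⟨g, n, j, h1, h2, h3, h4, h5⟩⟩
  · exact ⟨hu, Or.inl (h e)⟩
  · exact ⟨hu, Or.inr ⟨g, n, j, h1, h2, h h3, h h4, h5⟩⟩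

theorem WoP_mono {D D' : Finset V} (h : D ⊆ D') : WoP G S I D ⊆ WoP G S I D' := by
  rintro z ⟨hz, e | ⟨u, hu, x, hx, e⟩⟩
  · exact ⟨hz, Or.inl (e.mono h)⟩
  · exact ⟨hz, Or.inr ⟨u, clo_mono h hu, x, h hx, e⟩⟩

theorem mem_WoP_of_sees {D : Finset V} {z : V} (hz : z ∉ HH S I) (h : Sees G z (D : Set V)) :
    z ∈ WoP G S I D := ⟨hz, Or.inl h⟩

theorem mem_WoP_of_hub {D : Finset V} {z u x : V} (hu : u ∈ clo G S I D) (hx : x ∈ D)
    (h : z ∈ HubP G S I u x) : z ∈ WoP G S I D := ⟨h.1, Or.inr ⟨u, hu, x, hx, h⟩⟩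

end Pool.Agent.Ehf
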