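import Pool.Agent.MP_3ad207_lc.H46.Spec

/-! Counting lemmas for the assembly: matchings of touching pairs, maximum families. -/

set_option autoImplicit false

namespace Pool.Agent.Ehf

/-- either a matching of size `μ`, or large subfamilies without related pairs -/
theorem match_or {ι κ : Type*} [Nonempty ι] (rel : ι → κ → Prop) (μ : ℕ) :
    ∀ (s : Finset ι) (t : Finset κ),
    (∃ t' ⊆ t, t'.card = μ ∧ ∃ φ : κ → ι, (∀ i ∈ t', φ i ∈ s ∧ rel (φ i) i) ∧ Set.InjOn φ t') ∨
    (∃ s₀ ⊆ s, ∃ t₀ ⊆ t, s.card ≤ s₀.card + μ ∧ t.card ≤ t₀.card + μ ∧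
      ∀ a ∈ s₀, ∀ b ∈ t₀, ¬ rel a b) := by
  classical
  induction μ with
  | zero =>
    intro s t
    exact Or.inl ⟨∅, Finset.empty_subset _, rfl, fun _ => Classical.arbitrary ι, by simp, by simp⟩
  | succ μ ih =>
    intro s t
    by_cases h : ∃ a ∈ s, ∃ b ∈ t, rel a b
    · obtain ⟨a, ha, b, hb, hab⟩ := h
      rcases ih (s.erase a) (t.erase b) with ⟨t', ht', hc, φ, hφ, hinj⟩ | ⟨s₀, hs₀, t₀, ht₀, h1, h2, h3⟩
      · left
        have hb' : b ∉ t' := fun e => by simpa using ht' e
        refine ⟨insert b t', ?_, by rw [Finset.card_insert_of_notMem hb', hc],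
          Function.update φ b a, ?_, ?_⟩
        · intro x hx
          rcases Finset.mem_insert.1 hx with rfl | hx
          · exact hb
          · exact Finset.mem_of_mem_erase (ht' hx)
        · intro i hi
          rcases Finset.mem_insert.1 hi with rfl | hi
          · simpa using ⟨ha, hab⟩
          · have hne : i ≠ b := fun e => hb' (e ▸ hi)
            rw [Function.update_of_ne hne]
            exact ⟨Finset.mem_of_mem_erase (hφ i hi).1, (hφ i hi).2⟩
        · intro i hi j hj e
          rw [Finset.coe_insert, Set.mem_insert_iff] at hi hj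
          rcases hi with rfl | hi <;> rcases hj with rfl | hj
          · rfl
          · have hne : j ≠ i := fun e => hb' (e ▸ hj)
            rw [Function.update_self, Function.update_of_ne hne] at e
            exact absurd e.symm (Finset.ne_of_mem_erase (hφ j hj).1)
          · have hne : i ≠ j := fun e => hb' (e ▸ hi)
            rw [Function.update_self, Function.update_of_ne hne] at e
            exact absurd e (Finset.ne_of_mem_erase (hφ i hi).1)
          · have h1 : i ≠ b := fun e => hb' (e ▸ hi)
            have h2 : j ≠ b := fun e => hb' (e ▸ hj)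
            rw [Function.update_of_ne h1, Function.update_of_ne h2] at e
            exact hinj hi hj e
      · right
        rw [Finset.card_erase_of_mem ha] at h1
        rw [Finset.card_erase_of_mem hb] at h2
        exact ⟨s₀, hs₀.trans (Finset.erase_subset _ _), t₀, ht₀.trans (Finset.erase_subset _ _),
          by omega, by omega, h3⟩
    · right
      push Not at h
      exact ⟨s, le_rfl, t, le_rfl, by omega, by omega, h⟩

variable {V : Type*} {G : SimpleGraph V}

/-- a maximum family of links -/
theorem NuLe.exists_max {U A B : Set V} {k : ℕ} (h : NuLe G U A B k) :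
    ∃ s : Finset (Set V), s.card ≤ k ∧ NuLe G U A B s.card ∧ AFam G s id ∧
      ∀ Y ∈ s, Y ⊆ U ∧ Touch G Y A ∧ Touch G Y B := by
  induction k with
  | zero => exact ⟨∅, le_rfl, h, ⟨by simp, by simp⟩, by simp⟩
  | succ k ih =>
    by_cases hk : NuLe G U A B k
    · obtain ⟨s, h1, h2⟩ := ih hk
      exact ⟨s, h1.trans (Nat.le_succ k), h2⟩
    · unfold NuLe at hk
      push Not at hk
      obtain ⟨s, hs, hT, hc⟩ := hk
      have h1 := h s hs hT
      have e : s.card = k + 1 := by omega
      exact ⟨s, h1, e ▸ h, hs, hT⟩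

/-- two anticomplete families of links count together -/
theorem NuLe.add_le {U A B : Set V} {k : ℕ} (h : NuLe G U A B k) {ι κ : Type*} {s : Finset ι}
    {t : Finset κ} {E : ι → Set V} {F : κ → Set V} (hE : AFam G s E) (hF : AFam G t F)
    (hEF : ∀ i ∈ s, ∀ j ∈ t, Anti G (E i) (F j))
    (h1 : ∀ i ∈ s, E i ⊆ U ∧ Touch G (E i) A ∧ Touch G (E i) B)
    (h2 : ∀ i ∈ t, F i ⊆ U ∧ Touch G (F i) A ∧ Touch G (F i) B) : s.card + t.card ≤ k := by
  rw [← Finset.card_disjSum]
  refine h.card_le (F := Sum.elim E F) ⟨?_, ?_⟩ ?_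
  · rintro (i | i) hi
    · exact hE.1 i (by simpa using hi)
    · exact hF.1 i (by simpa using hi)
  · rintro (i | i) hi (j | j) hj hne
    · exact hE.2 i (by simpa using hi) j (by simpa using hj) fun e => hne (by rw [e])
    · exact hEF i (by simpa using hi) j (by simpa using hj)
    · exact (hEF j (by simpa using hj) i (by simpa using hi)).symm
    · exact hF.2 i (by simpa using hi) j (by simpa using hj) fun e => hne (by rw [e])
  · rintro (i | i) hi
    · exact h1 i (by simpa using hi)
    · exact h2 i (by simpa using hi)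

/-- a family reindexed along an injective map -/
theorem AFam.comp {ι κ : Type*} {s : Finset ι} {t : Finset κ} {F : ι → Set V} (h : AFam G s F)
    {φ : κ → ι} (hφ : ∀ i ∈ t, φ i ∈ s) (hinj : Set.InjOn φ t) : AFam G t fun i => F (φ i) :=
  ⟨fun i hi => h.1 _ (hφ i hi), fun i hi j hj hne =>
    h.2 _ (hφ i hi) _ (hφ j hj) fun e => hne (hinj hi hj e)⟩

/-- subsets of the members of a family -/
theorem AFam.of_subset {ι : Type*} {s : Finset ι} {E F : ι → Set V} (h : AFam G s E)
    (hc : ∀ i ∈ s, Conn G (F i)) (hF : ∀ i ∈ s, F i ⊆ E i) : AFam G s F :=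
  ⟨hc, fun i hi j hj hne => (h.2 i hi j hj hne).mono (hF i hi) (hF j hj)⟩

/-- unions of touching pairs, after the diagonal selection -/
theorem AFam.union {ι : Type*} {s : Finset ι} {E F : ι → Set V} (hE : AFam G s E)
    (hF : AFam G s F) (ht : ∀ i ∈ s, Touch G (E i) (F i))
    (hEF : ∀ i ∈ s, ∀ j ∈ s, i ≠ j → Anti G (E i) (F j)) : AFam G s fun i => E i ∪ F i :=
  ⟨fun i hi => (hE.1 i hi).un (hF.1 i hi) (ht i hi), fun i hi j hj hne =>
    ((hE.2 i hi j hj hne).union_right (hEF i hi j hj hne)).union_left
      ((hEF j hj i hi hne.symm).symm.union_right (hF.2 i hi j hj hne))⟩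

end Pool.Agent.Ehf
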