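import Pool.Agent.MP_3ad207_lc.H6.State

/-! Contexts: one round of the table reduces a state to the two sides of a thin cut. -/

set_option autoImplicit false

namespace Pool.Agent.Ehf

variable {V : Type} {G : SimpleGraph V} {S I : Set V} {C : CanSys G S}

/-- (EP) for one graph -/
def EPfor (C : CanSys G S) (f : ℕ → ℕ) : Prop :=
  ∀ (W₀ A B : Set V) (k n : ℕ), C.Can n W₀ → Disjoint W₀ (A ∪ B) → Anti G A B →
    TriFree G (A ∪ B) → NuLe G W₀ᶜ A B k →
    ∃ W, C.Can (n + f k) W ∧ Disjoint W (A ∪ B) ∧ NuLe G (W₀ ∪ W)ᶜ A B 0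

/-- the level of a context -/
def lev (h f : ℕ → ℕ) (a : ℕ) : ℕ := h a + a + f a + 7

theorem can_black (C : CanSys G S) {D : Finset V} {a : ℕ} (ha : D.card ≤ a) :
    C.Can (a + 1) ((D : Set V) \ S) :=
  C.diff (C.mono (C.finset D) ha) (C.mono C.white (Nat.zero_le _))

theorem can_white (C : CanSys G S) {D : Finset V} {a : ℕ} (ha : D.card ≤ a) :
    C.Can (a + 2) ((D : Set V) ∩ S) :=
  C.inter (C.mono (C.finset D) ha) (C.mono C.white (Nat.zero_le _))

theorem mem_HC_iff {D : Finset V} (hD : (D : Set V) ⊆ HH S I) {x : V} (hx : x ∈ HH S I) :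
    x ∈ HC G S I D ↔ x ∉ cN G ((D : Set V) \ S) ∪ (D : Set V) ∩ S := by
  constructor
  · rintro h ((e | ⟨y, hy, e⟩) | e)
    · exact h.2.1 e.1
    · rcases hD hy.1 with hb | hw
      · exact h.2.2 y hy.1 hb e
      · exact hy.2 hw.1
    · exact h.2.1 e.1
  · intro h
    refine ⟨hx, fun e => ?_, fun y hy hb e => h (Or.inl (Or.inr ⟨y, ⟨hy, hb.2⟩, e⟩))⟩
    by_cases hS : x ∈ S
    · exact h (Or.inr ⟨e, hS⟩)
    · exact h (Or.inl (Or.inl ⟨e, hS⟩))

variable {h q f : ℕ → ℕ} {c c' J : ℕ} (g : GSys G S I C h q c c' J)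

/-- all links across a thin cut are killed by a canonical set outside the tree -/
theorem GSys.kill (hs : Setup G S I) (hEP : EPfor C f) {D : Finset V} {A B : Set V} {a : ℕ}
    (hD : (D : Set V) ⊆ HH S I) (ha : D.card ≤ a) (hc : A ∪ B = HC G S I D) (hAB : Anti G A B)
    (hN : NuLe G (g.U D) A B a) :
    ∃ W, C.Can (h a + a + f a + 6) W ∧ Disjoint W (HH S I) ∧ ∀ Y, Conn G Y → Y ∩ HH S I ⊆ HC G S I D →
      Disjoint Y W → Touch G Y A → ¬ Touch G Y B := by
  obtain ⟨X, hX, hWX, hXH⟩ := g.cover D a hD ha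
  set W₀ := X ∪ (cN G ((D : Set V) \ S) ∪ (D : Set V) ∩ S) with hW₀
  have c0 : C.Can (h a + a + 4) W₀ :=
    C.union (k := h a + a + 3) (C.mono hX (by omega))
      (C.mono (C.union (C.nbhd (can_black C ha)) (can_white C ha)) (by omega))
  have hH : ∀ x ∈ HH S I, x ∉ W₀ → x ∈ A ∪ B := fun x hx h0 =>
    hc ▸ (mem_HC_iff hD hx).2 fun e => h0 (Or.inr e)
  have d0 : Disjoint W₀ (A ∪ B) := by
    rw [Set.disjoint_left, hc]
    rintro x (e | e) hx
    · exact Set.disjoint_left.1 hXH e hx.1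
    · exact (mem_HC_iff hD hx.1).1 hx e
  have t0 : TriFree G (A ∪ B) := fun x hx y hy z hz =>
    hs.triFree x (HC_subset D (hc ▸ hx)) y (HC_subset D (hc ▸ hy)) z (HC_subset D (hc ▸ hz))
  have n0 : NuLe G W₀ᶜ A B a := by
    refine NuLe.of_outside hAB (hN.mono ?_ le_rfl le_rfl le_rfl)
    rintro x ⟨h1, h2⟩ (e | e)
    · exact h2 (hH x e h1)
    · exact h1 (Or.inl (hWX e))
  obtain ⟨W₁, c1, d1, n1⟩ := hEP W₀ A B a _ c0 d0 hAB t0 n0
  refine ⟨X ∪ W₁ \ W₀, ?_, ?_, fun Y hY h1 h2 => nuLe_zero.1 n1 Y hY ?_⟩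
  · exact C.union (k := h a + a + f a + 5) (C.mono hX (by omega))
      (C.diff (k := h a + a + f a + 4) (C.mono c1 (by omega)) (C.mono c0 (by omega)))
  · rw [Set.disjoint_left]
    rintro x (e | e) hx
    · exact Set.disjoint_left.1 hXH e hx
    · exact Set.disjoint_left.1 d1 e.1 (hH x hx e.2)
  · have k0 : ∀ x ∈ Y, x ∉ W₀ := by
      intro x hx e
      by_cases hxH : x ∈ HH S I
      · exact Set.disjoint_left.1 d0 e (hc ▸ h1 ⟨hx, hxH⟩)
      · refine Set.disjoint_left.1 h2 hx (Or.inl ?_)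
        rcases e with e | (e | e) | e
        · exact e
        · exact (hxH (hD e.1)).elim
        · exact hWX (g.nb D x hxH (e.mono Set.sdiff_subset))
        · exact (hxH (hD e.1)).elim
    rintro x hx (e | e)
    · exact k0 x hx e
    · exact Set.disjoint_left.1 h2 hx (Or.inr ⟨e, k0 x hx⟩)

variable {K : ℕ} (T : RSys G S I C K)

/-- a context made of members `D` and an outside set `W` -/
theorem RSys.ctx' {D : Finset V} {P W : Set V} {r : ℕ} (hP : P ⊆ HH S I)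
    (hD : (D : Set V) ⊆ HH S I) (hK : D.card + 2 ≤ K) (hW : C.Can K W) (hWH : Disjoint W (HH S I))
    (hR : ∀ Y, Conn G Y → Y ∩ HH S I ⊆ HC G S I D → Disjoint Y W → (Y ∩ P).Nonempty →
      T.R r (Y ∩ HH S I)) : T.R (r + 1) P := by
  refine T.ctx (Cb := (D : Set V) \ S) (Cw := (D : Set V) ∩ S) hP ?_ ?_ hWH
    (C.mono (can_black C le_rfl) (by omega)) (C.mono (can_white C le_rfl) hK) hW ?_
  · intro x hx
    rcases hD hx.1 with e | e
    · exact e
    · exact (hx.2 e.1).elim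
  · intro x hx
    rcases hD hx.1 with e | e
    · exact (e.2 hx.2).elim
    · exact e
  · intro Y hY h1 h2
    refine hR Y hY (fun x hx => (mem_HC_iff hD hx.2).2 fun e => h1 hx.1 (Or.inl e)) ?_ h2
    exact Set.disjoint_left.2 fun x hx e => h1 hx (Or.inr e)

theorem RSys.le {r r' : ℕ} {P : Set V} (h : T.R r P) (hr : r ≤ r') : T.R r' P := by
  induction hr with
  | refl => exact h
  | step _ ih => exact T.succ ih

/-- a small set is put into the context -/
theorem RSys.small {D : Finset V} (hD : (D : Set V) ⊆ HH S I) (hK : D.card + 2 ≤ K) :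
    T.R 1 (D : Set V) := by
  refine T.ctx' hD hD hK (C.mono C.empty (Nat.zero_le _)) (by simp) ?_
  rintro Y - h1 - ⟨x, hx, hx'⟩
  exact ((h1 ⟨hx, hD hx'⟩).2.1 hx').elim

/-- one round: a state and a thin cut -/
theorem GSys.reduce2 (hs : Setup G S I) (hEP : EPfor C f) {a : ℕ} (hK : lev h f a + a ≤ K)
    {D D' : Finset V} {P P₁ A B : Set V} {r : ℕ} (hP : P ⊆ HH S I) (h1 : St G S I D P₁)
    (hPP : P ∩ HC G S I D ⊆ P₁) (ha : D.card ≤ a) (hN : g.Nu D P₁ a)
    (hD' : (D' : Set V) ⊆ HH S I) (ha' : D'.card ≤ a) (hc : A ∪ B = HC G S I D')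
    (hAB : Anti G A B) (hN' : NuLe G (g.U D') A B a) (hA : T.R r (P₁ ∩ A))
    (hB : T.R r (P₁ ∩ B)) : T.R (r + 1) P := by
  classical
  obtain ⟨W₁, c1, d1, k1⟩ := g.kill hs hEP h1.sub ha (Set.union_sdiff_cancel h1.inn) h1.anti hN
  obtain ⟨W₂, c2, d2, k2⟩ := g.kill hs hEP hD' ha' hc hAB hN'
  have hcard := Finset.card_union_le D D'
  unfold lev at hK
  refine T.ctx' (D := D ∪ D') (W := W₁ ∪ W₂) hP ?_ (by omega) (C.mono (C.union c1 c2) (by omega))
    (Set.disjoint_union_left.2 ⟨d1, d2⟩) ?_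
  · rw [Finset.coe_union]
    exact Set.union_subset h1.sub hD'
  · rintro Y hY hH hW ⟨x, hx, hxP⟩
    have hH1 : Y ∩ HH S I ⊆ HC G S I D := hH.trans (HC_anti Finset.subset_union_left)
    have hH2 : Y ∩ HH S I ⊆ HC G S I D' := hH.trans (HC_anti Finset.subset_union_right)
    obtain ⟨w1, w2⟩ := Set.disjoint_union_right.1 hW
    have hx1 : x ∈ P₁ := hPP ⟨hxP, hH1 ⟨hx, hP hxP⟩⟩
    have e1 : Y ∩ HH S I ⊆ P₁ := by
      intro y hy
      by_contra hn
      exact k1 Y hY hH1 w1 (Touch.of_mem hx hx1) (Touch.of_mem hy.1 ⟨hH1 hy, hn⟩)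
    by_cases hA' : Touch G Y A
    · refine T.mono hA fun y hy => ⟨e1 hy, ?_⟩
      have : y ∈ A ∪ B := hc ▸ hH2 hy
      exact this.resolve_right fun e => k2 Y hY hH2 w2 hA' (Touch.of_mem hy.1 e)
    · refine T.mono hB fun y hy => ⟨e1 hy, ?_⟩
      have : y ∈ A ∪ B := hc ▸ hH2 hy
      exact this.resolve_left fun e => hA' (Touch.of_mem hy.1 e)

/-- one round: a state -/
theorem GSys.reduce1 (hs : Setup G S I) (hEP : EPfor C f) {a : ℕ} (hK : lev h f a + a ≤ K)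
    {D : Finset V} {P P₁ : Set V} {r : ℕ} (hP : P ⊆ HH S I) (h1 : St G S I D P₁)
    (hPP : P ∩ HC G S I D ⊆ P₁) (ha : D.card ≤ a) (hN : g.Nu D P₁ a) (hR : T.R r P₁) :
    T.R (r + 1) P :=
  g.reduce2 T hs hEP hK hP h1 hPP ha hN h1.sub ha (Set.union_sdiff_cancel h1.inn) h1.anti hN
    (T.mono hR Set.inter_subset_left) (T.mono hR Set.inter_subset_left)

end Pool.Agent.Ehf
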