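import Pool.Agent.MP_3ad207_lc.H6.Reduce

/-! The retry loop: a state with many links is reduced to states of small weight. -/

set_option autoImplicit false

namespace Pool.Agent.Ehf

variable {V : Type} {G : SimpleGraph V} {S I : Set V} {C : CanSys G S}

/-- K(3,18) for one graph -/
def K3for (G : SimpleGraph V) : Prop :=
  ∀ (X₁ X₂ X₃ : Set V), Conn G X₁ → Conn G X₂ → Conn G X₃ → Anti G X₁ X₂ → Anti G X₁ X₃ →
    Anti G X₂ X₃ → ∀ (ι : Type) (s : Finset ι) (F : ι → Set V), AFam G s F →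
      (∀ i ∈ s, Touch G (F i) X₁ ∧ Touch G (F i) X₂ ∧ Touch G (F i) X₃) → s.card ≤ 17

/-- (DIAG) for one graph -/
def Diagfor (G : SimpleGraph V) (d : ℕ → ℕ) : Prop :=
  ∀ (ι : Type) (s : Finset ι) (E F : ι → Set V) (t : ℕ), AFam G s E → AFam G s F →
    d t ≤ s.card → ∃ s' ⊆ s, s'.card = t ∧ ∀ i ∈ s', ∀ j ∈ s', i ≠ j → Anti G (E i) (F j)

/-- sizes of the families in the retry loop, by the number of remaining items -/
def retryN (d q N : ℕ → ℕ) (c c' J k : ℕ) : ℕ → ℕ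
  | 0 => 18
  | t + 1 =>
    q (J * c' + 2 * d (retryN d q N c c' J k t) + c + k) *
      N (J * c' + 2 * (c + k) + 2 * d (k + 1) +
        q (J * c' + 2 * d (retryN d q N c c' J k t) + c + k)) + 1

variable {h q f d N : ℕ → ℕ} {c c' J k K : ℕ} (g : GSys G S I C h q c c' J) (T : RSys G S I C K)

/-- the light case, one side -/
theorem GSys.light (hD : Diagfor G d) {D D' MA MB : Finset V} {P A B : Set V} {ν : ℕ}
    (h1 : St G S I D P) (hN : g.Nu D P ν) (hcut : Cut G S I (g.U D') D' A B MA MB k)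
    {s : Finset (Set V)} {F : Set V → Set V} (hF : AFam G s F) (hL : ∀ i ∈ s, g.Lnk D P (F i))
    (hU : ∀ i ∈ s, F i ⊆ g.U D') (hM : ∀ i ∈ s, Touch G (F i) (MB : Set V)) :
    ∃ (D₁ : Finset V) (ν₁ : ℕ), St G S I D₁ (P ∩ A) ∧ g.Nu D₁ (P ∩ A) ν₁ ∧
      D₁.card + ν₁ + s.card ≤ D.card + ν + D'.card + k + 2 * d (k + 1) := by
  obtain ⟨D₁, e1, e2, e3, e4, -⟩ := exists_split_members D D' MB B
  have st := h1.split hcut.sub hcut.cover hcut.anti hcut.mb e1 e2 e3
  obtain ⟨s₂, -, n2, a2, l2⟩ := (g.nu_split h1.sub hcut st.sub e1 e3 hN).exists_max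
  obtain ⟨s', m1, m2, m3⟩ := g.split_family hcut e1 a2 l2
  refine ⟨D₁, s₂.card, st, n2, ?_⟩
  rcases match_or (fun Y i => Touch G Y (F i)) (d (k + 1)) s' s with
    ⟨t', ht', hc, φ, hφ, hinj⟩ | ⟨s₀, hs₀, t₀, ht₀, b1, b2, b3⟩
  · exfalso
    have a3 : AFam G t' fun i => id (φ i) := a2.comp (fun i hi => m1 (hφ i hi).1) hinj
    obtain ⟨s'', k1, k2, k3⟩ := hD _ t' _ F (k + 1) a3 (hF.mono ht') hc.ge
    have a4 := (a3.mono k1).union (hF.mono (k1.trans ht')) (fun i hi => (hφ i (k1 hi)).2) k3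
    have := hcut.nuB.card_le a4 fun i hi => by
      have l := l2 _ (m1 (hφ i (k1 hi)).1)
      exact ⟨Set.union_subset (l.1.trans (g.U_anti e1)) (hU i (ht' (k1 hi))),
        l.2.1.mono Set.subset_union_left Set.inter_subset_right,
        (hM i (ht' (k1 hi))).mono Set.subset_union_right Set.subset_union_right⟩
    omega
  · have := NuLe.add_le hN (a2.mono (hs₀.trans m1)) (hF.mono ht₀)
      (fun Y hY i hi => not_touch.1 (b3 Y hY i hi))
      (fun Y hY => g.lnk_split h1.sub hcut.sub st.sub hcut.cover hcut.anti hcut.mb e1 e3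
        (l2 Y (m1 (hs₀ hY))) (m3 Y (hs₀ hY))) fun i hi => hL i (ht₀ hi)
    omega

theorem GSys.retry (hs : Setup G S I) (hEP : EPfor C f) (hK3 : K3for G) (hD : Diagfor G d)
    (hW : Width G S I g.Wo N c k) (hc : 1 ≤ c) {w a r : ℕ} (ha : w + c + k + J * c' ≤ a)
    (hK : lev h f a + a ≤ K) {P : Set V} (hP : P ⊆ HH S I)
    (hsmall : ∀ (D₁ : Finset V) (P₁ : Set V) (ν : ℕ), St G S I D₁ P₁ → P₁ ⊆ P → g.Nu D₁ P₁ ν →
      D₁.card + ν ≤ w → T.R r P₁) (t : ℕ) :
    ∀ (j : ℕ) (D₁ : Finset V) (P₁ : Set V) (ν : ℕ) (𝓡 : Set (Set V)) (s : Finset (Set V))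
      (F E : Set V → Set V), j + t = J → St G S I D₁ P₁ → P ∩ HC G S I D₁ ⊆ P₁ → P₁ ⊆ P →
      g.Inv j D₁ 𝓡 → g.Nu D₁ P₁ ν → D₁.card + ν ≤ w + c + k + j * c' → AFam G s E →
      (∀ i ∈ s, Conn G (F i) ∧ F i ⊆ E i ∧ g.Lnk D₁ P₁ (F i) ∧ ∀ R ∈ 𝓡, Touch G (E i) R) →
      retryN d q N c c' J k t ≤ s.card → T.R (r + 1) P := by
  classical
  induction t with
  | zero =>
    intro j D₁ P₁ ν 𝓡 s F E hj _ _ _ hI _ _ hE hF hn
    obtain rfl : j = J := by omega
    obtain ⟨X₁, m1, X₂, m2, X₃, m3, c1, c2, c3, a1, a2, a3⟩ := g.final D₁ 𝓡 hI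
    have := hK3 X₁ X₂ X₃ c1 c2 c3 a1 a2 a3 _ s E hE fun i hi =>
      ⟨(hF i hi).2.2.2 _ m1, (hF i hi).2.2.2 _ m2, (hF i hi).2.2.2 _ m3⟩
    simp only [retryN] at hn
    omega
  | succ t ih =>
    intro j D₁ P₁ ν 𝓡 s F E hj st hPP hP₁ hI hN hw hE hF hn
    simp only [retryN] at hn
    set n' := retryN d q N c c' J k t with hn'
    set L := J * c' + 2 * d n' + c + k with hL
    set m := J * c' + 2 * (c + k) + 2 * d (k + 1) + q L with hm
    have hjc : j * c' + c' ≤ J * c' := by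
      rw [← Nat.succ_mul]; exact Nat.mul_le_mul_right _ (by omega)
    have aF : AFam G s F := hE.of_subset (fun i hi => (hF i hi).1) fun i hi => (hF i hi).2.1
    have heavy : ∀ (D' : Finset V) (s₁ : Finset (Set V)), (D' : Set V) ⊆ HH S I → D'.card ≤ c →
        s₁ ⊆ s → q L ≤ s₁.card → (∀ i ∈ s₁, ∃ z ∈ F i, z ∈ g.Wo D') → T.R (r + 1) P := by
      intro D' s₁ hD' hc' hs₁ hq hz
      by_cases hne : s₁.Nonempty ∨ Nonempty V
      swap
      · push Not at hne
        have : P = ∅ := Set.eq_empty_of_forall_notMem fun x _ => hne.2.false x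
        rw [this]
        exact T.le T.zero (Nat.zero_le _)
      have : Nonempty V := hne.elim (fun ⟨i, hi⟩ => ⟨(hz i hi).choose⟩) id
      choose! z hz1 hz2 using hz
      have zinj : Set.InjOn z s₁ := by
        intro i hi i' hi' e
        by_contra hne
        exact (aF.2 i (hs₁ hi) i' (hs₁ hi') hne).ne (hz1 i hi) (hz1 i' hi') e
      obtain ⟨D₂, Z₁, 𝓡₁, p1, p2, p3, p4, p5, p6, p7⟩ := g.step j L D₁ D' (s₁.image z) 𝓡 (by omega)
        hI st.sub hD' hc' (by
          intro x hx y hy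
          obtain ⟨i, hi, rfl⟩ := Finset.mem_image.1 hx
          obtain ⟨i', hi', rfl⟩ := Finset.mem_image.1 hy
          by_cases e : i = i'
          · subst e; exact G.irrefl
          · exact (aF.2 i (hs₁ hi) i' (hs₁ hi') e).not_adj (hz1 i hi) (hz1 i' hi'))
        (by
          intro x hx
          obtain ⟨i, hi, rfl⟩ := Finset.mem_image.1 hx
          exact ⟨hz2 i hi, fun e => (hF i (hs₁ hi)).2.2.1.1 (hz1 i hi) (Or.inr e)⟩)
        (by rw [Finset.card_image_of_injOn zinj]; exact hq)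
      set T' := s₁.filter fun i => z i ∈ Z₁ with hT'
      have sT : T' ⊆ s := (Finset.filter_subset _ _).trans hs₁
      have cT : L ≤ T'.card := by
        refine p5.trans ((Finset.card_le_card (t := T'.image z) fun x hx => ?_).trans
          Finset.card_image_le)
        obtain ⟨i, hi, rfl⟩ := Finset.mem_image.1 (p4 hx)
        exact Finset.mem_image.2 ⟨i, Finset.mem_filter.2 ⟨hi, hx⟩, rfl⟩
      have st2 := st.ext p1 p2
      have n2 := GSys.Nu.ext g p1 hN
      have pp : P ∩ HC G S I D₂ ⊆ P₁ ∩ HC G S I D₂ := fun x hx =>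
        ⟨hPP ⟨hx.1, HC_anti p1 hx.2⟩, hx.2⟩
      obtain ⟨s₂, -, n3, a2, l2⟩ := n2.exists_max
      rcases match_or (fun Y i => Touch G Y (F i)) (d n') s₂ T' with
        ⟨t', ht', hct, φ, hφ, hinj⟩ | ⟨s₀, hs₀, t₀, ht₀, b1, b2, b3⟩
      · have a3 : AFam G t' fun i => id (φ i) := a2.comp (fun i hi => (hφ i hi).1) hinj
        obtain ⟨s'', k1, k2, k3⟩ := hD _ t' _ E n' a3 (hE.mono (ht'.trans sT)) hct.ge
        have ks : s'' ⊆ s := k1.trans (ht'.trans sT)
        have a4 := (a3.mono k1).union (hE.mono ks)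
          (fun i hi => (hφ i (k1 hi)).2.mono le_rfl (hF i (ks hi)).2.1) k3
        refine ih (j + 1) D₂ _ ν 𝓡₁ s'' φ _ (by omega) st2 pp (Set.inter_subset_left.trans hP₁) p6
          n2 (by rw [Nat.succ_mul]; omega) a4 (fun i hi => ?_) k2.ge
        refine ⟨a3.1 i (k1 hi), Set.subset_union_left, l2 _ (hφ i (k1 hi)).1, fun R hR => ?_⟩
        obtain ⟨i1, i2⟩ := Finset.mem_filter.1 (ht' (k1 hi))
        rcases p7 _ i2 R hR with e | e
        · exact ((hF i (ks hi)).2.2.2 R e).mono Set.subset_union_right le_rfl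
        · exact touch_iff.2 ⟨z i, Or.inr ((hF i (ks hi)).2.1 (hz1 i i1)), e⟩
      · have := NuLe.add_le hN (a2.mono hs₀) (aF.mono (ht₀.trans sT))
          (fun Y hY i hi => not_touch.1 (b3 Y hY i hi))
          (fun Y hY => GSys.Lnk.ext g p1 (l2 Y (hs₀ hY))) fun i hi => (hF i (sT (ht₀ hi))).2.2.1
        have hw2 : D₂.card + s₂.card ≤ w := by omega
        exact g.reduce1 T hs hEP hK hP st2 pp (by omega) (n3.mono le_rfl le_rfl le_rfl (by omega))
          (hsmall D₂ _ _ st2 (Set.inter_subset_left.trans hP₁) n3 hw2)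
    have hu : ∀ i ∈ s, ∃ y ∈ P₁, ∃ x ∈ F i, G.Adj x y := by
      intro i hi
      obtain ⟨x, hx, y, hy, e | e⟩ := (hF i hi).2.2.1.2.1
      · exact ((hF i hi).2.2.1.1 hx (Or.inl (e ▸ HC_subset _ (st.inn hy)))).elim
      · exact ⟨y, hy, x, hx, e⟩
    have : Nonempty V := by
      obtain ⟨i, hi⟩ := Finset.card_pos.1 (show 0 < s.card by omega)
      exact ⟨(hu i hi).choose⟩
    choose! u hu1 hu2 using hu
    by_cases hv : ∃ y ∈ s.image u, q L ≤ (s.filter fun i => u i = y).card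
    · obtain ⟨y, hy, hq⟩ := hv
      obtain ⟨i₀, hi₀, rfl⟩ := Finset.mem_image.1 hy
      refine heavy {u i₀} _ (by simpa using HC_subset _ (st.inn (hu1 i₀ hi₀))) (by simpa using hc)
        (Finset.filter_subset _ _) hq fun i hi => ?_
      obtain ⟨i1, i2⟩ := Finset.mem_filter.1 hi
      obtain ⟨x, hx, e⟩ := hu2 i i1
      exact ⟨x, hx, g.nb _ x (fun e' => (hF i i1).2.2.1.1 hx (Or.inl e'))
        ⟨u i₀, by simp, i2 ▸ e⟩⟩
    push Not at hv
    have hM : N m ≤ (s.image u).card := by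
      have h1 := Finset.card_le_mul_card_image s (q L) fun y hy => (hv y hy).le
      by_contra hlt
      have := Nat.mul_le_mul_left (q L) (not_le.1 hlt).le
      omega
    obtain ⟨D', MA, MB, A, B, c1, c2, c3, c4, c5, hcut⟩ := hW m (s.image u) (by
      intro y hy
      obtain ⟨i, hi, rfl⟩ := Finset.mem_image.1 hy
      exact HC_subset _ (st.inn (hu1 i hi))) hM
    by_cases hv' : q L ≤ (s.filter fun i => ∃ z ∈ F i, z ∈ g.Wo D').card
    · exact heavy D' _ hcut.sub c1 (Finset.filter_subset _ _) hv' fun i hi =>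
        (Finset.mem_filter.1 hi).2
    have side : ∀ {A B : Set V} {MA MB : Finset V}, MB ⊆ s.image u → m ≤ MB.card →
        Cut G S I (g.U D') D' A B MA MB k → T.R r (P₁ ∩ A) := by
      intro A B MA MB c3 c5 hcut
      set sB := s.filter fun i => u i ∈ MB ∧ ¬ ∃ z ∈ F i, z ∈ g.Wo D' with hsB
      have sBs : sB ⊆ s := Finset.filter_subset _ _
      have cB : m ≤ sB.card + q L := by
        have h1 : MB ⊆ (sB ∪ s.filter fun i => ∃ z ∈ F i, z ∈ g.Wo D').image u := by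
          intro y hy
          obtain ⟨i, hi, rfl⟩ := Finset.mem_image.1 (c3 hy)
          refine Finset.mem_image.2 ⟨i, ?_, rfl⟩
          by_cases e : ∃ z ∈ F i, z ∈ g.Wo D'
          · exact Finset.mem_union_right _ (Finset.mem_filter.2 ⟨hi, e⟩)
          · exact Finset.mem_union_left _ (Finset.mem_filter.2 ⟨hi, hy, e⟩)
        have h2 := (Finset.card_le_card h1).trans
          (Finset.card_image_le.trans (Finset.card_union_le _ _))
        omega
      obtain ⟨D₃, ν₃, st3, n3, w3⟩ := g.light hD st hN hcut (aF.mono sBs)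
        (fun i hi => (hF i (sBs hi)).2.2.1) (fun i hi => by
          rintro x hx (e | e)
          · exact (hF i (sBs hi)).2.2.1.1 hx (Or.inl e)
          · exact (Finset.mem_filter.1 hi).2.2 ⟨x, hx, e⟩) fun i hi => by
          obtain ⟨x, hx, e⟩ := hu2 i (sBs hi)
          exact Touch.of_adj hx (Finset.mem_filter.1 hi).2.1 e
      exact hsmall D₃ _ ν₃ st3 (Set.inter_subset_left.trans hP₁) n3 (by omega)
    exact g.reduce2 T hs hEP hK hP st hPP (by omega) (hN.mono le_rfl le_rfl le_rfl (by omega))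
      hcut.sub (by omega) hcut.cover hcut.anti
      (hcut.nuB.mono le_rfl le_rfl Set.subset_union_left (by omega)) (side c3 c5 hcut)
      (side c2 c4 hcut.symm)

end Pool.Agent.Ehf
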