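import Pool.Agent.MP_3ad207_lc.H6.Spec4
import Pool.Agent.MP_3ad207_lc.H6.Match
import Pool.Agent.MP_3ad207_lc.H82.Tree

/-! States, contexts and the splitting step of the assembly. -/

set_option autoImplicit false

namespace Pool.Agent.Ehf

variable {V : Type} {G : SimpleGraph V} {S I : Set V}

theorem HC_subset (D : Finset V) : HC G S I D ⊆ HH S I := fun _ h => h.1

theorem HC_anti {D D' : Finset V} (h : D ⊆ D') : HC G S I D' ⊆ HC G S I D :=
  fun _ hx => ⟨hx.1, fun e => hx.2.1 (h e), fun y hy => hx.2.2 y (h hy)⟩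

theorem HC_empty : HC G S I ∅ = HH S I := by
  ext x; simp [HC]

theorem mem_HC_of_cover {D D' D₁ : Finset V} (h : ∀ y ∈ D₁, y ∈ D ∨ y ∈ D') {x : V}
    (h1 : x ∈ HC G S I D) (h2 : x ∈ HC G S I D') : x ∈ HC G S I D₁ :=
  ⟨h1.1, fun e => (h x e).elim h1.2.1 h2.2.1, fun y hy hb =>
    (h y hy).elim (fun e => h1.2.2 y e hb) fun e => h2.2.2 y e hb⟩

/-- a state: members `D` and a union `P` of components of the surviving part -/
structure St (G : SimpleGraph V) (S I : Set V) (D : Finset V) (P : Set V) : Prop where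
  sub : (D : Set V) ⊆ HH S I
  inn : P ⊆ HC G S I D
  anti : Anti G P (HC G S I D \ P)

theorem St.ext {D D₁ : Finset V} {P : Set V} (h : St G S I D P) (hD : D ⊆ D₁)
    (h1 : (D₁ : Set V) ⊆ HH S I) : St G S I D₁ (P ∩ HC G S I D₁) :=
  ⟨h1, Set.inter_subset_right, h.anti.mono Set.inter_subset_left fun _ hx =>
    ⟨HC_anti hD hx.1, fun e => hx.2 ⟨e, hx.1⟩⟩⟩

theorem ForSide.notMem {A B : Set V} {p : V} (h : ForSide G S I B p) (hAB : Anti G A B) :
    p ∉ A := by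
  intro hp
  rcases h with h | h
  · exact hAB.notMem hp h
  · exact hAB.not_sees hp h.2

section split

variable {D D' D₁ M : Finset V} {P A B : Set V}

theorem mem_HC_of_split (hAB : Anti G A B) (hM : ∀ p ∈ M, ForSide G S I B p)
    (hk : ∀ y ∈ D, y ∉ B → y ∉ M → y ∈ D₁) {x : V} (hA : x ∈ A) (hx : x ∈ HC G S I D₁) :
    x ∈ HC G S I D := by
  refine ⟨hx.1, fun e => hx.2.1 (hk x e (hAB.notMem hA) fun e' => (hM x e').notMem hAB hA), ?_⟩
  intro y hy hb e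
  have hyB : y ∉ B := fun e' => hAB.not_adj hA e' e
  refine hx.2.2 y (hk y hy hyB fun e' => ?_) hb e
  rcases hM y e' with h | h
  · exact hyB h
  · exact hb.2 h.1.1

theorem St.split (h : St G S I D P) (hD' : (D' : Set V) ⊆ HH S I) (hc : A ∪ B = HC G S I D')
    (hAB : Anti G A B) (hM : ∀ p ∈ M, ForSide G S I B p) (h1 : D' ⊆ D₁)
    (h2 : ∀ y ∈ D₁, y ∈ D ∨ y ∈ D') (hk : ∀ y ∈ D, y ∉ B → y ∉ M → y ∈ D₁) :
    St G S I D₁ (P ∩ A) := by
  refine ⟨fun y hy => (h2 y hy).elim (fun e => h.sub e) fun e => hD' e, fun x hx =>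
    mem_HC_of_cover h2 (h.inn hx.1) (hc ▸ Or.inl hx.2), ?_⟩
  intro x hx y hy
  have hy' : y ∈ A ∪ B := hc ▸ HC_anti h1 hy.1
  rcases hy' with hA | hB
  · exact h.anti x hx.1 y ⟨mem_HC_of_split hAB hM hk hA hy.1, fun e => hy.2 ⟨e, hA⟩⟩
  · exact hAB x hx.2 y hB

end split

variable {C : CanSys G S} {h q : ℕ → ℕ} {c c' J : ℕ} (g : GSys G S I C h q c c' J)

/-- the region where links live -/
def GSys.U (D : Finset V) : Set V := (HH S I ∪ g.Wo D)ᶜ

theorem GSys.U_anti {D D' : Finset V} (hD : D ⊆ D') : g.U D' ⊆ g.U D := by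
  rintro x hx (e | e)
  · exact hx (Or.inl e)
  · exact hx (Or.inr (g.mono hD e))

/-- `Y` is a link of the state `(D, P)` -/
def GSys.Lnk (D : Finset V) (P Y : Set V) : Prop :=
  Y ⊆ g.U D ∧ Touch G Y P ∧ Touch G Y (HC G S I D \ P)

/-- at most `k` anticomplete links of the state `(D, P)` -/
def GSys.Nu (D : Finset V) (P : Set V) (k : ℕ) : Prop :=
  NuLe G (g.U D) P (HC G S I D \ P) k

theorem GSys.Lnk.ext {D D₁ : Finset V} {P Y : Set V} (hD : D ⊆ D₁)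
    (hY : g.Lnk D₁ (P ∩ HC G S I D₁) Y) : g.Lnk D P Y :=
  ⟨hY.1.trans (g.U_anti hD), hY.2.1.mono le_rfl Set.inter_subset_left,
    hY.2.2.mono le_rfl fun _ hx => ⟨HC_anti hD hx.1, fun e => hx.2 ⟨e, hx.1⟩⟩⟩

theorem GSys.Nu.ext {D D₁ : Finset V} {P : Set V} {k : ℕ} (hD : D ⊆ D₁) (hN : g.Nu D P k) :
    g.Nu D₁ (P ∩ HC G S I D₁) k :=
  fun s hs hT => hN s hs fun Y hY => GSys.Lnk.ext g hD (hT Y hY)

/-- (S2) a link of the split state that avoids the far side is a link of the old state -/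
theorem GSys.lnk_split {D D' D₁ M : Finset V} {P A B Y : Set V} (hD : (D : Set V) ⊆ HH S I)
    (hD' : (D' : Set V) ⊆ HH S I) (hD₁ : (D₁ : Set V) ⊆ HH S I) (hc : A ∪ B = HC G S I D')
    (hAB : Anti G A B) (hM : ∀ p ∈ M, ForSide G S I B p) (h1 : D' ⊆ D₁)
    (hk : ∀ y ∈ D, y ∉ B → y ∉ M → y ∈ D₁) (hY : g.Lnk D₁ (P ∩ A) Y)
    (ha : Anti G Y (B ∪ (M : Set V))) : g.Lnk D P Y := by
  refine ⟨?_, hY.2.1.mono le_rfl Set.inter_subset_left, ?_⟩
  · rintro z hz (e | e)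
    · exact hY.1 hz (Or.inl e)
    · exact hY.1 hz (Or.inr (g.split D D' D₁ M A B hD hD' hD₁ hc hAB hM h1 hk z e
        (ha.mono (Set.singleton_subset_iff.2 hz) le_rfl)))
  · obtain ⟨x, hx, y, hy, e⟩ := hY.2.2
    have hy' : y ∈ A ∪ B := hc ▸ HC_anti h1 hy.1
    rcases hy' with hA | hB
    · exact ⟨x, hx, y, ⟨mem_HC_of_split hAB hM hk hA hy.1, fun e' => hy.2 ⟨e', hA⟩⟩, e⟩
    · rcases e with e | e
      · exact ((ha x hx y (Or.inl hB)).1 e).elim
      · exact ((ha x hx y (Or.inl hB)).2 e).elim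

/-- a family of links of the split state: all but `k` members avoid the far side -/
theorem GSys.split_family {D' D₁ MA MB : Finset V} {P A B : Set V} {k : ℕ}
    (hcut : Cut G S I (g.U D') D' A B MA MB k) (h1 : D' ⊆ D₁) {s : Finset (Set V)}
    (hs : AFam G s id) (hT : ∀ Y ∈ s, g.Lnk D₁ (P ∩ A) Y) :
    ∃ s' ⊆ s, s.card ≤ s'.card + k ∧ ∀ Y ∈ s', Anti G Y (B ∪ (MB : Set V)) := by
  classical
  refine ⟨s.filter fun Y => ¬ Touch G Y (B ∪ (MB : Set V)), Finset.filter_subset _ _, ?_,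
    fun Y hY => not_touch.1 (Finset.mem_filter.1 hY).2⟩
  have h2 : (s.filter fun Y => Touch G Y (B ∪ (MB : Set V))).card ≤ k := by
    refine hcut.nuB _ (hs.mono (Finset.filter_subset _ _)) fun Y hY => ?_
    obtain ⟨hY1, hY2⟩ := Finset.mem_filter.1 hY
    exact ⟨(hT Y hY1).1.trans (g.U_anti h1), (hT Y hY1).2.1.mono le_rfl Set.inter_subset_right, hY2⟩
  have := Finset.card_filter_add_card_filter_not (s := s) fun Y => Touch G Y (B ∪ (MB : Set V))
  omega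

theorem GSys.nu_split {D D' D₁ MA MB : Finset V} {P A B : Set V} {k ν : ℕ}
    (hD : (D : Set V) ⊆ HH S I) (hcut : Cut G S I (g.U D') D' A B MA MB k)
    (hD₁ : (D₁ : Set V) ⊆ HH S I) (h1 : D' ⊆ D₁) (hk : ∀ y ∈ D, y ∉ B → y ∉ MB → y ∈ D₁)
    (hN : g.Nu D P ν) : g.Nu D₁ (P ∩ A) (ν + k) := by
  intro s hs hT
  obtain ⟨s', h2, h3, h4⟩ := g.split_family hcut h1 hs hT
  have := hN s' (hs.mono h2) fun Y hY =>
    g.lnk_split hD hcut.sub hD₁ hcut.cover hcut.anti hcut.mb h1 hk (hT Y (h2 hY)) (h4 Y hY)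
  omega

/-- the members after a split -/
theorem exists_split_members (D D' M : Finset V) (B : Set V) :
    ∃ D₁ : Finset V, D' ⊆ D₁ ∧ (∀ y ∈ D₁, y ∈ D ∨ y ∈ D') ∧ (∀ y ∈ D, y ∉ B → y ∉ M → y ∈ D₁) ∧
      D₁.card ≤ D.card + D'.card ∧ (M ⊆ D → D₁.card + M.card ≤ D.card + D'.card) := by
  classical
  refine ⟨D' ∪ D \ M, Finset.subset_union_left, fun y hy => ?_, fun y hy _ hM => ?_, ?_, fun hM => ?_⟩
  · rcases Finset.mem_union.1 hy with h | h
    · exact Or.inr h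
    · exact Or.inl (Finset.mem_sdiff.1 h).1
  · exact Finset.mem_union_right _ (Finset.mem_sdiff.2 ⟨hy, hM⟩)
  · have h1 := Finset.card_union_le D' (D \ M)
    have h2 := Finset.card_le_card (Finset.sdiff_subset (s := D) (t := M))
    omega
  · have h1 := Finset.card_union_le D' (D \ M)
    have h2 := Finset.card_sdiff_add_card_eq_card hM
    omega

end Pool.Agent.Ehf
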